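import Mathlib

/-!
Counting lemmas for Theorem A of MP_be1fae_nt: `S`-units, numbers `b y^k` with `k ≥ P`, number of
prime factors against factorials.
-/

set_option autoImplicit false

namespace Pool.Agent.FCat

open Finset

/-- `a` is an `S`-unit. -/
def SU (S : Finset ℕ) (a : ℤ) : Prop :=
  a ≠ 0 ∧ ∀ l : ℕ, l.Prime → (l : ℤ) ∣ a → l ∈ S

/-- `2 (log₂ N + 1)^{|S|}` bounds the number of `S`-units of absolute value at most `N`. -/
lemma su_finite (S : Finset ℕ) (N : ℕ) : {a : ℤ | SU S a ∧ |a| ≤ N}.Finite := by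
  refine Set.Finite.subset (Set.finite_Icc (-(N : ℤ)) N) ?_
  rintro a ⟨-, h⟩
  exact abs_le.mp h

lemma su_card (S : Finset ℕ) (N : ℕ) :
    {a : ℤ | SU S a ∧ |a| ≤ N}.ncard ≤ 2 * (Nat.log 2 N + 1) ^ S.card := by
  classical
  set T := {a : ℤ | SU S a ∧ |a| ≤ N} with hT
  let f : ℤ → Bool × (S → Fin (Nat.log 2 N + 1)) := fun a =>
    (decide (0 ≤ a), fun l => Fin.ofNat _ (a.natAbs.factorization l))
  have hbd : ∀ a ∈ T, ∀ l : ℕ, a.natAbs.factorization l < Nat.log 2 N + 1 := by
    rintro a ⟨⟨ha0, -⟩, haN⟩ l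
    have hn : a.natAbs ≤ N := by
      have : ((a.natAbs : ℕ) : ℤ) ≤ N := by rw [Int.natCast_natAbs]; exact haN
      exact_mod_cast this
    have ha : a.natAbs ≠ 0 := Int.natAbs_ne_zero.mpr ha0
    by_cases hl : l.Prime
    · have h1 : l ^ a.natAbs.factorization l ≤ a.natAbs := Nat.ordProj_le l ha
      have h2 : 2 ^ a.natAbs.factorization l ≤ N :=
        (Nat.pow_le_pow_left hl.two_le _).trans (h1.trans hn)
      exact Nat.lt_succ_of_le (Nat.le_log_of_pow_le (by norm_num) h2)
    · rw [Nat.factorization_eq_zero_of_not_prime _ hl]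
      omega
  have hinj : Set.InjOn f T := by
    intro a ha b hb hab
    have hsign : (0 ≤ a) ↔ (0 ≤ b) := by
      have := congrArg Prod.fst hab
      simpa [f] using this
    have hfac : a.natAbs.factorization = b.natAbs.factorization := by
      ext l
      by_cases hl : l ∈ S
      · have h1 := congrFun (congrArg Prod.snd hab) ⟨l, hl⟩
        have h2 := congrArg Fin.val h1
        simp only [f, Fin.val_ofNat] at h2
        rwa [Nat.mod_eq_of_lt (hbd a ha l), Nat.mod_eq_of_lt (hbd b hb l)] at h2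
      · have key : ∀ c ∈ T, c.natAbs.factorization l = 0 := by
          intro c hc
          by_contra h
          have hlp : l.Prime := by
            by_contra hlp
            exact h (Nat.factorization_eq_zero_of_not_prime _ hlp)
          have hd : l ∣ c.natAbs := Nat.dvd_of_factorization_pos h
          exact hl (hc.1.2 l hlp (Int.natCast_dvd.mpr hd))
        rw [key a ha, key b hb]
    have hnat : a.natAbs = b.natAbs :=
      Nat.eq_of_factorization_eq (Int.natAbs_ne_zero.mpr ha.1.1) (Int.natAbs_ne_zero.mpr hb.1.1)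
        (fun l => by rw [hfac])
    omega
  have h1 : T.ncard ≤ (Set.univ : Set (Bool × (S → Fin (Nat.log 2 N + 1)))).ncard :=
    Set.ncard_le_ncard_of_injOn f (fun _ _ => Set.mem_univ _) hinj
  rw [Set.ncard_univ, Nat.card_eq_fintype_card] at h1
  simpa using h1

/-- Numbers `b y^k` with `b` an `S`-unit and `k ≥ P`. -/
def Bset (S : Finset ℕ) (P N : ℕ) : Set ℤ :=
  {n : ℤ | |n| ≤ N ∧ ∃ b y : ℤ, ∃ k : ℕ, P ≤ k ∧ SU S b ∧ y ≠ 0 ∧ n = b * y ^ k}

lemma bset_finite (S : Finset ℕ) (P N : ℕ) : (Bset S P N).Finite := by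
  refine Set.Finite.subset (Set.finite_Icc (-(N : ℤ)) N) ?_
  rintro a ⟨h, -⟩
  exact abs_le.mp h

lemma SU.mul {S : Finset ℕ} {a b : ℤ} (ha : SU S a) (hb : SU S b) : SU S (a * b) := by
  refine ⟨mul_ne_zero ha.1 hb.1, fun l hl h => ?_⟩
  rcases (Nat.prime_iff_prime_int.mp hl).dvd_or_dvd h with h | h
  · exact ha.2 l hl h
  · exact hb.2 l hl h

lemma SU.pow {S : Finset ℕ} {a : ℤ} (ha : SU S a) (k : ℕ) : SU S (a ^ k) := by
  refine ⟨pow_ne_zero _ ha.1, fun l hl h => ?_⟩
  exact ha.2 l hl ((Nat.prime_iff_prime_int.mp hl).dvd_of_dvd_pow h)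

lemma SU.neg {S : Finset ℕ} {a : ℤ} (ha : SU S a) : SU S (-a) :=
  ⟨neg_ne_zero.mpr ha.1, fun l hl h => ha.2 l hl (dvd_neg.mp h)⟩

lemma SU.one (S : Finset ℕ) : SU S 1 := by
  refine ⟨one_ne_zero, fun l hl h => ?_⟩
  exact absurd (Int.natCast_dvd_natCast.mp (by simpa using h : (l : ℤ) ∣ ((1 : ℕ) : ℤ)))
    (by rw [Nat.dvd_one]; exact hl.one_lt.ne')

lemma bset_card (S : Finset ℕ) (P N : ℕ) (hP : 1 ≤ P) (hN : 1 ≤ N) :
    ((Bset S P N).ncard : ℝ) ≤
      6 * ((Nat.log 2 N + 1 : ℕ) : ℝ) ^ (S.card + 1) * (N : ℝ) ^ (1 / (P : ℝ)) := by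
  classical
  set L := Nat.log 2 N + 1 with hL
  set M : ℕ := ⌊(N : ℝ) ^ (1 / (P : ℝ))⌋₊ with hM
  have hN1 : (1 : ℝ) ≤ N := by exact_mod_cast hN
  have hX1 : (1 : ℝ) ≤ (N : ℝ) ^ (1 / (P : ℝ)) := Real.one_le_rpow hN1 (by positivity)
  have hM1 : 1 ≤ M := Nat.le_floor (by simpa using hX1)
  have hMle : (M : ℝ) ≤ (N : ℝ) ^ (1 / (P : ℝ)) := Nat.floor_le (by positivity)
  set U := {a : ℤ | SU S a ∧ |a| ≤ N} with hU
  have hUf : U.Finite := su_finite S N
  set D : Finset (ℤ × ℤ × ℕ) := hUf.toFinset ×ˢ Finset.Icc (-(M : ℤ)) M ×ˢ Finset.range L with hD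
  have hsub : Bset S P N ⊆ ((D.image (fun t => t.1 * t.2.1 ^ t.2.2) : Finset ℤ) : Set ℤ) := by
    rintro n ⟨hn, b, y, k, hk, hb, hy, rfl⟩
    rw [Finset.mem_coe, Finset.mem_image]
    have hy1 : 1 ≤ |y| := Int.one_le_abs hy
    have hyk : 1 ≤ |y| ^ k := one_le_pow₀ hy1
    have habs : |b * y ^ k| = |b| * |y| ^ k := by rw [abs_mul, abs_pow]
    have hb1 : 1 ≤ |b| := Int.one_le_abs hb.1
    have hbN : |b| ≤ N := by
      rw [habs] at hn
      nlinarith
    have hykN : |y| ^ k ≤ N := by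
      rw [habs] at hn
      nlinarith
    rcases eq_or_lt_of_le hy1 with h1 | h1
    · refine ⟨(b * y ^ k, 1, 0), ?_, by simp⟩
      rw [hD, Finset.mem_product, Finset.mem_product, Set.Finite.mem_toFinset, Finset.mem_Icc,
        Finset.mem_range]
      have hM1' : (1 : ℤ) ≤ (M : ℤ) := by exact_mod_cast hM1
      refine ⟨⟨?_, hn⟩, ⟨by simp only; omega, by simp only; omega⟩, by simp [hL]⟩
      have hyy : SU S (y ^ k) := by
        apply SU.pow
        rcases (abs_eq (by norm_num : (0 : ℤ) ≤ 1)).mp h1.symm with h | h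
        · rw [h]; exact SU.one S
        · rw [h]; exact (SU.one S).neg
      exact hb.mul hyy
    · refine ⟨(b, y, k), ?_, rfl⟩
      rw [hD, Finset.mem_product, Finset.mem_product, Set.Finite.mem_toFinset, Finset.mem_Icc,
        Finset.mem_range]
      have habsy : ((y.natAbs : ℕ) : ℤ) = |y| := Int.natCast_natAbs y
      have h2 : 2 ≤ y.natAbs := by omega
      have h3 : y.natAbs ^ k ≤ N := by
        have : ((y.natAbs ^ k : ℕ) : ℤ) ≤ N := by
          push_cast
          exact hykN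
        exact_mod_cast this
      have h4 : 2 ^ k ≤ N := (Nat.pow_le_pow_left h2 k).trans h3
      have h5 : k ≤ Nat.log 2 N := Nat.le_log_of_pow_le (by norm_num) h4
      have h6 : y.natAbs ≤ M := by
        apply Nat.le_floor
        have h7 : (y.natAbs : ℝ) ^ P ≤ N := by
          have : y.natAbs ^ P ≤ N := (Nat.pow_le_pow_right (by omega) hk).trans h3
          exact_mod_cast this
        have hPr : (P : ℝ) ≠ 0 := by positivity
        calc (y.natAbs : ℝ) = ((y.natAbs : ℝ) ^ (P : ℝ)) ^ (1 / (P : ℝ)) := by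
              rw [← Real.rpow_mul (by positivity), mul_one_div_cancel hPr, Real.rpow_one]
          _ ≤ (N : ℝ) ^ (1 / (P : ℝ)) := by
              apply Real.rpow_le_rpow (by positivity) _ (by positivity)
              rw [Real.rpow_natCast]
              exact h7
      exact ⟨⟨hb, hbN⟩, ⟨by simp only; omega, by simp only; omega⟩, by simp only; omega⟩
  have hcard : (Bset S P N).ncard ≤ (2 * L ^ S.card) * ((2 * M + 1) * L) := by
    calc (Bset S P N).ncard ≤ ((D.image (fun t => t.1 * t.2.1 ^ t.2.2) : Finset ℤ) : Set ℤ).ncard :=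
          Set.ncard_le_ncard hsub (Finset.finite_toSet _)
      _ = (D.image (fun t => t.1 * t.2.1 ^ t.2.2)).card := Set.ncard_coe_finset _
      _ ≤ D.card := Finset.card_image_le
      _ = hUf.toFinset.card * ((2 * M + 1) * L) := by
          rw [hD, Finset.card_product, Finset.card_product, Finset.card_range, Int.card_Icc]
          congr 2
          omega
      _ ≤ (2 * L ^ S.card) * ((2 * M + 1) * L) := by
          gcongr
          rw [← Set.ncard_eq_toFinset_card U hUf]
          exact su_card S N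
  have hL0 : (0 : ℝ) ≤ (L : ℝ) := by positivity
  calc ((Bset S P N).ncard : ℝ) ≤ (((2 * L ^ S.card) * ((2 * M + 1) * L) : ℕ) : ℝ) := by
        exact_mod_cast hcard
    _ = 2 * (L : ℝ) ^ (S.card + 1) * (2 * M + 1) := by push_cast; ring
    _ ≤ 2 * (L : ℝ) ^ (S.card + 1) * (3 * (N : ℝ) ^ (1 / (P : ℝ))) := by
        gcongr
        linarith
    _ = _ := by ring

/-- `|s|! ≤ ∏ s` for a finite set of positive integers. -/
lemma factorial_card_le_prod (s : Finset ℕ) (hs : ∀ a ∈ s, 1 ≤ a) :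
    s.card.factorial ≤ ∏ a ∈ s, a := by
  classical
  induction hn : s.card generalizing s with
  | zero =>
    have : s = ∅ := Finset.card_eq_zero.mp hn
    subst this
    simp
  | succ n ih =>
    have hne : s.Nonempty := Finset.card_pos.mp (by omega)
    set m := s.max' hne with hm
    have hmem : m ∈ s := Finset.max'_mem s hne
    have hsub : s ⊆ Finset.Icc 1 m := by
      intro a ha
      rw [Finset.mem_Icc]
      exact ⟨hs a ha, Finset.le_max' s a ha⟩
    have hcm : n + 1 ≤ m := by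
      have := Finset.card_le_card hsub
      rw [Nat.card_Icc, hn] at this
      omega
    have h1 := ih (s.erase m) (fun a ha => hs a (Finset.mem_of_mem_erase ha))
      (by rw [Finset.card_erase_of_mem hmem, hn]; rfl)
    rw [← Finset.mul_prod_erase s (fun a => a) hmem, Nat.factorial_succ]
    exact Nat.mul_le_mul hcm h1

lemma omega_factorial (z : ℕ) (hz : 1 ≤ z) : (z.primeFactors.card).factorial ≤ z :=
  (factorial_card_le_prod _ (fun _ ha => (Nat.prime_of_mem_primeFactors ha).one_lt.le)).trans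
    (Nat.le_of_dvd hz (Nat.prod_primeFactors_dvd z))

lemma two_pow_omega (z : ℕ) (hz : 1 ≤ z) : 2 ^ z.primeFactors.card ≤ z := by
  calc 2 ^ z.primeFactors.card = ∏ _a ∈ z.primeFactors, 2 := by simp
    _ ≤ ∏ a ∈ z.primeFactors, a :=
        Finset.prod_le_prod' (fun a ha => (Nat.prime_of_mem_primeFactors ha).two_le)
    _ ≤ z := Nat.le_of_dvd hz (Nat.prod_primeFactors_dvd z)

end Pool.Agent.FCat
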