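import Mathlib
import Pool.Agent.FCat.CntA

/-!
Analytic estimates for the count in Theorem A of MP_be1fae_nt: powers of `log N` with exponent
`ω(z)` are `N^ε` when `z^R ≤ N`; and the decomposition of an `S`-unit as (bounded) times a `q`-th
power.
-/

set_option autoImplicit false

namespace Pool.Agent.FCat

open Finset

/-- `L^n ≤ n! 2^{Dn} exp(L / 2^D)`. -/
lemma pow_le_fact_exp (L : ℝ) (hL : 0 ≤ L) (n D : ℕ) :
    L ^ n ≤ (n.factorial : ℝ) * (2 : ℝ) ^ (D * n) * Real.exp (L / 2 ^ D) := by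
  have h := Real.pow_div_factorial_le_exp (L / 2 ^ D) (by positivity) n
  have hf : (0 : ℝ) < (n.factorial : ℝ) := by exact_mod_cast n.factorial_pos
  rw [div_pow, div_div, div_le_iff₀ (by positivity)] at h
  calc L ^ n ≤ Real.exp (L / 2 ^ D) * ((2 ^ D) ^ n * (n.factorial : ℝ)) := h
    _ = _ := by rw [pow_mul]; ring

lemma log2_le (N : ℕ) (hN : 1 ≤ N) : (Nat.log 2 N : ℝ) ≤ 2 * Real.log N := by
  have h1 : (2 : ℝ) ^ Nat.log 2 N ≤ N := by exact_mod_cast Nat.pow_log_le_self 2 (by omega)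
  have h2 := Real.log_le_log (by positivity) h1
  rw [Real.log_pow] at h2
  have h3 : (1 / 2 : ℝ) ≤ Real.log 2 := by
    have := Real.log_two_gt_d9
    linarith
  have h4 : (0 : ℝ) ≤ (Nat.log 2 N : ℝ) := by positivity
  nlinarith

lemma exp_log_le (N : ℕ) (hN : 1 ≤ N) (t : ℝ) : Real.exp (t * Real.log N) = (N : ℝ) ^ t := by
  rw [Real.rpow_def_of_pos (by exact_mod_cast hN), mul_comm]

/-- Powers of `log N` are `O(N^ε)`. -/
lemma polylog (k C : ℕ) (ε : ℝ) (hε : 0 < ε) :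
    ∃ K : ℝ, 0 < K ∧ ∀ N : ℕ, 1 ≤ N →
      ((C * (Nat.log 2 N + C) : ℕ) : ℝ) ^ k ≤ K * (N : ℝ) ^ ε := by
  obtain ⟨D, hD⟩ : ∃ D : ℕ, (2 * C : ℝ) / 2 ^ D ≤ ε := by
    obtain ⟨D, hD⟩ := pow_unbounded_of_one_lt ((2 * C : ℝ) / ε) (one_lt_two)
    refine ⟨D, ?_⟩
    rw [div_le_iff₀ (by positivity)]
    rw [div_lt_iff₀ hε] at hD
    linarith
  refine ⟨(k.factorial : ℝ) * (2 : ℝ) ^ (D * k) * Real.exp ((C * C : ℝ) / 2 ^ D), by positivity,
    fun N hN => ?_⟩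
  have h0 : (0 : ℝ) ≤ ((C * (Nat.log 2 N + C) : ℕ) : ℝ) := by positivity
  refine (pow_le_fact_exp _ h0 k D).trans ?_
  have hlog : (0 : ℝ) ≤ Real.log N := Real.log_nonneg (by exact_mod_cast hN)
  have h1 : ((C * (Nat.log 2 N + C) : ℕ) : ℝ) / 2 ^ D ≤
      (C * C : ℝ) / 2 ^ D + ε * Real.log N := by
    have h2 : ((C * (Nat.log 2 N + C) : ℕ) : ℝ) ≤ C * C + 2 * C * Real.log N := by
      have := log2_le N hN
      push_cast
      have hC : (0 : ℝ) ≤ C := by positivity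
      nlinarith
    calc ((C * (Nat.log 2 N + C) : ℕ) : ℝ) / 2 ^ D
        ≤ (C * C + 2 * C * Real.log N) / 2 ^ D := by gcongr
      _ = (C * C : ℝ) / 2 ^ D + (2 * C : ℝ) / 2 ^ D * Real.log N := by ring
      _ ≤ _ := by gcongr
  calc (k.factorial : ℝ) * (2 : ℝ) ^ (D * k) * Real.exp (((C * (Nat.log 2 N + C) : ℕ) : ℝ) / 2 ^ D)
      ≤ (k.factorial : ℝ) * (2 : ℝ) ^ (D * k) *
        Real.exp ((C * C : ℝ) / 2 ^ D + ε * Real.log N) := by
        gcongr
    _ = _ := by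
        rw [Real.exp_add, exp_log_le N hN]
        ring

/-- If `z^R ≤ N` with `R` large, then `(C z)^C (C (log N + C))^{C (ω(z) + s)} ≤ K N^ε`. -/
lemma main_bound (C s : ℕ) (ε : ℝ) (hε : 0 < ε) :
    ∃ R : ℕ, ∃ K : ℝ, 1 ≤ R ∧ 0 < K ∧ ∀ N z : ℕ, 1 ≤ N → 1 ≤ z → z ^ R ≤ N →
      ((C * z : ℕ) : ℝ) ^ C * ((C * (Nat.log 2 N + C) : ℕ) : ℝ) ^ (C * (z.primeFactors.card + s)) ≤
        K * (N : ℝ) ^ ε := by
  -- choose `D` with `2 C * C / 2^D ≤ ε/4`
  obtain ⟨D, hD⟩ : ∃ D : ℕ, (2 * C * C : ℝ) / 2 ^ D ≤ ε / 4 := by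
    obtain ⟨D, hD⟩ := pow_unbounded_of_one_lt ((2 * C * C : ℝ) / (ε / 4)) (one_lt_two)
    refine ⟨D, ?_⟩
    rw [div_le_iff₀ (by positivity)]
    rw [div_lt_iff₀ (by positivity)] at hD
    linarith
  obtain ⟨K1, hK1, hpoly⟩ := polylog (C * s) C (ε / 4) (by positivity)
  set E : ℕ := C + (D + 1) * C with hE
  obtain ⟨R, hR⟩ := exists_nat_ge ((E : ℝ) / (ε / 4))
  refine ⟨R + 1, (C : ℝ) ^ C * Real.exp ((C * C * C : ℝ) / 2 ^ D) * K1 + 1, by omega,
    by positivity, fun N z hN hz hzN => ?_⟩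
  have hN1 : (1 : ℝ) ≤ N := by exact_mod_cast hN
  have hlog : (0 : ℝ) ≤ Real.log N := Real.log_nonneg hN1
  set u := z.primeFactors.card with hu
  set L : ℝ := ((C * (Nat.log 2 N + C) : ℕ) : ℝ) with hL
  have hL0 : 0 ≤ L := by positivity
  have hz1 : (1 : ℝ) ≤ z := by exact_mod_cast hz
  -- `z ^ E ≤ N^{ε/4}`
  have hzE : (z : ℝ) ^ E ≤ (N : ℝ) ^ (ε / 4) := by
    have h1 : (z : ℝ) ^ (R + 1) ≤ N := by exact_mod_cast hzN
    have h2 : (z : ℝ) = ((z : ℝ) ^ (R + 1)) ^ (1 / ((R + 1 : ℕ) : ℝ)) := by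
      rw [← Real.rpow_natCast, ← Real.rpow_mul (by positivity), mul_one_div_cancel (by positivity),
        Real.rpow_one]
    have h3 : (z : ℝ) ≤ (N : ℝ) ^ (1 / ((R + 1 : ℕ) : ℝ)) := by
      calc (z : ℝ) = ((z : ℝ) ^ (R + 1)) ^ (1 / ((R + 1 : ℕ) : ℝ)) := h2
        _ ≤ _ := by gcongr
    calc (z : ℝ) ^ E ≤ ((N : ℝ) ^ (1 / ((R + 1 : ℕ) : ℝ))) ^ E := by gcongr
      _ = (N : ℝ) ^ ((1 / ((R + 1 : ℕ) : ℝ)) * E) := by
          rw [← Real.rpow_natCast, ← Real.rpow_mul (by positivity)]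
      _ ≤ (N : ℝ) ^ (ε / 4) := by
          apply Real.rpow_le_rpow_of_exponent_le hN1
          rw [div_le_iff₀ (by positivity)] at hR
          rw [one_div_mul_eq_div, div_le_iff₀ (by positivity)]
          push_cast
          nlinarith
  -- `L^u ≤ z^{D+1} exp (L / 2^D)`
  have hLu : L ^ u ≤ (z : ℝ) ^ (D + 1) * Real.exp (L / 2 ^ D) := by
    refine (pow_le_fact_exp L hL0 u D).trans ?_
    have h1 : ((u.factorial : ℕ) : ℝ) ≤ z := by exact_mod_cast omega_factorial z hz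
    have h2 : (2 : ℝ) ^ (D * u) ≤ (z : ℝ) ^ D := by
      rw [mul_comm, pow_mul]
      have : (2 : ℝ) ^ u ≤ z := by exact_mod_cast two_pow_omega z hz
      gcongr
    calc (u.factorial : ℝ) * (2 : ℝ) ^ (D * u) * Real.exp (L / 2 ^ D)
        ≤ (z : ℝ) * (z : ℝ) ^ D * Real.exp (L / 2 ^ D) := by gcongr
      _ = _ := by ring
  have hexp : Real.exp (L / 2 ^ D) ^ C ≤
      Real.exp ((C * C * C : ℝ) / 2 ^ D) * (N : ℝ) ^ (ε / 4) := by
    rw [← Real.exp_nat_mul, ← exp_log_le N hN, ← Real.exp_add]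
    apply Real.exp_le_exp.mpr
    have h2 : L ≤ C * C + 2 * C * Real.log N := by
      have := log2_le N hN
      rw [hL]
      push_cast
      have hC : (0 : ℝ) ≤ C := by positivity
      nlinarith
    calc (C : ℝ) * (L / 2 ^ D) ≤ (C : ℝ) * ((C * C + 2 * C * Real.log N) / 2 ^ D) := by gcongr
      _ = (C * C * C : ℝ) / 2 ^ D + (2 * C * C : ℝ) / 2 ^ D * Real.log N := by ring
      _ ≤ _ := by gcongr
  have hLs : L ^ (C * s) ≤ K1 * (N : ℝ) ^ (ε / 4) := hpoly N hN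
  have hX : (0 : ℝ) ≤ (N : ℝ) ^ (ε / 4) := by positivity
  calc ((C * z : ℕ) : ℝ) ^ C * L ^ (C * (u + s))
      = (C : ℝ) ^ C * (z : ℝ) ^ C * ((L ^ u) ^ C * L ^ (C * s)) := by
        push_cast
        rw [mul_pow, ← pow_mul, ← pow_add]
        congr 2
        ring
    _ ≤ (C : ℝ) ^ C * (z : ℝ) ^ C *
        (((z : ℝ) ^ (D + 1) * Real.exp (L / 2 ^ D)) ^ C * (K1 * (N : ℝ) ^ (ε / 4))) := by
        gcongr
    _ = (C : ℝ) ^ C * (z : ℝ) ^ E * (Real.exp (L / 2 ^ D) ^ C * (K1 * (N : ℝ) ^ (ε / 4))) := by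
        have h1 : (z : ℝ) ^ E = (z : ℝ) ^ C * ((z : ℝ) ^ (D + 1)) ^ C := by
          rw [hE, pow_add, ← pow_mul]
        rw [h1, mul_pow]
        ring
    _ ≤ (C : ℝ) ^ C * (N : ℝ) ^ (ε / 4) * ((Real.exp ((C * C * C : ℝ) / 2 ^ D) *
        (N : ℝ) ^ (ε / 4)) * (K1 * (N : ℝ) ^ (ε / 4))) := by
        gcongr
    _ = (C : ℝ) ^ C * Real.exp ((C * C * C : ℝ) / 2 ^ D) * K1 * (N : ℝ) ^ (3 * (ε / 4)) := by
        have : (N : ℝ) ^ (3 * (ε / 4)) = (N : ℝ) ^ (ε / 4) * (N : ℝ) ^ (ε / 4) *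
            (N : ℝ) ^ (ε / 4) := by
          rw [← Real.rpow_add (by positivity), ← Real.rpow_add (by positivity)]
          congr 1
          ring
        rw [this]
        ring
    _ ≤ ((C : ℝ) ^ C * Real.exp ((C * C * C : ℝ) / 2 ^ D) * K1 + 1) * (N : ℝ) ^ ε := by
        gcongr
        · linarith
        · linarith

/-- An `S`-unit is a bounded `S`-unit times a `q`-th power of an `S`-unit. -/
lemma su_decomp (S : Finset ℕ) (q : ℕ) (hq : 1 ≤ q) :
    ∃ M : ℕ, 1 ≤ M ∧ ∀ u : ℤ, SU S u → ∃ c0 c1 : ℤ, SU S c0 ∧ SU S c1 ∧ |c0| ≤ M ∧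
      u = c0 * c1 ^ q := by
  classical
  set M : ℕ := ∏ l ∈ S.filter Nat.Prime, l ^ q with hM
  have hM1 : 1 ≤ M := by
    apply Nat.one_le_iff_ne_zero.mpr
    rw [hM, Finset.prod_ne_zero_iff]
    intro l hl
    exact pow_ne_zero _ (Finset.mem_filter.mp hl).2.ne_zero
  refine ⟨M, hM1, ?_⟩
  suffices h : ∀ n : ℕ, ∀ u : ℤ, u.natAbs = n → SU S u → ∃ c0 c1 : ℤ, SU S c0 ∧ SU S c1 ∧
      |c0| ≤ M ∧ u = c0 * c1 ^ q from fun u hu => h _ u rfl hu
  intro n
  induction n using Nat.strong_induction_on with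
  | _ n ih =>
    intro u hun hu
    by_cases hex : ∃ l : ℕ, l.Prime ∧ ((l : ℤ) ^ q) ∣ u
    · obtain ⟨l, hl, w, hw⟩ := hex
      have hlu : (l : ℤ) ∣ u := (dvd_pow_self _ (by omega)).trans ⟨w, hw⟩
      have hlS : l ∈ S := hu.2 l hl hlu
      have hw0 : w ≠ 0 := by
        rintro rfl
        exact hu.1 (by rw [hw]; simp)
      have hwu : SU S w := ⟨hw0, fun t ht htw => hu.2 t ht (htw.trans ⟨(l : ℤ) ^ q, by rw [hw]; ring⟩)⟩
      have hlt : w.natAbs < n := by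
        rw [← hun, hw, Int.natAbs_mul, Int.natAbs_pow, Int.natAbs_natCast]
        have h1 : 2 ≤ l ^ q := hl.two_le.trans (Nat.le_self_pow (by omega) l)
        have h2 : 1 ≤ w.natAbs := Int.natAbs_pos.mpr hw0
        nlinarith
      obtain ⟨c0, c1, h0, h1, hc, he⟩ := ih _ hlt w rfl hwu
      refine ⟨c0, l * c1, h0, ?_, hc, by rw [hw, he]; ring⟩
      refine SU.mul ⟨by exact_mod_cast hl.ne_zero, fun t ht htl => ?_⟩ h1
      have : t ∣ l := by exact_mod_cast htl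
      rw [(Nat.prime_dvd_prime_iff_eq ht hl).mp this]
      exact hlS
    · push Not at hex
      refine ⟨u, 1, hu, SU.one S, ?_, by ring⟩
      have hu0 : u.natAbs ≠ 0 := Int.natAbs_ne_zero.mpr hu.1
      have h1 : u.natAbs ≤ M := by
        have hfac : ∏ l ∈ u.natAbs.primeFactors, l ^ u.natAbs.factorization l = u.natAbs :=
          Nat.prod_factorization_pow_eq_self hu0
        have hsub : u.natAbs.primeFactors ⊆ S.filter Nat.Prime := by
          intro l hl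
          rw [Finset.mem_filter]
          have hlp := Nat.prime_of_mem_primeFactors hl
          exact ⟨hu.2 l hlp (Int.natCast_dvd.mpr (Nat.dvd_of_mem_primeFactors hl)), hlp⟩
        calc u.natAbs = ∏ l ∈ u.natAbs.primeFactors, l ^ u.natAbs.factorization l := hfac.symm
          _ ≤ ∏ l ∈ u.natAbs.primeFactors, l ^ q := by
              apply Finset.prod_le_prod'
              intro l hl
              have hlp := Nat.prime_of_mem_primeFactors hl
              apply Nat.pow_le_pow_right hlp.pos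
              by_contra hlt
              push Not at hlt
              apply hex l hlp
              have h2 : l ^ q ∣ u.natAbs :=
                (pow_dvd_pow l hlt.le).trans (Nat.ordProj_dvd _ _)
              have h3 : ((l ^ q : ℕ) : ℤ) ∣ u := Int.natCast_dvd.mpr h2
              exact_mod_cast h3
          _ ≤ M := by
              rw [hM]
              apply Finset.prod_le_prod_of_subset_of_one_le' hsub
              intro l hl _
              exact Nat.one_le_pow _ _ (Finset.mem_filter.mp hl).2.pos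
      have h2 : ((u.natAbs : ℕ) : ℤ) = |u| := Int.natCast_natAbs u
      have h3 : ((u.natAbs : ℕ) : ℤ) ≤ (M : ℤ) := by exact_mod_cast h1
      omega

end Pool.Agent.FCat
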