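import Mathlib

/-!
# FCat / NF2  (MP_be1fae_nt, Theorem A): counting ideals of small norm

The set of ideals `I` of `𝓞 K` with `1 ≤ absNorm I ≤ N` is finite
(`Ideal.finite_setOf_absNorm_le`) and has at most `(N+1)^(d^2+1)` elements, `d = [K : ℚ]`.

PROOF.  (a) For each `n ≥ 1` the set of ideals of norm exactly `n` has at most `(n^d)^d` elements:
an ideal `I` of norm `n` is nonzero, hence a free `ℤ`-module of rank `d` (a submodule of a free
`ℤ`-module of finite rank; or: `Ideal.finrank_eq_finrank`, `Submodule.finrank_le`; only the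
existence of `d` generators is needed), so it has `ℤ`-generators `w_1, …, w_d`, and it contains `n`
(`Ideal.absNorm_mem`), hence contains `n 𝓞 K`.  Map `I` to the `d`-tuple of the classes of the `w_i`
in `𝓞 K / n 𝓞 K`, a ring with `n^d` elements (`Ideal.absNorm` of `span {n}` is
`|Norm n| = n^d`).  This map is injective: `I = span_ℤ (w_i) + n 𝓞 K` is determined by the classes.
So there are at most `(n^d)^d` such ideals.
(Equivalently: `I` is determined by its image in `𝓞 K / n`, a subgroup generated by `d` elements.)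
(b) Sum over `1 ≤ n ≤ N`: at most `Σ_{n=1}^N n^(d^2) ≤ N * N^(d^2) ≤ (N+1)^(d^2+1)`.
-/

open scoped nonZeroDivisors NumberField
open NumberField

namespace FCat

section aux

variable (K : Type*) [Field K] [NumberField K]

theorem nf2_card (n : ℕ) :
    Nat.card (𝓞 K ⧸ Ideal.span {(n : 𝓞 K)}) = n ^ (Module.finrank ℚ K) := by
  have h1 : Ideal.absNorm (Ideal.span {(n : 𝓞 K)}) = Nat.card (𝓞 K ⧸ Ideal.span {(n : 𝓞 K)}) := by
    rw [Ideal.absNorm_apply, Submodule.cardQuot_apply]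
  rw [← h1, Ideal.absNorm_span_singleton]
  have h2 : (n : 𝓞 K) = algebraMap ℤ (𝓞 K) (n : ℤ) := by simp
  rw [h2, Algebra.norm_algebraMap_of_basis (RingOfIntegers.basis K),
    ← Module.finrank_eq_card_chooseBasisIndex, RingOfIntegers.rank]
  simp [Int.natAbs_pow]

theorem nf2_ne {I : Ideal (𝓞 K)} {n : ℕ} (hn : n ≠ 0) (h : Ideal.absNorm I = n) : I ≠ ⊥ := by
  rintro rfl
  rw [Ideal.absNorm_bot] at h
  exact hn h.symm

open Classical in
/-- the generators modulo `n` -/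
noncomputable def nf2_map (n : ℕ) (I : Ideal (𝓞 K)) :
    Module.Free.ChooseBasisIndex ℤ (𝓞 K) → 𝓞 K ⧸ Ideal.span {(n : 𝓞 K)} := fun i =>
  if h : I ≠ ⊥ then Ideal.Quotient.mk _ ((Ideal.selfBasis (RingOfIntegers.basis K) I h i : I) : 𝓞 K)
    else 0

theorem nf2_le {n : ℕ} (hn : n ≠ 0) {I J : Ideal (𝓞 K)} (hI : Ideal.absNorm I = n)
    (hJ : Ideal.absNorm J = n) (h : nf2_map K n I = nf2_map K n J) : I ≤ J := by
  intro x hx
  have hI0 := nf2_ne K hn hI
  have hJ0 := nf2_ne K hn hJ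
  have hnJ : (n : 𝓞 K) ∈ J := by
    have := Ideal.absNorm_mem J
    rwa [hJ] at this
  have hsp : Ideal.span {(n : 𝓞 K)} ≤ J := by
    rw [Ideal.span_le, Set.singleton_subset_iff]
    exact hnJ
  have hw : ∀ i, ((Ideal.selfBasis (RingOfIntegers.basis K) I hI0 i : I) : 𝓞 K) ∈ J := by
    intro i
    have h1 := congrFun h i
    unfold nf2_map at h1
    rw [dif_pos hI0, dif_pos hJ0, Ideal.Quotient.eq] at h1
    have h2 := hsp h1
    have h3 := J.add_mem h2 (Ideal.selfBasis (RingOfIntegers.basis K) J hJ0 i).2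
    rwa [sub_add_cancel] at h3
  have h4 := (Ideal.selfBasis (RingOfIntegers.basis K) I hI0).sum_repr ⟨x, hx⟩
  have h5 := congrArg (fun y : I => (y : 𝓞 K)) h4
  simp only at h5
  rw [← h5, AddSubmonoidClass.coe_finsetSum]
  refine J.sum_mem fun i _ => ?_
  have h6 : (((Ideal.selfBasis (RingOfIntegers.basis K) I hI0).repr ⟨x, hx⟩ i •
      Ideal.selfBasis (RingOfIntegers.basis K) I hI0 i : I) : 𝓞 K) =
      (Ideal.selfBasis (RingOfIntegers.basis K) I hI0).repr ⟨x, hx⟩ i •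
      ((Ideal.selfBasis (RingOfIntegers.basis K) I hI0 i : I) : 𝓞 K) := rfl
  rw [h6, zsmul_eq_mul]
  exact J.mul_mem_left _ (hw i)

theorem nf2_one {n : ℕ} (hn : n ≠ 0) :
    {I : Ideal (𝓞 K) | Ideal.absNorm I = n}.ncard ≤ n ^ ((Module.finrank ℚ K) ^ 2) := by
  have hcard := nf2_card K n
  have hfin : Finite (𝓞 K ⧸ Ideal.span {(n : 𝓞 K)}) := by
    apply Nat.finite_of_card_ne_zero
    rw [hcard]
    exact pow_ne_zero _ hn
  have h1 : {I : Ideal (𝓞 K) | Ideal.absNorm I = n}.ncard ≤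
      (Set.univ : Set (Module.Free.ChooseBasisIndex ℤ (𝓞 K) →
        𝓞 K ⧸ Ideal.span {(n : 𝓞 K)})).ncard := by
    refine Set.ncard_le_ncard_of_injOn (nf2_map K n) (fun _ _ => Set.mem_univ _) ?_
      (Set.toFinite _)
    intro I hI J hJ h
    exact le_antisymm (nf2_le K hn hI hJ h) (nf2_le K hn hJ hI h.symm)
  refine h1.trans ?_
  rw [Set.ncard_univ, Nat.card_fun, hcard, Nat.card_eq_fintype_card,
    ← Module.finrank_eq_card_chooseBasisIndex, RingOfIntegers.rank, ← pow_mul, pow_two]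

end aux

theorem ideal_count (K : Type*) [Field K] [NumberField K] (N : ℕ) :
    {I : Ideal (𝓞 K) | 1 ≤ Ideal.absNorm I ∧ Ideal.absNorm I ≤ N}.Finite ∧
    {I : Ideal (𝓞 K) | 1 ≤ Ideal.absNorm I ∧ Ideal.absNorm I ≤ N}.ncard
      ≤ (N + 1) ^ ((Module.finrank ℚ K) ^ 2 + 1) := by
  have hfin : {I : Ideal (𝓞 K) | 1 ≤ Ideal.absNorm I ∧ Ideal.absNorm I ≤ N}.Finite :=
    (Ideal.finite_setOf_absNorm_le N).subset fun I hI => hI.2
  refine ⟨hfin, ?_⟩
  have h1 : {I : Ideal (𝓞 K) | 1 ≤ Ideal.absNorm I ∧ Ideal.absNorm I ≤ N} =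
      ⋃ n ∈ Finset.Icc 1 N, {I : Ideal (𝓞 K) | Ideal.absNorm I = n} := by
    ext I
    simp
  rw [h1]
  refine (Finset.set_ncard_biUnion_le _ _).trans ?_
  calc ∑ n ∈ Finset.Icc 1 N, {I : Ideal (𝓞 K) | Ideal.absNorm I = n}.ncard
      ≤ ∑ n ∈ Finset.Icc 1 N, (N + 1) ^ ((Module.finrank ℚ K) ^ 2) := by
        refine Finset.sum_le_sum fun n hn => ?_
        rw [Finset.mem_Icc] at hn
        refine (nf2_one K (by omega)).trans ?_
        exact Nat.pow_le_pow_left (by omega) _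
    _ = N * (N + 1) ^ ((Module.finrank ℚ K) ^ 2) := by
        rw [Finset.sum_const, Nat.card_Icc, smul_eq_mul, Nat.add_sub_cancel]
    _ ≤ (N + 1) ^ ((Module.finrank ℚ K) ^ 2 + 1) := by
        rw [pow_succ, mul_comm]
        exact Nat.mul_le_mul_left _ (by omega)

end FCat
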