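import Mathlib
import Pool.Agent.FCat.NF2

/-!
# FCat / NF1  (MP_be1fae_nt, Theorem A): a class number bound

`K` a number field of degree `d`, `b_i` (`i ∈ ι`, `|ι| = d`) algebraic integers of `K`, linearly
independent over `ℚ`, all conjugates of all `b_i` of absolute value at most `M` (a natural number
`≥ 1`).  Then the class number of `K` is at most `((d M)^d + 1)^(d^2 + 1)`.

PROOF.
(a) `exists_ideal_rep`: every class `c` contains a nonzero integral ideal `I` with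
`absNorm I ≤ (d M)^d`.
Choose a nonzero integral ideal `J` in the class `c⁻¹` (`ClassGroup.mk0_surjective`), and let
`n = absNorm J ≥ 1`.  Let `k` be the natural number with `k^d ≤ n < (k+1)^d`
(e.g. `k = Nat.nthRoot`, or `Nat.findGreatest (fun k => k^d ≤ n) n`; `d ≥ 1`; note `k ≥ 1`).
Consider the `(k+1)^d` elements `Σ_i n_i b_i` of `𝓞 K` with `n_i ∈ {0,…,k}` (functions
`ι → Fin (k+1)`).  As `(k+1)^d > n = #(𝓞 K / J)` (`Ideal.absNorm_apply`, `Submodule.cardQuot_apply`),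
two different functions `n, n'` give elements which are congruent modulo `J`
(`Fintype.exists_ne_map_eq_of_card_lt`, or the Nat.card / Finite version).  The difference
`α = Σ (n_i - n'_i) b_i ∈ J` is nonzero because the `b_i` are linearly independent over `ℚ` and
`n ≠ n'`.  Each conjugate of `α` has absolute value at most `Σ_i k M = d k M`, so
`|Norm α| = ∏_φ |φ α| ≤ (d k M)^d = (d M)^d k^d ≤ (d M)^d n`
(`Algebra.norm_eq_prod_embeddings` over `ℂ`, `card (K →+* ℂ) = d`; `Ideal.absNorm_span_singleton`).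
As `α ∈ J`, `J ∣ (α)`, so `(α) = J * I` with `I` a nonzero ideal of `𝓞 K`; `mk0 J * mk0 I = 1`, so
`mk0 I = (mk0 J)⁻¹ = c`; and `absNorm J * absNorm I = absNorm (α) ≤ (d M)^d n`, so
`absNorm I ≤ (d M)^d`.
(b) `class_number_le`: the map from the set of nonzero ideals of norm `≤ (d M)^d` to the class group
is onto by (a), and by `FCat.ideal_count` (file NF2) this set has at most `((d M)^d + 1)^(d^2+1)`
elements.
-/

open scoped nonZeroDivisors NumberField
open NumberField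

namespace FCat

theorem nf1_root (n d : ℕ) (hd : 1 ≤ d) : ∃ k : ℕ, k ^ d ≤ n ∧ n < (k + 1) ^ d := by
  refine ⟨Nat.findGreatest (fun k => k ^ d ≤ n) n, ?_, ?_⟩
  · exact Nat.findGreatest_spec (P := fun k => k ^ d ≤ n) (Nat.zero_le n)
      (by simp [Nat.pos_iff_ne_zero.mp hd])
  · by_contra h
    rw [not_lt] at h
    have h1 : Nat.findGreatest (fun k => k ^ d ≤ n) n + 1 ≤ n :=
      (Nat.le_self_pow (by omega) _).trans h
    exact Nat.findGreatest_is_greatest (P := fun k => k ^ d ≤ n) (Nat.lt_succ_self _) h1 h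

theorem nf1_norm {K : Type*} [Field K] [NumberField K] (α : 𝓞 K) (B : ℝ)
    (h : ∀ φ : K →+* ℂ, ‖φ (α : K)‖ ≤ B) :
    ((Ideal.absNorm (Ideal.span {α}) : ℕ) : ℝ) ≤ B ^ Module.finrank ℚ K := by
  rw [Ideal.absNorm_span_singleton]
  have h1 : (((Algebra.norm ℤ α).natAbs : ℕ) : ℝ) = ‖((Algebra.norm ℚ (α : K) : ℚ) : ℂ)‖ := by
    rw [← Algebra.coe_norm_int]
    simp [Nat.cast_natAbs]
  rw [h1]
  have h2 := Algebra.norm_eq_prod_embeddings ℚ ℂ (α : K)
  rw [eq_ratCast] at h2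
  rw [h2, norm_prod]
  have h3 : ∏ σ : K →ₐ[ℚ] ℂ, ‖σ (α : K)‖ ≤ ∏ _σ : K →ₐ[ℚ] ℂ, B :=
    Finset.prod_le_prod (fun _ _ => norm_nonneg _) (fun σ _ => h (σ : K →+* ℂ))
  refine h3.trans_eq ?_
  rw [Finset.prod_const, Finset.card_univ, AlgHom.card]

theorem exists_ideal_rep {K : Type*} [Field K] [NumberField K] {ι : Type} [Fintype ι]
    (b : ι → 𝓞 K) (hb : LinearIndependent ℚ (fun i => ((b i : 𝓞 K) : K)))
    (hcard : Fintype.card ι = Module.finrank ℚ K)
    (M : ℕ) (hM : 1 ≤ M) (hbM : ∀ i (φ : K →+* ℂ), ‖φ (b i : K)‖ ≤ M)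
    (c : ClassGroup (𝓞 K)) :
    ∃ I : (Ideal (𝓞 K))⁰, ClassGroup.mk0 I = c ∧
      Ideal.absNorm (I : Ideal (𝓞 K)) ≤ (Module.finrank ℚ K * M) ^ Module.finrank ℚ K := by
  classical
  obtain ⟨J, hJ⟩ := ClassGroup.mk0_surjective c⁻¹
  set d := Module.finrank ℚ K with hd
  have hd1 : 1 ≤ d := Module.finrank_pos
  set n := Ideal.absNorm (J : Ideal (𝓞 K)) with hn
  have hJ0 : (J : Ideal (𝓞 K)) ≠ ⊥ := nonZeroDivisors.coe_ne_zero J
  have hn0 : n ≠ 0 := fun h => hJ0 (Ideal.absNorm_eq_zero_iff.mp h)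
  obtain ⟨k, hk1, hk2⟩ := nf1_root n d hd1
  have hq : Nat.card (𝓞 K ⧸ (J : Ideal (𝓞 K))) = n := rfl
  have : Finite (𝓞 K ⧸ (J : Ideal (𝓞 K))) := Nat.finite_of_card_ne_zero (by rw [hq]; exact hn0)
  have : Fintype (𝓞 K ⧸ (J : Ideal (𝓞 K))) := Fintype.ofFinite _
  have hcardlt : Fintype.card (𝓞 K ⧸ (J : Ideal (𝓞 K))) < Fintype.card (ι → Fin (k + 1)) := by
    rw [← Nat.card_eq_fintype_card, hq, Fintype.card_fun, Fintype.card_fin, hcard]
    exact hk2
  obtain ⟨v, w, hvw, hf⟩ := Fintype.exists_ne_map_eq_of_card_lt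
    (fun v : ι → Fin (k + 1) => Ideal.Quotient.mk (J : Ideal (𝓞 K)) (∑ i, ((v i : ℕ) : 𝓞 K) * b i))
    hcardlt
  rw [Ideal.Quotient.eq] at hf
  set α := ∑ i, ((v i : ℕ) : 𝓞 K) * b i - ∑ i, ((w i : ℕ) : 𝓞 K) * b i with hα
  have hαK : (α : K) = ∑ i, (((v i : ℕ) : ℚ) - ((w i : ℕ) : ℚ)) • ((b i : 𝓞 K) : K) := by
    rw [hα]
    push_cast
    rw [← Finset.sum_sub_distrib]
    refine Finset.sum_congr rfl fun i _ => ?_
    rw [Algebra.smul_def, ← sub_mul]
    simp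
  have hα0 : α ≠ 0 := by
    intro h0
    rw [h0] at hαK
    have h1 := Fintype.linearIndependent_iff.mp hb
      (fun i => ((v i : ℕ) : ℚ) - ((w i : ℕ) : ℚ)) (by rw [← hαK]; simp)
    apply hvw
    funext i
    have h2 := h1 i
    have h3 : ((v i : ℕ) : ℚ) = ((w i : ℕ) : ℚ) := by linarith
    exact Fin.ext (by exact_mod_cast h3)
  have hφ : ∀ φ : K →+* ℂ, ‖φ (α : K)‖ ≤ (d : ℝ) * (k * M) := by
    intro φ
    rw [hαK, map_sum]
    refine (norm_sum_le _ _).trans ?_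
    have h1 : ∀ i ∈ (Finset.univ : Finset ι),
        ‖φ ((((v i : ℕ) : ℚ) - ((w i : ℕ) : ℚ)) • ((b i : 𝓞 K) : K))‖ ≤ (k : ℝ) * M := by
      intro i _
      rw [Algebra.smul_def, map_mul, norm_mul]
      refine mul_le_mul ?_ (hbM i φ) (norm_nonneg _) (Nat.cast_nonneg k)
      have h2 : φ ((algebraMap ℚ K) (((v i : ℕ) : ℚ) - ((w i : ℕ) : ℚ)))
          = (((((v i : ℕ) : ℝ) - ((w i : ℕ) : ℝ)) : ℝ) : ℂ) := by
        simp
      rw [h2, Complex.norm_real, Real.norm_eq_abs, abs_le]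
      have hv : ((v i : ℕ) : ℝ) ≤ k := by exact_mod_cast Nat.lt_succ_iff.mp (v i).isLt
      have hw : ((w i : ℕ) : ℝ) ≤ k := by exact_mod_cast Nat.lt_succ_iff.mp (w i).isLt
      have hv0 : (0 : ℝ) ≤ ((v i : ℕ) : ℝ) := Nat.cast_nonneg _
      have hw0 : (0 : ℝ) ≤ ((w i : ℕ) : ℝ) := Nat.cast_nonneg _
      constructor <;> linarith
    refine (Finset.sum_le_sum h1).trans_eq ?_
    rw [Finset.sum_const, Finset.card_univ, hcard, nsmul_eq_mul]
  have hnorm := nf1_norm α _ hφ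
  have hdvd : (J : Ideal (𝓞 K)) ∣ Ideal.span {α} := Ideal.dvd_span_singleton.mpr hf
  obtain ⟨I, hI⟩ := hdvd
  have hI0 : I ≠ 0 := by
    rintro rfl
    rw [mul_zero] at hI
    exact hα0 (Ideal.span_singleton_eq_bot.mp hI)
  refine ⟨⟨I, mem_nonZeroDivisors_of_ne_zero hI0⟩, ?_, ?_⟩
  · have h1 : ClassGroup.mk0 J * ClassGroup.mk0 ⟨I, mem_nonZeroDivisors_of_ne_zero hI0⟩ = 1 := by
      rw [← map_mul]
      have h2 : J * ⟨I, mem_nonZeroDivisors_of_ne_zero hI0⟩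
          = (⟨Ideal.span {α}, mem_nonZeroDivisors_of_ne_zero
            (fun h => hα0 (Ideal.span_singleton_eq_bot.mp h))⟩ : (Ideal (𝓞 K))⁰) := by
        apply Subtype.ext
        exact hI.symm
      rw [h2, ClassGroup.mk0_eq_one_iff]
      exact ⟨α, rfl⟩
    rw [hJ] at h1
    exact (inv_mul_eq_one.mp h1).symm
  · have h2 : Ideal.absNorm (Ideal.span {α}) = n * Ideal.absNorm I := by
      rw [hI, map_mul]
    rw [h2] at hnorm
    have h3 : ((n * Ideal.absNorm I : ℕ) : ℝ) ≤ ((n * (d * M) ^ d : ℕ) : ℝ) := by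
      refine hnorm.trans ?_
      push_cast
      have h4 : ((d : ℝ) * (k * M)) ^ d = (k : ℝ) ^ d * ((d : ℝ) * M) ^ d := by
        rw [← mul_pow]
        ring
      rw [h4]
      have h5 : (k : ℝ) ^ d ≤ n := by exact_mod_cast hk1
      exact mul_le_mul_of_nonneg_right h5 (by positivity)
    have h4 : n * Ideal.absNorm I ≤ n * (d * M) ^ d := by exact_mod_cast h3
    exact Nat.le_of_mul_le_mul_left h4 (Nat.pos_of_ne_zero hn0)

theorem class_number_le {K : Type*} [Field K] [NumberField K] {ι : Type} [Fintype ι]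
    (b : ι → 𝓞 K) (hb : LinearIndependent ℚ (fun i => ((b i : 𝓞 K) : K)))
    (hcard : Fintype.card ι = Module.finrank ℚ K)
    (M : ℕ) (hM : 1 ≤ M) (hbM : ∀ i (φ : K →+* ℂ), ‖φ (b i : K)‖ ≤ M) :
    NumberField.classNumber K ≤
      ((Module.finrank ℚ K * M) ^ Module.finrank ℚ K + 1) ^ ((Module.finrank ℚ K) ^ 2 + 1) := by
  classical
  obtain ⟨hfin, hcnt⟩ := ideal_count K ((Module.finrank ℚ K * M) ^ Module.finrank ℚ K)
  refine le_trans ?_ hcnt
  set S := {I : Ideal (𝓞 K) | 1 ≤ Ideal.absNorm I ∧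
    Ideal.absNorm I ≤ (Module.finrank ℚ K * M) ^ Module.finrank ℚ K} with hS
  have : Finite S := hfin
  have hne : ∀ I : S, (I : Ideal (𝓞 K)) ≠ 0 := by
    rintro ⟨I, hI⟩ h0
    simp only at h0
    rw [hS, Set.mem_ofPred_eq, h0] at hI
    simp at hI
  let g : S → ClassGroup (𝓞 K) := fun I => ClassGroup.mk0 ⟨I, mem_nonZeroDivisors_of_ne_zero (hne I)⟩
  have hg : Function.Surjective g := by
    intro c
    obtain ⟨I, h1, h2⟩ := exists_ideal_rep b hb hcard M hM hbM c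
    have h3 : 1 ≤ Ideal.absNorm (I : Ideal (𝓞 K)) :=
      Nat.one_le_iff_ne_zero.mpr fun h => nonZeroDivisors.coe_ne_zero I (Ideal.absNorm_eq_zero_iff.mp h)
    exact ⟨⟨I, h3, h2⟩, h1⟩
  have h1 := Nat.card_le_card_of_surjective g hg
  rw [NumberField.classNumber, ← Nat.card_eq_fintype_card]
  refine h1.trans_eq ?_
  rw [Nat.card_coe_set_eq]

end FCat
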