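import Mathlib
import Pool.Agent.FCat.NF1

/-!
# FCat / NF10  (MP_be1fae_nt, Theorem A): the base field `ℚ(ζ_q, m^(1/q))`

For every `q ≥ 1` there is `C` such that for every integer `m ≠ 0` there is a number field
`K ⊂ ℂ` of degree at most `C`, containing a primitive `q`-th root of unity and an element `θ` with
`θ^q = m`, whose class number is at most `(C |m|)^C`.

PROOF.  Let `ζ = exp (2πi/q)` (`Complex.isPrimitiveRoot_exp`), `θ ∈ ℂ` with `θ^q = m`
(`IsAlgClosed.exists_pow_nat_eq`), `K = ℚ(ζ, θ)`, an intermediate field of `ℂ/ℚ`, finite over `ℚ`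
because `ζ, θ` are algebraic (integral).  `K` is the `ℚ`-span of the elements `ζ^a θ^b`,
`0 ≤ a, b < q`: the span `V` of these `q^2` elements contains `1` and is closed under
multiplication (`ζ^q = 1`, `θ^q = m`; `Submodule.span_mul_span` or a direct check on generators),
so it is the subalgebra `ℚ[ζ, θ]`, which is a field as `ζ, θ` are algebraic
(`IntermediateField.adjoin_toSubalgebra_of_integral`/`..._of_isAlgebraic`...).
So `d = [K : ℚ] ≤ q^2`, and one can choose a subset `ι` of `{0..q-1}^2` such that the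
`ζ^a θ^b`, `(a,b) ∈ ι`, form a basis of `K` over `ℚ` (`exists_linearIndependent` /
`Basis.ofSpan`, `Module.Basis.extend`; the index type must be put in `Type` with a `Fintype`
instance; `|ι| = d`).  These elements are algebraic integers, and for every
`φ : K →+* ℂ`, `|φ ζ| = 1` (`φ(ζ)^q = 1`) and `|φ θ|^q = |m|`, so
`|φ (ζ^a θ^b)| = |φ θ|^b ≤ max(1, |φ θ|)^q ≤ |m|` (`|m| ≥ 1`, `b ≤ q`).  By
`FCat.class_number_le` (file NF1) with `M = |m|` the class number is at most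
`((d|m|)^d + 1)^(d^2+1) ≤ ((2 q^2 |m|)^(q^2))^(q^4+1)` (use `(x)^d + 1 ≤ (2x)^d` for `x ≥ 1`,
`d ≥ 1`), so `C = 2 q^2 * (q^4+1)` (or any larger number) will do.
-/

open scoped nonZeroDivisors NumberField
open NumberField

namespace FCat

/-- The monomials `ζ^a θ^b`, `a, b < q`, span `ℚ[ζ, θ]`. -/
theorem nf10_span {ζ θ : ℂ} {q : ℕ} (hq : 1 ≤ q) {m : ℤ} (hζ : ζ ^ q = 1) (hθ : θ ^ q = (m : ℂ)) :
    (Algebra.adjoin ℚ {ζ, θ} : Subalgebra ℚ ℂ).toSubmodule ≤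
      Submodule.span ℚ (Set.range fun p : Fin q × Fin q => ζ ^ (p.1 : ℕ) * θ ^ (p.2 : ℕ)) := by
  set V := Submodule.span ℚ (Set.range fun p : Fin q × Fin q => ζ ^ (p.1 : ℕ) * θ ^ (p.2 : ℕ))
    with hV
  have key : ∀ a b : ℕ, ζ ^ a * θ ^ b ∈ V := by
    intro a b
    have h1 : ζ ^ a = ζ ^ (a % q) := by
      conv_lhs => rw [← Nat.div_add_mod a q]
      rw [pow_add, pow_mul, hζ, one_pow, one_mul]
    have h2 : θ ^ b = (m : ℂ) ^ (b / q) * θ ^ (b % q) := by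
      conv_lhs => rw [← Nat.div_add_mod b q]
      rw [pow_add, pow_mul, hθ]
    have h3 : ζ ^ a * θ ^ b = ((m : ℚ) ^ (b / q)) • (ζ ^ (a % q) * θ ^ (b % q)) := by
      rw [h1, h2, Algebra.smul_def]
      simp only [map_pow, map_intCast]
      ring
    rw [h3]
    apply V.smul_mem
    exact Submodule.subset_span ⟨(⟨a % q, Nat.mod_lt _ hq⟩, ⟨b % q, Nat.mod_lt _ hq⟩), rfl⟩
  have hmul : V * V ≤ V := by
    conv_lhs => rw [hV]
    rw [Submodule.span_mul_span, Submodule.span_le]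
    rintro _ ⟨_, ⟨p, rfl⟩, _, ⟨p', rfl⟩, rfl⟩
    have h1 : (ζ ^ (p.1 : ℕ) * θ ^ (p.2 : ℕ)) * (ζ ^ (p'.1 : ℕ) * θ ^ (p'.2 : ℕ)) =
        ζ ^ ((p.1 : ℕ) + p'.1) * θ ^ ((p.2 : ℕ) + p'.2) := by
      rw [pow_add, pow_add]
      ring
    show (ζ ^ (p.1 : ℕ) * θ ^ (p.2 : ℕ)) * (ζ ^ (p'.1 : ℕ) * θ ^ (p'.2 : ℕ)) ∈ V
    rw [h1]
    exact key _ _
  intro x hx
  rw [Subalgebra.mem_toSubmodule] at hx
  induction hx using Algebra.adjoin_induction with
  | mem x hx =>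
    rcases hx with rfl | hx
    · have := key 1 0
      rwa [pow_one, pow_zero, mul_one] at this
    · rw [Set.mem_singleton_iff] at hx
      subst hx
      have := key 0 1
      rwa [pow_one, pow_zero, one_mul] at this
  | algebraMap r =>
    have h1 := key 0 0
    rw [pow_zero, pow_zero, mul_one] at h1
    rw [Algebra.algebraMap_eq_smul_one]
    exact V.smul_mem _ h1
  | add x y _ _ hx hy => exact V.add_mem hx hy
  | mul x y _ _ hx hy => exact hmul (Submodule.mul_mem_mul hx hy)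

theorem nf10_arith {q d M : ℕ} (hq : 1 ≤ q) (hM : 1 ≤ M) (hdq : d ≤ q ^ 2) :
    ((d * M) ^ d + 1) ^ (d ^ 2 + 1) ≤
      ((2 * q ^ 2 * (q ^ 4 + 1)) * M) ^ (2 * q ^ 2 * (q ^ 4 + 1)) := by
  have hq2 : 1 ≤ q ^ 2 := Nat.one_le_pow _ _ hq
  have hd2 : d ^ 2 + 1 ≤ q ^ 4 + 1 := by
    have : d ^ 2 ≤ (q ^ 2) ^ 2 := Nat.pow_le_pow_left hdq 2
    have h4 : (q ^ 2) ^ 2 = q ^ 4 := by ring
    omega
  have h1 : (d * M) ^ d + 1 ≤ (2 * q ^ 2 * M) ^ (q ^ 2) := by
    have h2 : 1 ≤ q ^ 2 * M := Nat.mul_le_mul hq2 hM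
    have h3 : (d * M) ^ d ≤ (q ^ 2 * M) ^ (q ^ 2) :=
      (Nat.pow_le_pow_left (Nat.mul_le_mul_right M hdq) d).trans (Nat.pow_le_pow_right h2 hdq)
    have h4 : 1 ≤ (q ^ 2 * M) ^ (q ^ 2) := Nat.one_le_pow _ _ h2
    calc (d * M) ^ d + 1 ≤ 2 * (q ^ 2 * M) ^ (q ^ 2) := by omega
      _ ≤ 2 ^ (q ^ 2) * (q ^ 2 * M) ^ (q ^ 2) := by
          apply Nat.mul_le_mul_right
          calc 2 = 2 ^ 1 := rfl
            _ ≤ 2 ^ (q ^ 2) := Nat.pow_le_pow_right (by norm_num) hq2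
      _ = (2 * q ^ 2 * M) ^ (q ^ 2) := by rw [← mul_pow, mul_assoc]
  have h5 : 1 ≤ 2 * q ^ 2 * M := by
    have : 1 ≤ q ^ 2 * M := Nat.mul_le_mul hq2 hM
    nlinarith
  have h6 : 1 ≤ q ^ 4 + 1 := by omega
  calc ((d * M) ^ d + 1) ^ (d ^ 2 + 1) ≤ ((2 * q ^ 2 * M) ^ (q ^ 2)) ^ (d ^ 2 + 1) :=
        Nat.pow_le_pow_left h1 _
    _ ≤ ((2 * q ^ 2 * M) ^ (q ^ 2)) ^ (q ^ 4 + 1) :=
        Nat.pow_le_pow_right (Nat.one_le_pow _ _ h5) hd2
    _ = (2 * q ^ 2 * M) ^ (q ^ 2 * (q ^ 4 + 1)) := by rw [← pow_mul]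
    _ ≤ (2 * q ^ 2 * M) ^ (2 * q ^ 2 * (q ^ 4 + 1)) := by
        apply Nat.pow_le_pow_right h5
        nlinarith [Nat.zero_le (q ^ 2 * (q ^ 4 + 1))]
    _ ≤ ((2 * q ^ 2 * (q ^ 4 + 1)) * M) ^ (2 * q ^ 2 * (q ^ 4 + 1)) := by
        apply Nat.pow_le_pow_left
        calc 2 * q ^ 2 * M = 2 * q ^ 2 * 1 * M := by ring
          _ ≤ 2 * q ^ 2 * (q ^ 4 + 1) * M :=
            Nat.mul_le_mul_right M (Nat.mul_le_mul_left _ h6)

theorem base_field (q : ℕ) (hq : 1 ≤ q) :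
    ∃ C : ℕ, ∀ m : ℤ, m ≠ 0 → ∃ K : IntermediateField ℚ ℂ, ∃ _ : NumberField K,
      Module.finrank ℚ K ≤ C ∧
      (∃ ζ : K, IsPrimitiveRoot ζ q) ∧ (∃ θ : K, θ ^ q = (m : K)) ∧
      NumberField.classNumber K ≤ (C * m.natAbs) ^ C := by
  refine ⟨2 * q ^ 2 * (q ^ 4 + 1), fun m hm => ?_⟩
  set ζ : ℂ := Complex.exp (2 * Real.pi * Complex.I / q) with hζdef
  have hprim : IsPrimitiveRoot ζ q := Complex.isPrimitiveRoot_exp q (by omega)
  obtain ⟨θ, hθ⟩ := IsAlgClosed.exists_pow_nat_eq (m : ℂ) (show 0 < q by omega)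
  have hζ : ζ ^ q = 1 := hprim.pow_eq_one
  have hq0 : q ≠ 0 := by omega
  have hζint : IsIntegral ℤ ζ := by
    refine ⟨Polynomial.X ^ q - Polynomial.C 1, Polynomial.monic_X_pow_sub_C 1 hq0, ?_⟩
    simp [hζ]
  have hθint : IsIntegral ℤ θ := by
    apply IsIntegral.of_pow (show 0 < q by omega)
    rw [hθ]
    exact isIntegral_algebraMap (R := ℤ) (x := m)
  have hζQ : IsIntegral ℚ ζ := hζint.tower_top
  have hθQ : IsIntegral ℚ θ := hθint.tower_top
  set K : IntermediateField ℚ ℂ := IntermediateField.adjoin ℚ {ζ, θ} with hK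
  have hfin : FiniteDimensional ℚ K := IntermediateField.finiteDimensional_adjoin (by
    rintro x (rfl | hx)
    · exact hζQ
    · rw [Set.mem_singleton_iff] at hx
      subst hx
      exact hθQ)
  have hNF : NumberField K := ⟨⟩
  have hζK : ζ ∈ K := IntermediateField.subset_adjoin ℚ _ (Set.mem_insert _ _)
  have hθK : θ ∈ K := IntermediateField.subset_adjoin ℚ _ (Set.mem_insert_of_mem _ rfl)
  set z : K := ⟨ζ, hζK⟩ with hz
  set t : K := ⟨θ, hθK⟩ with ht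
  have hzq : z ^ q = 1 := Subtype.ext hζ
  have htq : t ^ q = (m : K) := by
    apply Subtype.ext
    show θ ^ q = ((m : K) : ℂ)
    rw [hθ]
    push_cast
    rfl
  -- spanning
  set e : Fin q × Fin q → K := fun p => z ^ (p.1 : ℕ) * t ^ (p.2 : ℕ) with he
  have hspan : Submodule.span ℚ (Set.range e) = ⊤ := by
    rw [eq_top_iff]
    intro x _
    have hx1 : (x : ℂ) ∈ (Algebra.adjoin ℚ {ζ, θ} : Subalgebra ℚ ℂ).toSubmodule := by
      have h1 : K.toSubalgebra = Algebra.adjoin ℚ {ζ, θ} :=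
        IntermediateField.adjoin_toSubalgebra_of_isAlgebraic (by
          rintro x (rfl | hx)
          · exact hζQ.isAlgebraic
          · rw [Set.mem_singleton_iff] at hx
            subst hx
            exact hθQ.isAlgebraic)
      rw [Subalgebra.mem_toSubmodule, ← h1]
      exact x.2
    have hx2 := nf10_span hq hζ hθ hx1
    have h2 : Submodule.span ℚ (Set.range fun p : Fin q × Fin q =>
        ζ ^ (p.1 : ℕ) * θ ^ (p.2 : ℕ)) =
        (Submodule.span ℚ (Set.range e)).map (K.val.toLinearMap) := by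
      rw [Submodule.map_span, ← Set.range_comp]
      rfl
    rw [h2] at hx2
    obtain ⟨y, hy, hyx⟩ := hx2
    have : y = x := Subtype.ext hyx
    rwa [this] at hy
  obtain ⟨b, hbs, hbspan, hbind⟩ := exists_linearIndependent ℚ (Set.range e)
  have hbfin : Finite b := (Set.finite_range e).subset hbs
  have : Fintype b := Fintype.ofFinite b
  have hbtop : Submodule.span ℚ b = ⊤ := by rw [hbspan, hspan]
  have hcard : Fintype.card b = Module.finrank ℚ K := by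
    have h1 : ⊤ ≤ Submodule.span ℚ (Set.range ((↑) : b → K)) := by
      rw [Subtype.range_coe, hbtop]
    exact (Module.finrank_eq_card_basis (Module.Basis.mk hbind h1)).symm
  have hdq : Module.finrank ℚ K ≤ q ^ 2 := by
    have h1 := finrank_range_le_card (R := ℚ) e
    rw [Set.finrank, hspan, finrank_top, Fintype.card_prod, Fintype.card_fin] at h1
    rw [sq]
    exact h1
  -- integers
  have hzint : IsIntegral ℤ z := by
    refine ⟨Polynomial.X ^ q - Polynomial.C 1, Polynomial.monic_X_pow_sub_C 1 hq0, ?_⟩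
    simp [hzq]
  have htint : IsIntegral ℤ t := by
    apply IsIntegral.of_pow (show 0 < q by omega)
    rw [htq]
    exact isIntegral_algebraMap (R := ℤ) (x := m)
  have hchoose : ∀ i : b, ∃ B : 𝓞 K, (B : K) = i.1 ∧ ∀ φ : K →+* ℂ, ‖φ (B : K)‖ ≤ m.natAbs := by
    intro i
    obtain ⟨p, hp⟩ := hbs i.2
    refine ⟨⟨z ^ (p.1 : ℕ) * t ^ (p.2 : ℕ), (hzint.pow _).mul (htint.pow _)⟩, hp, fun φ => ?_⟩
    show ‖φ (z ^ (p.1 : ℕ) * t ^ (p.2 : ℕ))‖ ≤ m.natAbs
    have hm1 : (1 : ℝ) ≤ m.natAbs := by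
      have : 1 ≤ m.natAbs := Nat.one_le_iff_ne_zero.2 (Int.natAbs_ne_zero.2 hm)
      exact_mod_cast this
    have hz1 : ‖φ z‖ = 1 := by
      apply Complex.norm_eq_one_of_pow_eq_one (n := q) _ hq0
      rw [← map_pow, hzq, map_one]
    have ht1 : ‖φ t‖ ^ q = m.natAbs := by
      rw [← norm_pow, ← map_pow, htq, map_intCast, Complex.norm_intCast, Nat.cast_natAbs,
        Int.cast_abs]
    rw [map_mul, map_pow, map_pow, norm_mul, norm_pow, norm_pow, hz1, one_pow, one_mul]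
    by_cases h1 : 1 ≤ ‖φ t‖
    · rw [← ht1]
      exact pow_le_pow_right₀ h1 p.2.2.le
    · push Not at h1
      exact (pow_le_one₀ (norm_nonneg _) h1.le).trans hm1
  choose B hB1 hB2 using hchoose
  have hlin : LinearIndependent ℚ (fun i : b => ((B i : 𝓞 K) : K)) := by
    have : (fun i : b => ((B i : 𝓞 K) : K)) = fun i : b => (i : K) := funext hB1
    rw [this]
    exact hbind
  have hcl := class_number_le B hlin hcard m.natAbs
    (Nat.one_le_iff_ne_zero.2 (Int.natAbs_ne_zero.2 hm)) hB2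
  refine ⟨K, hNF, ?_, ⟨z, ?_⟩, ⟨t, htq⟩, ?_⟩
  · refine hdq.trans ?_
    nlinarith [Nat.zero_le (q ^ 2 * q ^ 4), Nat.zero_le (q ^ 2)]
  · exact IsPrimitiveRoot.of_map_of_injective (f := K.val) hprim K.val.injective
  · exact hcl.trans (nf10_arith hq (Nat.one_le_iff_ne_zero.2 (Int.natAbs_ne_zero.2 hm)) hdq)

end FCat
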