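import Mathlib

/-!
# FCat / NF11  (MP_be1fae_nt, Theorem A): the exponents of the factors `y - ζ^i θ v`

`K` a number field, `ζ ∈ K` a primitive `q`-th root of unity, `θ ∈ K` with `θ^q = m`, integers
`y, m, v, A, x`, all of `m, v, A, x` nonzero and `y^q - m v^q = A x^p`.  Then for every `i < q`
the element `a_i = y - ζ^i θ v` is a nonzero algebraic integer, and `p` divides the exponent of `P`
in the factorization of `(a_i)` for every nonzero prime ideal `P` of `𝓞 K` with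
`N = |q m v A| ∉ P`.

PROOF.  `ζ, θ` are integral (roots of `X^q - 1`, `X^q - m`, `q ≥ 1`); write `Z, T ∈ 𝓞 K` for them.
`∏_{i<q} (Y - Z^i T v) = Y^q - (T v)^q = y^q - m v^q = A x^p` in `𝓞 K`
(`IsPrimitiveRoot.pow_sub_pow_eq_prod_sub_mul` and the bijection between `nthRootsFinset` and the
powers of `ζ`; or work with the polynomial `X^q - 1 = ∏ (X - ζ^i)`).  This is nonzero so every
`a_i ≠ 0`.  Let `P` be a nonzero prime ideal with `q m v A ∉ P`; so none of `q, m, v, A` is in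
`P`.  Then `T ∉ P` (as `T^q = m`) and `Z^i - Z^j ∉ P` for `i ≠ j` in `{0..q-1}`: the product
`∏_{k=1}^{q-1} (1 - Z^k) = q` (`IsPrimitiveRoot...`, evaluate `(X^q-1)/(X-1)` at 1;
Mathlib: `IsPrimitiveRoot.prod_one_sub_pow_eq_order` or similar) so `1 - Z^k` divides `q` and
`Z^i - Z^j = Z^i (1 - Z^(j-i))` with `Z` a unit.
Suppose `a_i ∈ P` and `a_j ∈ P` with `i ≠ j`: then `a_j - a_i = (Z^i - Z^j) T v ∈ P`, impossible.
So at most one factor lies in `P`.  Write `v_P(b) = Multiset.count P (normalizedFactors (span{b}))`,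
additive in `b ≠ 0` (`normalizedFactors_mul`, `Ideal.span_singleton_mul_span_singleton`), and `0`
iff `b ∉ P`.  If `a_i ∉ P`, then `v_P(a_i) = 0`.  If `a_i ∈ P` then all other factors have
`v_P = 0` and `v_P(a_i) = v_P(A x^p) = v_P(A) + p v_P(x) = p v_P(x)`.
-/

open scoped nonZeroDivisors NumberField
open NumberField UniqueFactorizationMonoid

namespace FCat

/-- The product of the factors. -/
theorem nf11_prod {R : Type*} [CommRing R] [IsDomain R] {q : ℕ} (hq : 1 ≤ q) {Z : R}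
    (hZ : IsPrimitiveRoot Z q) (a b : R) :
    ∏ i ∈ Finset.range q, (a - Z ^ i * b) = a ^ q - b ^ q := by
  rw [IsPrimitiveRoot.pow_sub_pow_eq_prod_sub_mul a b (by omega) hZ]
  refine Finset.prod_bij (fun i _ => Z ^ i) ?_ ?_ ?_ ?_
  · intro i _
    rw [Polynomial.mem_nthRootsFinset (by omega), ← pow_mul, mul_comm, pow_mul, hZ.pow_eq_one,
      one_pow]
  · intro i hi j hj hij
    exact hZ.pow_inj (Finset.mem_range.mp hi) (Finset.mem_range.mp hj) hij
  · intro z hz
    rw [Polynomial.mem_nthRootsFinset (by omega)] at hz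
    have : NeZero q := ⟨by omega⟩
    obtain ⟨i, hi, rfl⟩ := hZ.eq_pow_of_pow_eq_one hz
    exact ⟨i, Finset.mem_range.mpr hi, rfl⟩
  · intro i _
    rfl

/-- `1 - Z ^ k` divides `q`. -/
theorem nf11_dvd {R : Type*} [CommRing R] [IsDomain R] {q : ℕ} {Z : R}
    (hZ : IsPrimitiveRoot Z q) {k : ℕ} (hk : 1 ≤ k) (hkq : k < q) : 1 - Z ^ k ∣ (q : R) := by
  obtain ⟨n, rfl⟩ : ∃ n, q = n + 1 := ⟨q - 1, by omega⟩
  have h := hZ.prod_one_sub_pow_eq_order
  have h2 : 1 - Z ^ ((k - 1) + 1) ∣ ∏ j ∈ Finset.range n, (1 - Z ^ (j + 1)) :=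
    Finset.dvd_prod_of_mem (fun j => 1 - Z ^ (j + 1)) (Finset.mem_range.mpr (by omega))
  rw [h] at h2
  rw [show k - 1 + 1 = k by omega] at h2
  push_cast
  exact h2

/-- differences of powers divide `q` -/
theorem nf11_sub {R : Type*} [CommRing R] [IsDomain R] {q : ℕ} {Z : R}
    (hZ : IsPrimitiveRoot Z q) {i j : ℕ} (hi : i < q) (hj : j < q) (hij : i ≠ j) (P : Ideal R)
    (hP : P.IsPrime) (hq : (q : R) ∉ P) : Z ^ i - Z ^ j ∉ P := by
  have key : ∀ i j : ℕ, i < q → j < q → i < j → Z ^ i - Z ^ j ∉ P := by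
    intro i j hi hj hij hmem
    have h1 : Z ^ i - Z ^ j = Z ^ i * (1 - Z ^ (j - i)) := by
      rw [mul_sub, mul_one, ← pow_add]
      congr 2
      omega
    rw [h1] at hmem
    rcases hP.mem_or_mem hmem with h2 | h2
    · have h3 : Z ∈ P := hP.mem_of_pow_mem _ h2
      have h4 : Z ^ q ∈ P := P.pow_mem_of_mem h3 q (by omega)
      rw [hZ.pow_eq_one] at h4
      exact hP.ne_top ((Ideal.eq_top_iff_one P).mpr h4)
    · have h3 := nf11_dvd hZ (k := j - i) (by omega) (by omega)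
      exact hq (P.mem_of_dvd h3 h2)
  rcases lt_or_gt_of_ne hij with h | h
  · exact key i j hi hj h
  · intro hmem
    have h2 := P.neg_mem hmem
    rw [neg_sub] at h2
    exact key j i hj hi h h2

section val

variable {R : Type*} [CommRing R] [IsDedekindDomain R]

open Classical in
/-- The exponent of `P` in `(b)`. -/
noncomputable def nf11v (P : Ideal R) (b : R) : ℕ :=
  Multiset.count P (normalizedFactors (Ideal.span {b}))

theorem nf11v_mul (P : Ideal R) {b c : R} (hb : b ≠ 0) (hc : c ≠ 0) :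
    nf11v P (b * c) = nf11v P b + nf11v P c := by
  classical
  have hb' : Ideal.span {b} ≠ 0 := by
    intro h
    exact hb (Ideal.span_singleton_eq_bot.mp h)
  have hc' : Ideal.span {c} ≠ 0 := by
    intro h
    exact hc (Ideal.span_singleton_eq_bot.mp h)
  simp only [nf11v]
  rw [← Ideal.span_singleton_mul_span_singleton, normalizedFactors_mul hb' hc',
    Multiset.count_add]

theorem nf11v_one (P : Ideal R) : nf11v P (1 : R) = 0 := by
  classical
  simp only [nf11v]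
  rw [Ideal.span_singleton_one, ← Ideal.one_eq_top, normalizedFactors_one, Multiset.count_zero]

theorem nf11v_pow (P : Ideal R) {b : R} (hb : b ≠ 0) (n : ℕ) :
    nf11v P (b ^ n) = n * nf11v P b := by
  induction n with
  | zero => rw [pow_zero, nf11v_one, zero_mul]
  | succ n ih => rw [pow_succ, nf11v_mul P (pow_ne_zero _ hb) hb, ih, Nat.succ_mul]

theorem nf11v_prod (P : Ideal R) {ι : Type*} (s : Finset ι) (f : ι → R) (hf : ∀ i ∈ s, f i ≠ 0) :
    nf11v P (∏ i ∈ s, f i) = ∑ i ∈ s, nf11v P (f i) := by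
  classical
  induction s using Finset.induction_on with
  | empty => rw [Finset.prod_empty, Finset.sum_empty, nf11v_one]
  | insert a s ha ih =>
    rw [Finset.prod_insert ha, Finset.sum_insert ha, nf11v_mul P
      (hf a (Finset.mem_insert_self a s))
      (Finset.prod_ne_zero_iff.mpr fun i hi => hf i (Finset.mem_insert_of_mem hi)),
      ih fun i hi => hf i (Finset.mem_insert_of_mem hi)]

theorem nf11v_zero {P : Ideal R} {b : R} (hb : b ∉ P) : nf11v P b = 0 := by
  classical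
  simp only [nf11v]
  rw [Multiset.count_eq_zero]
  intro h
  have h1 := dvd_of_mem_normalizedFactors h
  exact hb ((Ideal.span_singleton_le_iff_mem P).mp (Ideal.le_of_dvd h1))

end val

open Classical in
theorem val_dvd (K : Type*) [Field K] [NumberField K] (p q : ℕ) (hp : 1 ≤ p) (hq : 1 ≤ q)
    (Z T : 𝓞 K) (hZ : IsPrimitiveRoot Z q) (y m v A x : ℤ) (hT : T ^ q = (m : 𝓞 K))
    (hm : m ≠ 0) (hv : v ≠ 0) (hA : A ≠ 0) (hx : x ≠ 0)
    (h : y ^ q - m * v ^ q = A * x ^ p) (i : ℕ) (hi : i < q) :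
    (y : 𝓞 K) - Z ^ i * T * (v : 𝓞 K) ≠ 0 ∧
    ∀ P : Ideal (𝓞 K), P.IsPrime → P ≠ ⊥ →
      (((q * m * v * A : ℤ).natAbs : ℕ) : 𝓞 K) ∉ P →
      p ∣ Multiset.count P
        (normalizedFactors (Ideal.span {(y : 𝓞 K) - Z ^ i * T * (v : 𝓞 K)})) := by
  have hprod : ∏ j ∈ Finset.range q, ((y : 𝓞 K) - Z ^ j * T * (v : 𝓞 K)) =
      (A : 𝓞 K) * (x : 𝓞 K) ^ p := by
    have h1 := nf11_prod hq hZ (y : 𝓞 K) (T * (v : 𝓞 K))
    simp only [← mul_assoc] at h1
    rw [h1, mul_pow, hT]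
    exact_mod_cast h
  have hA0 : (A : 𝓞 K) ≠ 0 := by exact_mod_cast hA
  have hx0 : (x : 𝓞 K) ≠ 0 := by exact_mod_cast hx
  have hne : ∏ j ∈ Finset.range q, ((y : 𝓞 K) - Z ^ j * T * (v : 𝓞 K)) ≠ 0 := by
    rw [hprod]
    exact mul_ne_zero hA0 (pow_ne_zero _ hx0)
  have hne' : ∀ j ∈ Finset.range q, (y : 𝓞 K) - Z ^ j * T * (v : 𝓞 K) ≠ 0 :=
    Finset.prod_ne_zero_iff.mp hne
  refine ⟨hne' i (Finset.mem_range.mpr hi), ?_⟩
  intro P hP _ hN
  change p ∣ nf11v P _
  have hN' : ((q * m * v * A : ℤ) : 𝓞 K) ∉ P := by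
    intro hmem
    apply hN
    generalize (q * m * v * A : ℤ) = n at hmem
    rcases Int.natAbs_eq n with h1 | h1
    · rw [h1, Int.cast_natCast] at hmem
      exact hmem
    · rw [h1, Int.cast_neg, Int.cast_natCast] at hmem
      have h2 := P.neg_mem hmem
      rw [neg_neg] at h2
      exact h2
  push_cast at hN'
  have hAP : (A : 𝓞 K) ∉ P := fun h1 => hN' (P.mul_mem_left _ h1)
  have hvP : (v : 𝓞 K) ∉ P := fun h1 => hN' (P.mul_mem_right _ (P.mul_mem_left _ h1))
  have hmP : (m : 𝓞 K) ∉ P := fun h1 =>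
    hN' (P.mul_mem_right _ (P.mul_mem_right _ (P.mul_mem_left _ h1)))
  have hqP : (q : 𝓞 K) ∉ P := fun h1 =>
    hN' (P.mul_mem_right _ (P.mul_mem_right _ (P.mul_mem_right _ h1)))
  have hTP : T ∉ P := by
    intro h1
    apply hmP
    rw [← hT]
    exact P.pow_mem_of_mem h1 q (by omega)
  by_cases hmem : (y : 𝓞 K) - Z ^ i * T * (v : 𝓞 K) ∈ P
  · have hoth : ∀ j ∈ Finset.range q, j ≠ i → (y : 𝓞 K) - Z ^ j * T * (v : 𝓞 K) ∉ P := by
      intro j hj hji hmem'
      have h1 := P.sub_mem hmem hmem'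
      have h2 : ((y : 𝓞 K) - Z ^ i * T * (v : 𝓞 K)) - ((y : 𝓞 K) - Z ^ j * T * (v : 𝓞 K)) =
          (Z ^ j - Z ^ i) * T * (v : 𝓞 K) := by ring
      rw [h2] at h1
      rcases hP.mem_or_mem h1 with h3 | h3
      · rcases hP.mem_or_mem h3 with h4 | h4
        · exact nf11_sub hZ (Finset.mem_range.mp hj) hi hji P hP hqP h4
        · exact hTP h4
      · exact hvP h3
    have h1 := nf11v_prod P (Finset.range q) (fun j => (y : 𝓞 K) - Z ^ j * T * (v : 𝓞 K)) hne'
    rw [Finset.sum_eq_single i (fun j hj hji => nf11v_zero (hoth j hj hji))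
      (fun h2 => absurd (Finset.mem_range.mpr hi) h2), hprod,
      nf11v_mul P hA0 (pow_ne_zero _ hx0), nf11v_zero hAP, nf11v_pow P hx0, zero_add] at h1
    exact ⟨_, h1.symm⟩
  · rw [nf11v_zero hmem]
    exact dvd_zero p

end FCat
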