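import Mathlib

/-!
# FCat / NF12  (MP_be1fae_nt, Theorem A): adjoining roots

For every `D` and `p ≥ 1` there is `D'` such that for every subfield `K` of `ℂ` of degree at most
`D` over `ℚ` and `g_0, g_1 ∈ K` there is a subfield `L ⊇ K` of `ℂ` of degree at most `D'` over `ℚ`
containing a primitive `p`-th root of unity and `s_0, s_1` with `s_i^p = g_i`.

PROOF.  Let `ζ = exp(2πi/p)` (degree `≤ p` over `ℚ`: a root of `X^p - 1`), and `s_i ∈ ℂ` with
`s_i^p = g_i` (`IsAlgClosed.exists_pow_nat_eq`).  `g_i` is a root of a nonzero `f_i ∈ ℚ[X]` of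
degree `≤ D` (`minpoly ℚ g_i`, of degree `[ℚ(g_i):ℚ] ≤ [K:ℚ]`), so `s_i` is a root of
`f_i(X^p) ≠ 0` of degree `≤ D p`, and `[ℚ(s_i):ℚ] ≤ D p` (`minpoly.natDegree_le...`,
`IntermediateField.adjoin.finrank`).  `L = K ⊔ ℚ(ζ) ⊔ ℚ(s_0) ⊔ ℚ(s_1)` has degree
`≤ D * p * (D p) * (D p) =: D'` (`IntermediateField.finrank_sup_le`), and is finite dimensional
(`IntermediateField.finiteDimensional_sup`).
-/

open scoped nonZeroDivisors NumberField
open NumberField

namespace FCat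

lemma finrank_adjoin_le {s : ℂ} {q : Polynomial ℚ} (hq : q ≠ 0) (hs : Polynomial.aeval s q = 0) :
    FiniteDimensional ℚ (IntermediateField.adjoin ℚ {s}) ∧
      Module.finrank ℚ (IntermediateField.adjoin ℚ {s}) ≤ q.natDegree := by
  have hint : IsIntegral ℚ s := by
    rw [← isAlgebraic_iff_isIntegral]
    exact ⟨q, hq, hs⟩
  refine ⟨IntermediateField.adjoin.finiteDimensional hint, ?_⟩
  rw [IntermediateField.adjoin.finrank hint]
  exact Polynomial.natDegree_le_natDegree (minpoly.degree_le_of_ne_zero ℚ s hq hs)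

lemma root_adjoin_le {D p : ℕ} (hp : 1 ≤ p) {K : IntermediateField ℚ ℂ} (hK : FiniteDimensional ℚ K)
    (hD : Module.finrank ℚ K ≤ D) {g s : ℂ} (hg : g ∈ K) (hs : s ^ p = g) :
    FiniteDimensional ℚ (IntermediateField.adjoin ℚ {s}) ∧
      Module.finrank ℚ (IntermediateField.adjoin ℚ {s}) ≤ D * p := by
  have h1 : (minpoly ℚ g).natDegree ≤ D := by
    have e := IntermediateField.minpoly_eq (S := K) ⟨g, hg⟩
    rw [← e]
    exact (minpoly.natDegree_le _).trans hD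
  have hint : IsIntegral ℚ g := by
    have h : IsIntegral ℚ (⟨g, hg⟩ : K) := Algebra.IsIntegral.isIntegral _
    exact h.map (IntermediateField.val K)
  have h2 : minpoly ℚ g ≠ 0 := minpoly.ne_zero hint
  have h3 : Polynomial.expand ℚ p (minpoly ℚ g) ≠ 0 := by
    rw [Ne, Polynomial.expand_eq_zero (by omega)]
    exact h2
  have h4 : Polynomial.aeval s (Polynomial.expand ℚ p (minpoly ℚ g)) = 0 := by
    rw [Polynomial.expand_aeval, hs]
    exact minpoly.aeval ℚ g
  obtain ⟨h5, h6⟩ := finrank_adjoin_le h3 h4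
  refine ⟨h5, h6.trans ?_⟩
  rw [Polynomial.natDegree_expand]
  exact Nat.mul_le_mul_right p h1

theorem root_field (D p : ℕ) (hp : 1 ≤ p) :
    ∃ D' : ℕ, ∀ K : IntermediateField ℚ ℂ, NumberField K → Module.finrank ℚ K ≤ D →
      ∀ g₀ g₁ : ℂ, g₀ ∈ K → g₁ ∈ K →
      ∃ L : IntermediateField ℚ ℂ, NumberField L ∧ K ≤ L ∧ Module.finrank ℚ L ≤ D' ∧
        (∃ ζ ∈ L, IsPrimitiveRoot ζ p) ∧ (∃ s ∈ L, s ^ p = g₀) ∧ (∃ s ∈ L, s ^ p = g₁) := by
  refine ⟨D * p * (D * p) * (D * p), fun K hK hD g₀ g₁ hg₀ hg₁ => ?_⟩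
  have hK' : FiniteDimensional ℚ K := hK.to_finiteDimensional
  obtain ⟨s₀, hs₀⟩ := IsAlgClosed.exists_pow_nat_eq g₀ (n := p) (by omega)
  obtain ⟨s₁, hs₁⟩ := IsAlgClosed.exists_pow_nat_eq g₁ (n := p) (by omega)
  obtain ⟨f0, d0⟩ := root_adjoin_le hp hK' hD hg₀ hs₀
  obtain ⟨f1, d1⟩ := root_adjoin_le hp hK' hD hg₁ hs₁
  have hprim : IsPrimitiveRoot (Complex.exp (2 * Real.pi * Complex.I / p)) p :=
    Complex.isPrimitiveRoot_exp p (by omega)
  set ζ : ℂ := Complex.exp (2 * Real.pi * Complex.I / p) with hζ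
  have hz : FiniteDimensional ℚ (IntermediateField.adjoin ℚ {ζ}) ∧
      Module.finrank ℚ (IntermediateField.adjoin ℚ {ζ}) ≤ p := by
    have h3 : (Polynomial.X ^ p - 1 : Polynomial ℚ) ≠ 0 :=
      (Polynomial.monic_X_pow_sub_C (1 : ℚ) (by omega)).ne_zero
    have h4 : Polynomial.aeval ζ (Polynomial.X ^ p - 1 : Polynomial ℚ) = 0 := by
      simp [hprim.pow_eq_one]
    obtain ⟨h5, h6⟩ := finrank_adjoin_le h3 h4
    refine ⟨h5, h6.trans (le_of_eq ?_)⟩
    exact Polynomial.natDegree_X_pow_sub_C (n := p) (r := (1 : ℚ))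
  obtain ⟨fz, dz⟩ := hz
  let L : IntermediateField ℚ ℂ := K ⊔ IntermediateField.adjoin ℚ {ζ} ⊔
    IntermediateField.adjoin ℚ {s₀} ⊔ IntermediateField.adjoin ℚ {s₁}
  have e0 : IntermediateField.adjoin ℚ {s₀} ≤ L := le_sup_of_le_left le_sup_right
  have e1 : IntermediateField.adjoin ℚ {s₁} ≤ L := le_sup_right
  have ez : IntermediateField.adjoin ℚ {ζ} ≤ L :=
    le_sup_of_le_left (le_sup_of_le_left le_sup_right)
  have eK : K ≤ L := le_sup_of_le_left (le_sup_of_le_left le_sup_left)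
  have fL : FiniteDimensional ℚ L := by
    have a1 := IntermediateField.finiteDimensional_sup K (IntermediateField.adjoin ℚ {ζ})
    have a2 := IntermediateField.finiteDimensional_sup (K ⊔ IntermediateField.adjoin ℚ {ζ})
      (IntermediateField.adjoin ℚ {s₀})
    exact IntermediateField.finiteDimensional_sup _ _
  refine ⟨L, @NumberField.mk L _ inferInstance fL, eK, ?_,
    ⟨ζ, ez (IntermediateField.mem_adjoin_simple_self ℚ ζ), hprim⟩,
    ⟨s₀, e0 (IntermediateField.mem_adjoin_simple_self ℚ s₀), hs₀⟩,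
    ⟨s₁, e1 (IntermediateField.mem_adjoin_simple_self ℚ s₁), hs₁⟩⟩
  calc Module.finrank ℚ L ≤ Module.finrank ℚ (K ⊔ IntermediateField.adjoin ℚ {ζ} ⊔
        IntermediateField.adjoin ℚ {s₀} : IntermediateField ℚ ℂ) *
        Module.finrank ℚ (IntermediateField.adjoin ℚ {s₁}) := IntermediateField.finrank_sup_le _ _
    _ ≤ (Module.finrank ℚ (K ⊔ IntermediateField.adjoin ℚ {ζ} : IntermediateField ℚ ℂ) *
        Module.finrank ℚ (IntermediateField.adjoin ℚ {s₀})) *
        Module.finrank ℚ (IntermediateField.adjoin ℚ {s₁}) :=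
        Nat.mul_le_mul_right _ (IntermediateField.finrank_sup_le _ _)
    _ ≤ (Module.finrank ℚ K * Module.finrank ℚ (IntermediateField.adjoin ℚ {ζ}) *
        Module.finrank ℚ (IntermediateField.adjoin ℚ {s₀})) *
        Module.finrank ℚ (IntermediateField.adjoin ℚ {s₁}) :=
        Nat.mul_le_mul_right _ (Nat.mul_le_mul_right _ (IntermediateField.finrank_sup_le _ _))
    _ ≤ D * p * (D * p) * (D * p) :=
        Nat.mul_le_mul (Nat.mul_le_mul (Nat.mul_le_mul hD dz) d0) d1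

end FCat
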