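import Mathlib

/-!
# FCat / NF3  (MP_be1fae_nt, Theorem A): units modulo `p`-th powers

There is a set `U` of at most `p^d` units (`d = [K : ℚ]`) such that every unit is `w t^p` with
`w ∈ U` and `t` a unit.

PROOF.  `NumberField.Units.exist_unique_eq_mul_prod`: every unit is `ζ ∏_i η_i^(e_i)` with
`ζ` in the torsion group, `η_i` (`i ∈ Fin (rank K)`) the fundamental system
`NumberField.Units.fundSystem K` and `e_i ∈ ℤ`.  The torsion group is finite cyclic
(`NumberField.Units.torsion` : instances `Fintype`, `IsCyclic`), with generator `ξ`, so `ζ = ξ^j`,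
`j ∈ ℤ` (or `ℕ`).  Write `j = p j' + j''`, `e_i = p e_i' + e_i''` with `0 ≤ j'', e_i'' < p`
(`Int.emod_add_ediv`, `p ≥ 1`); then `u = (ξ^(j'') ∏ η_i^(e_i'')) (ξ^(j') ∏ η_i^(e_i'))^p`.  So
`U` = the image of `Fin p × (Fin (rank K) → Fin p)` under `(j'', e'') ↦ ξ^(j'') ∏ η_i^(e_i'')`,
at most `p * p^(rank K) = p^(rank K + 1)` elements, and `rank K + 1 = ` number of infinite places
`≤ d` (`NumberField.Units.rank = card (InfinitePlace K) - 1`,
`NumberField.InfinitePlace.card_add_two_mul_card_eq_rank` or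
`card_eq_nrRealPlaces_add_nrComplexPlaces` for `card ≤ d`; `card ≥ 1`).
-/

open scoped nonZeroDivisors NumberField
open NumberField

namespace FCat

theorem nf3_rank (K : Type*) [Field K] [NumberField K] :
    NumberField.Units.rank K + 1 ≤ Module.finrank ℚ K := by
  have h1 := NumberField.InfinitePlace.card_eq_nrRealPlaces_add_nrComplexPlaces K
  have h2 := NumberField.InfinitePlace.card_add_two_mul_card_eq_rank K
  have h3 : 0 < Fintype.card (InfinitePlace K) := Fintype.card_pos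
  unfold NumberField.Units.rank
  omega

theorem units_mod (K : Type*) [Field K] [NumberField K] (p : ℕ) (hp : 1 ≤ p) :
    ∃ U : Finset (𝓞 K)ˣ, U.card ≤ p ^ Module.finrank ℚ K ∧
      ∀ u : (𝓞 K)ˣ, ∃ w ∈ U, ∃ t : (𝓞 K)ˣ, u = w * t ^ p := by
  classical
  obtain ⟨ξ, hξ⟩ := IsCyclic.exists_generator (α := NumberField.Units.torsion K)
  have hp0 : (0 : ℤ) < p := by exact_mod_cast hp
  let f : Fin p × (Fin (NumberField.Units.rank K) → Fin p) → (𝓞 K)ˣ := fun e =>
    (ξ : (𝓞 K)ˣ) ^ (e.1 : ℕ) * ∏ i, NumberField.Units.fundSystem K i ^ ((e.2 i : Fin p) : ℕ)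
  refine ⟨Finset.univ.image f, ?_, fun u => ?_⟩
  · refine Finset.card_image_le.trans ?_
    rw [Finset.card_univ, Fintype.card_prod, Fintype.card_fun, Fintype.card_fin, Fintype.card_fin,
      ← pow_succ']
    exact Nat.pow_le_pow_right hp (nf3_rank K)
  · obtain ⟨⟨ζ, e⟩, hu, -⟩ := NumberField.Units.exist_unique_eq_mul_prod K u
    obtain ⟨j, hj⟩ := Subgroup.mem_zpowers_iff.1 (hξ ζ)
    have hred : ∀ a : ℤ, ∃ r : Fin p, a = ((r : ℕ) : ℤ) + p * (a / p) := by
      intro a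
      refine ⟨⟨(a % p).toNat, ?_⟩, ?_⟩
      · have h1 := Int.emod_nonneg a hp0.ne'
        have h2 := Int.emod_lt_of_pos a hp0
        omega
      · have h1 := Int.emod_nonneg a hp0.ne'
        show a = (((a % p).toNat : ℕ) : ℤ) + p * (a / p)
        rw [Int.toNat_of_nonneg h1]
        exact (Int.emod_add_mul_ediv a p).symm
    choose r hr using hred
    refine ⟨f (r j, fun i => r (e i)), Finset.mem_image_of_mem _ (Finset.mem_univ _),
      (ξ : (𝓞 K)ˣ) ^ (j / p) * ∏ i, NumberField.Units.fundSystem K i ^ (e i / p), ?_⟩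
    have key : ∀ (x : (𝓞 K)ˣ) (a : ℤ), x ^ a = x ^ ((r a : Fin p) : ℕ) * (x ^ (a / p)) ^ p := by
      intro x a
      conv_lhs => rw [hr a, zpow_add, zpow_natCast, mul_comm (p : ℤ) (a / p), zpow_mul,
        zpow_natCast]
    rw [hu]
    show (ζ : (𝓞 K)ˣ) * ∏ i, NumberField.Units.fundSystem K i ^ (e i) =
      ((ξ : (𝓞 K)ˣ) ^ ((r j : Fin p) : ℕ) *
        ∏ i, NumberField.Units.fundSystem K i ^ ((r (e i) : Fin p) : ℕ)) * _
    have hζ : (ζ : (𝓞 K)ˣ) = (ξ : (𝓞 K)ˣ) ^ j := by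
      rw [← hj]
      rfl
    rw [hζ, key (ξ : (𝓞 K)ˣ) j, Finset.prod_congr rfl (fun i _ => key _ (e i)),
      Finset.prod_mul_distrib, mul_pow, Finset.prod_pow]
    exact mul_mul_mul_comm _ _ _ _

end FCat
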