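import Mathlib

/-!
# FCat / NF5  (MP_be1fae_nt, Theorem A): the number of primes above an integer

For a natural number `N ≠ 0` the set of nonzero prime ideals `P` of `𝓞 K` with `N ∈ P` is finite
and has at most `d * ω(N)` elements, `d = [K : ℚ]`, `ω(N) = N.primeFactors.card`.

PROOF.  If `P` is a prime ideal containing `N = ∏ ℓ^(a_ℓ)` then `P` contains one of the primes
`ℓ ∣ N` (`Ideal.IsPrime.prod_mem_iff`, or: `P ∩ ℤ` is a nonzero prime ideal `(ℓ)` of `ℤ`
containing `N`; `P ≠ ⊥` is automatic as `N ≠ 0` in `P`).  So the set is contained in the union over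
`ℓ ∈ N.primeFactors` of the sets of primes of `𝓞 K` containing `ℓ`.  For a prime number `ℓ` there
are at most `d` prime ideals containing `ℓ`: from `Σ e_i f_i = d`
(`Ideal.sum_ramification_inertia` with `IsDedekindDomain.primesOverFinset`, all terms `≥ 1`);
or directly: if `P_1, …, P_k` are distinct primes containing `ℓ` then `∏ P_i ∣ (ℓ)`
(`Finset.prod_primes_dvd` for ideals or `Ideal.prod_le_inf` + coprimality), so
`∏ absNorm P_i ∣ absNorm (ℓ) = ℓ^d`, and each `absNorm P_i` is divisible by `ℓ`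
(it divides a power of `ℓ` and is not 1), so `ℓ^k ≤ ℓ^d` and `k ≤ d`.
-/

open scoped nonZeroDivisors NumberField
open NumberField

namespace FCat

set_option linter.deprecated false in
/-- a prime number lies in at most `d` prime ideals -/
theorem primes_over_prime (K : Type*) [Field K] [NumberField K] (l : ℕ) (hl : l.Prime) :
    {P : Ideal (𝓞 K) | P.IsPrime ∧ ((l : ℕ) : 𝓞 K) ∈ P}.Finite ∧
    {P : Ideal (𝓞 K) | P.IsPrime ∧ ((l : ℕ) : 𝓞 K) ∈ P}.ncard ≤ Module.finrank ℚ K := by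
  have hpm : (Ideal.span {(l : ℤ)}).IsMaximal := by
    have := Fact.mk hl
    exact Int.ideal_span_isMaximal_of_prime l
  have hp0 : (Ideal.span {(l : ℤ)}) ≠ ⊥ := by
    simp [hl.ne_zero]
  have hsub : {P : Ideal (𝓞 K) | P.IsPrime ∧ ((l : ℕ) : 𝓞 K) ∈ P} ⊆
      ((IsDedekindDomain.primesOverFinset (Ideal.span {(l : ℤ)}) (𝓞 K) :
        Finset (Ideal (𝓞 K))) : Set (Ideal (𝓞 K))) := by
    intro P hP
    obtain ⟨hP1, hP2⟩ := hP
    rw [Finset.mem_coe, IsDedekindDomain.mem_primesOverFinset_iff hp0]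
    refine ⟨hP1, ⟨?_⟩⟩
    have hle : Ideal.span {(l : ℤ)} ≤ P.under ℤ := by
      rw [Ideal.span_singleton_le_iff_mem, Ideal.mem_comap]
      simpa using hP2
    exact hpm.eq_of_le (Ideal.IsPrime.ne_top inferInstance) hle
  refine ⟨(Finset.finite_toSet _).subset hsub, ?_⟩
  refine (Set.ncard_le_ncard hsub (Finset.finite_toSet _)).trans ?_
  rw [Set.ncard_coe_finset]
  exact Ideal.card_primesOverFinset_le_finrank (𝓞 K) ℚ K hp0

theorem primes_over (K : Type*) [Field K] [NumberField K] (N : ℕ) (hN : N ≠ 0) :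
    {P : Ideal (𝓞 K) | P.IsPrime ∧ ((N : ℕ) : 𝓞 K) ∈ P}.Finite ∧
    {P : Ideal (𝓞 K) | P.IsPrime ∧ ((N : ℕ) : 𝓞 K) ∈ P}.ncard
      ≤ Module.finrank ℚ K * N.primeFactors.card := by
  have hsub : {P : Ideal (𝓞 K) | P.IsPrime ∧ ((N : ℕ) : 𝓞 K) ∈ P} ⊆
      ⋃ l ∈ N.primeFactors, {P : Ideal (𝓞 K) | P.IsPrime ∧ ((l : ℕ) : 𝓞 K) ∈ P} := by
    intro P hP
    obtain ⟨hP1, hP2⟩ := hP
    have hprod : ((∏ l ∈ N.primeFactors, l ^ N.factorization l : ℕ) : 𝓞 K) ∈ P := by
      have h := Nat.prod_factorization_pow_eq_self hN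
      rw [Finsupp.prod, Nat.support_factorization] at h
      rw [h]
      exact hP2
    push_cast at hprod
    rw [hP1.prod_mem_iff] at hprod
    obtain ⟨l, hl, hlP⟩ := hprod
    have := hP1.mem_of_pow_mem _ hlP
    simp only [Set.mem_iUnion, Set.mem_setOf_eq]
    exact ⟨l, hl, hP1, this⟩
  have hfin : ∀ l ∈ N.primeFactors,
      {P : Ideal (𝓞 K) | P.IsPrime ∧ ((l : ℕ) : 𝓞 K) ∈ P}.Finite := fun l hl =>
    (primes_over_prime K l (Nat.prime_of_mem_primeFactors hl)).1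
  have hfinU : (⋃ l ∈ N.primeFactors,
      {P : Ideal (𝓞 K) | P.IsPrime ∧ ((l : ℕ) : 𝓞 K) ∈ P}).Finite :=
    Set.Finite.biUnion (Finset.finite_toSet _) hfin
  refine ⟨hfinU.subset hsub, (Set.ncard_le_ncard hsub hfinU).trans ?_⟩
  refine (Finset.set_ncard_biUnion_le _ _).trans ?_
  refine (Finset.sum_le_card_nsmul _ _ (Module.finrank ℚ K) fun l hl =>
    (primes_over_prime K l (Nat.prime_of_mem_primeFactors hl)).2).trans ?_
  rw [smul_eq_mul, mul_comm]

end FCat
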