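import Mathlib
import Pool.Agent.FCat.NF3
import Pool.Agent.FCat.NF5

/-!
# FCat / NF4  (MP_be1fae_nt, Theorem A): Kummer classes unramified outside `N`

Call a nonzero `a ∈ 𝓞 K` good if `p` divides the exponent of `P` in the factorization of the
ideal `(a)` for every prime `P` not containing `N`.  There is a finite set `R ⊂ K \ {0}` with at
most `p^(d ω(N)) * h_K * p^d` elements such that every good `a` is `g κ^p` with `g ∈ R`, `κ ∈ K`.

PROOF.  Let `T` be the finite set of primes `P ∋ N` (`FCat.primes_over`), `|T| ≤ d ω(N)`.  For a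
good `a`, `(a) = ∏_P P^(v_P(a))` (`Ideal` unique factorization, `normalizedFactors`), so
`(a) = (∏_{P ∈ T} P^(v_P(a) mod p)) * J^p` with the nonzero integral ideal
`J = ∏_{P ∈ T} P^(v_P(a) / p) * ∏_{P ∉ T} P^(v_P(a)/p)`.
Data of `a`: the function `r : T → Fin p`, `r_P = v_P(a) mod p`, and the class `c` of `J` (choose
one such `J` for every good `a`) in `ClassGroup (𝓞 K)`.  There are at most `p^|T| * h_K` data.
For each datum `(r, c)` which occurs choose one good element `a_(r,c)` with this datum.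
If `a` is good with the same datum then `(a) * J'^p = (a') * J^p` with `a' = a_(r,c)`, `J' = J(a')`
and `mk0 J = mk0 J'`, so (`ClassGroup.mk0_eq_mk0_iff`) there are nonzero `x, y ∈ 𝓞 K` with
`(x) J = (y) J'`.  Hence `(a x^p) = (a) (x)^p`, `(a x^p) J^p J'^p = (a) J'^p (x)^p J^p
= (a') J^p (y)^p J'^p`, and cancelling `J^p J'^p`, `(a x^p) = (a' y^p)`, so `a x^p = u a' y^p`
with a unit `u` (`Ideal.span_singleton_eq_span_singleton`, `Associated`), and `u = w t^p` with `w`
in the set `U` of `FCat.units_mod`.  So `a = (a' w) (t y / x)^p` in `K`.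
`R = { a_(r,c) w }`, at most `p^|T| * h_K * p^d ≤ p^(d ω(N)) * h_K * p^d` elements.
-/

open scoped nonZeroDivisors NumberField
open NumberField UniqueFactorizationMonoid

namespace FCat

open Classical in
/-- the factorization of a good element -/
theorem kummer_decomp (K : Type*) [Field K] [NumberField K] (p : ℕ) (hp : 1 ≤ p) (N : ℕ)
    (T : Finset (Ideal (𝓞 K))) (hT : ∀ P : Ideal (𝓞 K), P.IsPrime → ((N : ℕ) : 𝓞 K) ∈ P → P ∈ T)
    (a : 𝓞 K) (ha : a ≠ 0)
    (hgood : ∀ P : Ideal (𝓞 K), P.IsPrime → P ≠ ⊥ → ((N : ℕ) : 𝓞 K) ∉ P →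
          p ∣ Multiset.count P (normalizedFactors (Ideal.span {a}))) :
    ∃ r : T → Fin p, ∃ J : (Ideal (𝓞 K))⁰,
      Ideal.span {a} = (∏ P : T, (P : Ideal (𝓞 K)) ^ (r P : ℕ)) * (J : Ideal (𝓞 K)) ^ p := by
  have hspan : (Ideal.span {a} : Ideal (𝓞 K)) ≠ 0 := by
    rw [Ne, Ideal.zero_eq_bot, Ideal.span_singleton_eq_bot]
    exact ha
  set m : Multiset (Ideal (𝓞 K)) := normalizedFactors (Ideal.span {a}) with hm
  have hprod : m.prod = Ideal.span {a} := Ideal.prod_normalizedFactors_eq_self hspan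
  have hprime : ∀ P ∈ m, P.IsPrime ∧ P ≠ ⊥ := by
    intro P hP
    have h1 : Prime P := prime_of_normalized_factor P hP
    exact ⟨Ideal.isPrime_of_prime h1, h1.ne_zero⟩
  let J : Ideal (𝓞 K) := ∏ P ∈ m.toFinset, P ^ (m.count P / p)
  have hJ : J ≠ 0 := by
    apply Finset.prod_ne_zero_iff.2
    intro P hP
    exact pow_ne_zero _ (hprime P (Multiset.mem_toFinset.1 hP)).2
  refine ⟨fun P => ⟨m.count (P : Ideal (𝓞 K)) % p, Nat.mod_lt _ hp⟩,
    ⟨J, mem_nonZeroDivisors_of_ne_zero hJ⟩, ?_⟩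
  have h1 : (∏ P : T, (P : Ideal (𝓞 K)) ^ (m.count (P : Ideal (𝓞 K)) % p)) =
      ∏ P ∈ m.toFinset, P ^ (m.count P % p) := by
    rw [Finset.prod_coe_sort T (fun P => P ^ (m.count P % p))]
    have h2 : ∏ P ∈ T, P ^ (m.count P % p) = ∏ P ∈ T ∪ m.toFinset, P ^ (m.count P % p) := by
      apply Finset.prod_subset Finset.subset_union_left
      intro P hP hPT
      rw [Finset.mem_union] at hP
      have hPm : P ∈ m := by
        rcases hP with h | h
        · exact absurd h hPT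
        · exact Multiset.mem_toFinset.1 h
      obtain ⟨h3, h4⟩ := hprime P hPm
      have h5 : p ∣ m.count P := hgood P h3 h4 (fun h => hPT (hT P h3 h))
      rw [Nat.mod_eq_zero_of_dvd h5, pow_zero]
    rw [h2]
    symm
    apply Finset.prod_subset Finset.subset_union_right
    intro P hP hPm
    have h3 : m.count P = 0 := by
      rw [Multiset.count_eq_zero]
      intro h
      exact hPm (Multiset.mem_toFinset.2 h)
    rw [h3, Nat.zero_mod, pow_zero]
  change Ideal.span {a} = (∏ P : T, (P : Ideal (𝓞 K)) ^ (m.count (P : Ideal (𝓞 K)) % p)) * J ^ p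
  rw [h1, ← Finset.prod_pow, ← Finset.prod_mul_distrib, ← hprod, Finset.prod_multiset_count]
  apply Finset.prod_congr rfl
  intro P _
  rw [← pow_mul, ← pow_add, Nat.mod_add_div']

open Classical in
theorem kummer (K : Type*) [Field K] [NumberField K] (p : ℕ) (hp : 1 ≤ p) (N : ℕ) (hN : N ≠ 0) :
    ∃ R : Finset K,
      R.card ≤ p ^ (Module.finrank ℚ K * N.primeFactors.card) * NumberField.classNumber K *
        p ^ Module.finrank ℚ K ∧
      (∀ g ∈ R, g ≠ 0) ∧
      ∀ a : 𝓞 K, a ≠ 0 →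
        (∀ P : Ideal (𝓞 K), P.IsPrime → P ≠ ⊥ → ((N : ℕ) : 𝓞 K) ∉ P →
          p ∣ Multiset.count P (normalizedFactors (Ideal.span {a}))) →
        ∃ g ∈ R, ∃ κ : K, (a : K) = g * κ ^ p := by
  obtain ⟨hTf, hTc⟩ := primes_over K N hN
  obtain ⟨U, hU, hunit⟩ := units_mod K p hp
  set T : Finset (Ideal (𝓞 K)) := hTf.toFinset with hTdef
  have hTcard : T.card ≤ Module.finrank ℚ K * N.primeFactors.card := by
    rw [hTdef, ← Set.ncard_eq_toFinset_card _ hTf]
    exact hTc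
  have hTmem : ∀ P : Ideal (𝓞 K), P.IsPrime → ((N : ℕ) : 𝓞 K) ∈ P → P ∈ T := by
    intro P h1 h2
    rw [hTdef, Set.Finite.mem_toFinset]
    exact ⟨h1, h2⟩
  -- the data
  let Good : (T → Fin p) × ClassGroup (𝓞 K) → 𝓞 K → Prop := fun δ a =>
    a ≠ 0 ∧ ∃ J : (Ideal (𝓞 K))⁰, ClassGroup.mk0 J = δ.2 ∧
      Ideal.span {a} = (∏ P : T, (P : Ideal (𝓞 K)) ^ (δ.1 P : ℕ)) * (J : Ideal (𝓞 K)) ^ p
  have hch : ∀ δ, ∃ a : 𝓞 K, a ≠ 0 ∧ ((∃ b, Good δ b) → Good δ a) := by
    intro δ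
    by_cases h : ∃ b, Good δ b
    · obtain ⟨b, hb⟩ := h
      exact ⟨b, hb.1, fun _ => hb⟩
    · exact ⟨1, one_ne_zero, fun h' => absurd h' h⟩
  choose f hf0 hf using hch
  refine ⟨((Finset.univ : Finset ((T → Fin p) × ClassGroup (𝓞 K))) ×ˢ U).image
    (fun q => (f q.1 : K) * ((q.2 : 𝓞 K) : K)), ?_, ?_, ?_⟩
  · refine Finset.card_image_le.trans ?_
    rw [Finset.card_product, Finset.card_univ, Fintype.card_prod, Fintype.card_fun, Fintype.card_fin,
      Fintype.card_coe]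
    have h1 : p ^ T.card ≤ p ^ (Module.finrank ℚ K * N.primeFactors.card) :=
      Nat.pow_le_pow_right hp hTcard
    exact Nat.mul_le_mul (Nat.mul_le_mul h1 le_rfl) hU
  · intro g hg
    rw [Finset.mem_image] at hg
    obtain ⟨q, -, rfl⟩ := hg
    apply mul_ne_zero
    · intro h
      exact hf0 q.1 (by exact_mod_cast h)
    · intro h
      have h1 : ((q.2 : (𝓞 K)ˣ) : 𝓞 K) = 0 := by exact_mod_cast h
      exact q.2.ne_zero h1
  · intro a ha hgood
    obtain ⟨r, J, hJ⟩ := kummer_decomp K p hp N T hTmem a ha hgood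
    have hG : Good (r, ClassGroup.mk0 J) a := ⟨ha, J, rfl, hJ⟩
    obtain ⟨ha', J', hcl, hJ'⟩ := hf (r, ClassGroup.mk0 J) ⟨a, hG⟩
    set a' : 𝓞 K := f (r, ClassGroup.mk0 J) with ha'def
    obtain ⟨x, y, hx, hy, hxy⟩ := ClassGroup.mk0_eq_mk0_iff.1 hcl.symm
    change Ideal.span {a'} = (∏ P : T, (P : Ideal (𝓞 K)) ^ (r P : ℕ)) * (J' : Ideal (𝓞 K)) ^ p at hJ'
    have hs : Ideal.span {a' * y ^ p} = Ideal.span {a * x ^ p} := by
      rw [← Ideal.span_singleton_mul_span_singleton, ← Ideal.span_singleton_mul_span_singleton,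
        ← Ideal.span_singleton_pow, ← Ideal.span_singleton_pow, hJ, hJ', mul_assoc, mul_assoc,
        ← mul_pow, ← mul_pow, mul_comm (J' : Ideal (𝓞 K)), mul_comm (J : Ideal (𝓞 K)), hxy]
    rw [Ideal.span_singleton_eq_span_singleton] at hs
    obtain ⟨u, hu⟩ := hs
    obtain ⟨w, hw, t, ht⟩ := hunit u
    refine ⟨(a' : K) * ((w : 𝓞 K) : K), ?_, ((t : 𝓞 K) : K) * y / x, ?_⟩
    · rw [Finset.mem_image]
      exact ⟨((r, ClassGroup.mk0 J), w), by simp [hw], rfl⟩
    · have hxK : (x : K) ≠ 0 := by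
        intro h
        exact hx (by exact_mod_cast h)
      have h2 := congrArg (algebraMap (𝓞 K) K) hu
      rw [ht] at h2
      simp only [map_mul, map_pow, Units.val_mul, Units.val_pow_eq_pow_val] at h2
      rw [div_pow, mul_pow, mul_div_assoc', eq_div_iff (pow_ne_zero _ hxK)]
      rw [← h2]
      ring

end FCat
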