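import Mathlib

/-!
# FCat / NF6  (MP_be1fae_nt, Theorem A): counting the ideals dividing a principal ideal

For `δ ∈ 𝓞 K`, `δ ≠ 0`, the number of ideals `I` with `δ ∈ I` is at most
`(log₂ (absNorm (δ)) + 1)^t`, `t` = the number of prime ideals containing `δ`.

PROOF.  `δ ∈ I` iff `I ∣ (δ)`; then `I ≠ 0` and `I = ∏_{P ∣ (δ)} P^(v_P(I))` with
`0 ≤ v_P(I) ≤ v_P(δ)`; the map `I ↦ (v_P(I))_P` is injective (unique factorization of ideals,
`normalizedFactors`, `prod_normalizedFactors_eq`; or use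
`UniqueFactorizationMonoid`/`Multiset.powerset` : the `normalizedFactors` of `I` form a
sub-multiset of the `normalizedFactors` of `(δ)`).  For `P ∣ (δ)`:
`P^(v_P(δ)) ∣ (δ)`, so `2^(v_P(δ)) ≤ (absNorm P)^(v_P(δ)) ≤ absNorm (δ)` and
`v_P(δ) ≤ Nat.log 2 (absNorm (δ))`.  So the number of ideals is at most
`∏_{P ∣ (δ)} (v_P(δ) + 1) ≤ (Nat.log 2 (absNorm (δ)) + 1)^t`.
(The set of primes containing `δ` is finite: they are the members of
`normalizedFactors (span {δ})`.)
-/

set_option autoImplicit false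

open scoped nonZeroDivisors NumberField
open NumberField

namespace FCat

theorem NF6_log_bound (K : Type*) [Field K] [NumberField K] (J P : Ideal (𝓞 K)) (hJ : J ≠ ⊥)
    (hP : P.IsPrime) (hPb : P ≠ ⊥) (k : ℕ) (h : P ^ k ∣ J) :
    k ≤ Nat.log 2 (Ideal.absNorm J) := by
  have hJn : Ideal.absNorm J ≠ 0 := by
    rwa [Ne, Ideal.absNorm_eq_zero_iff]
  have h1 : Ideal.absNorm P ^ k ∣ Ideal.absNorm J := by
    rw [← map_pow]
    exact map_dvd _ h
  have h2 : 2 ≤ Ideal.absNorm P := by
    have ha : Ideal.absNorm P ≠ 0 := by rwa [Ne, Ideal.absNorm_eq_zero_iff]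
    have hb : Ideal.absNorm P ≠ 1 := by
      rw [Ne, Ideal.absNorm_eq_one_iff]
      exact hP.ne_top
    omega
  have h3 : 2 ^ k ≤ Ideal.absNorm J :=
    (Nat.pow_le_pow_left h2 k).trans (Nat.le_of_dvd (Nat.pos_of_ne_zero hJn) h1)
  exact Nat.le_log_of_pow_le (by norm_num) h3

theorem div_ideals (K : Type*) [Field K] [NumberField K] (δ : 𝓞 K) (hδ : δ ≠ 0) :
    {P : Ideal (𝓞 K) | P.IsPrime ∧ δ ∈ P}.Finite ∧
    {I : Ideal (𝓞 K) | δ ∈ I}.Finite ∧
    {I : Ideal (𝓞 K) | δ ∈ I}.ncard
      ≤ (Nat.log 2 (Ideal.absNorm (Ideal.span {δ})) + 1) ^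
          {P : Ideal (𝓞 K) | P.IsPrime ∧ δ ∈ P}.ncard := by
  classical
  set J : Ideal (𝓞 K) := Ideal.span {δ} with hJdef
  have hJ : J ≠ ⊥ := by
    rw [hJdef, Ne, Ideal.span_singleton_eq_bot]; exact hδ
  have hmem : ∀ I : Ideal (𝓞 K), δ ∈ I ↔ I ∣ J := fun I => by
    rw [Ideal.dvd_iff_le, hJdef, Ideal.span_singleton_le_iff_mem]
  have hne : ∀ I : Ideal (𝓞 K), δ ∈ I → I ≠ ⊥ := by
    intro I hI h0
    rw [h0, Ideal.mem_bot] at hI
    exact hδ hI
  set M := UniqueFactorizationMonoid.normalizedFactors J with hM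
  set T : Finset (Ideal (𝓞 K)) := M.toFinset with hT
  set B := Nat.log 2 (Ideal.absNorm J) + 1 with hB
  have hTset : {P : Ideal (𝓞 K) | P.IsPrime ∧ δ ∈ P} = (T : Set (Ideal (𝓞 K))) := by
    ext P
    simp only [Set.mem_setOf_eq, Finset.mem_coe, hT, Multiset.mem_toFinset, hM]
    constructor
    · rintro ⟨h1, h2⟩
      have hp : Prime P := Ideal.prime_of_isPrime (hne P h2) h1
      rw [UniqueFactorizationMonoid.mem_normalizedFactors_iff' hJ]
      exact ⟨hp.irreducible, normalize_eq P, (hmem P).1 h2⟩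
    · intro h
      have hp := UniqueFactorizationMonoid.prime_of_normalized_factor P h
      exact ⟨Ideal.isPrime_of_prime hp, (hmem P).2 (UniqueFactorizationMonoid.dvd_of_mem_normalizedFactors h)⟩
  let f : Ideal (𝓞 K) → (T → ℕ) := fun I P =>
    (UniqueFactorizationMonoid.normalizedFactors I).count P.1
  have hsub : ∀ I : Ideal (𝓞 K), δ ∈ I → UniqueFactorizationMonoid.normalizedFactors I ≤ M := by
    intro I hI
    exact (UniqueFactorizationMonoid.dvd_iff_normalizedFactors_le_normalizedFactors (hne I hI) hJ).1 ((hmem I).1 hI)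
  have hmaps : ∀ I ∈ {I : Ideal (𝓞 K) | δ ∈ I}, f I ∈ ((Fintype.piFinset (fun _ : T => Finset.range B) : Finset (T → ℕ)) : Set (T → ℕ)) := by
    intro I hI
    rw [Finset.mem_coe, Fintype.mem_piFinset]
    intro P
    rw [Finset.mem_range, hB, Nat.lt_succ_iff]
    have hPm : P.1 ∈ M := Multiset.mem_toFinset.1 P.2
    have hp := UniqueFactorizationMonoid.prime_of_normalized_factor P.1 (by rwa [hM] at hPm)
    refine NF6_log_bound K J P.1 hJ (Ideal.isPrime_of_prime hp) hp.ne_zero _ ?_
    have h1 : (UniqueFactorizationMonoid.normalizedFactors I).count P.1 ≤ M.count P.1 :=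
      Multiset.count_le_of_le _ (hsub I hI)
    have h2 : Multiset.replicate ((UniqueFactorizationMonoid.normalizedFactors I).count P.1) P.1 ≤ M :=
      Multiset.le_count_iff_replicate_le.1 h1
    have h3 := Multiset.prod_dvd_prod_of_le h2
    rw [Multiset.prod_replicate] at h3
    have h4 : M.prod = J := by
      rw [hM]
      exact Ideal.prod_normalizedFactors_eq_self hJ
    rwa [h4] at h3
  have hinj : Set.InjOn f {I : Ideal (𝓞 K) | δ ∈ I} := by
    intro I hI I' hI' h
    have hc : UniqueFactorizationMonoid.normalizedFactors I = UniqueFactorizationMonoid.normalizedFactors I' := by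
      ext P
      by_cases hP : P ∈ T
      · exact congrFun h ⟨P, hP⟩
      · have hPM : P ∉ M := by rwa [hT, Multiset.mem_toFinset] at hP
        rw [Multiset.count_eq_zero_of_notMem (fun hh => hPM (Multiset.mem_of_le (hsub I hI) hh)),
          Multiset.count_eq_zero_of_notMem (fun hh => hPM (Multiset.mem_of_le (hsub I' hI') hh))]
    rw [← Ideal.prod_normalizedFactors_eq_self (hne I hI), hc,
      Ideal.prod_normalizedFactors_eq_self (hne I' hI')]
  refine ⟨?_, ?_, ?_⟩
  · rw [hTset]; exact Finset.finite_toSet T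
  · exact Set.Finite.of_injOn (f := f) (t := ((Fintype.piFinset (fun _ : T => Finset.range B) : Finset (T → ℕ)) : Set (T → ℕ))) hmaps hinj (Finset.finite_toSet _)
  · have h := Set.ncard_le_ncard_of_injOn f hmaps hinj (Finset.finite_toSet _)
    rw [Set.ncard_coe_finset, Fintype.card_piFinset] at h
    simp only [Finset.card_range, Finset.prod_const, Finset.card_univ, Fintype.card_coe] at h
    rw [hTset, Set.ncard_coe_finset]
    exact h

end FCat
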