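import Mathlib

/-!
# FCat / NF7a  (MP_be1fae_nt, Theorem A): integers with all conjugates at most 3, uniformly

For every `D` there is `C` such that every number field `L` of degree at most `D` has at most `C`
algebraic integers all of whose conjugates have absolute value at most `3`.

PROOF.  (Mathlib proves finiteness for a fixed field: `NumberField.Embeddings.finite_of_norm_le`;
the same proof gives uniformity.)  Let `a ∈ 𝓞 L` be such an element.  `minpoly ℤ a`
is monic of degree `≤ [L:ℚ] ≤ D`, and all its coefficients have absolute value at most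
`c = 3^D * 2^D` by
`NumberField.Embeddings.coeff_bdd_of_norm_le` (applied to `minpoly ℚ a = (minpoly ℤ a).map`).
So `minpoly ℤ a` lies in the
set `F_D` of polynomials over `ℤ` of degree `≤ D` with coefficients in `[-c, c]`, a finite set
depending on `D` only.
Each `f ∈ F_D`, `f ≠ 0`, has at most `D` roots in `L`.  So the number of such `a` is at most
`|F_D| * D =: C`.
-/

open scoped nonZeroDivisors NumberField
open NumberField

namespace FCat

/-- polynomials of degree at most `D` with coefficients in `[-c, c]` -/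
def bddPoly (D : ℕ) (c : ℤ) : Set (Polynomial ℤ) :=
  {f | f.natDegree ≤ D ∧ ∀ i, f.coeff i ∈ Set.Icc (-c) c}

theorem bddPoly_finite (D : ℕ) (c : ℤ) : (bddPoly D c).Finite := by
  apply Set.Finite.of_finite_image (f := fun (f : Polynomial ℤ) (i : Fin (D + 1)) => f.coeff i)
  · apply (Set.Finite.pi' (fun _ : Fin (D + 1) => Set.finite_Icc (-c) c)).subset
    rintro _ ⟨f, hf, rfl⟩ i
    exact hf.2 i
  · intro f hf g hg h
    ext i
    by_cases hi : i < D + 1
    · exact congrFun h ⟨i, hi⟩
    · rw [Polynomial.coeff_eq_zero_of_natDegree_lt (by have := hf.1; omega),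
        Polynomial.coeff_eq_zero_of_natDegree_lt (by have := hg.1; omega)]

theorem minpoly_mem (D : ℕ) (L : Type) [Field L] [NumberField L] (hD : Module.finrank ℚ L ≤ D)
    (a : 𝓞 L) (ha : ∀ φ : L →+* ℂ, ‖φ (a : L)‖ ≤ 3) :
    minpoly ℤ a ∈ bddPoly D (3 ^ D * 2 ^ D) := by
  have hi : IsIntegral ℤ a := RingOfIntegers.isIntegral a
  have hm : minpoly ℚ (a : L) = (minpoly ℤ a).map (algebraMap ℤ ℚ) :=
    minpoly.isIntegrallyClosed_eq_field_fractions ℚ L hi
  constructor
  · have h1 : (minpoly ℚ (a : L)).natDegree ≤ Module.finrank ℚ L :=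
      minpoly.natDegree_le (a : L)
    rw [hm, Polynomial.natDegree_map_eq_of_injective (RingHom.injective_int _)] at h1
    exact h1.trans hD
  · intro i
    have h1 := NumberField.Embeddings.coeff_bdd_of_norm_le (A := ℂ) ha i
    rw [hm, Polynomial.coeff_map] at h1
    have h2 : ‖(algebraMap ℤ ℚ) ((minpoly ℤ a).coeff i)‖ = |((minpoly ℤ a).coeff i : ℝ)| := by
      rw [eq_intCast, ← Int.norm_eq_abs]
      exact Int.norm_cast_rat _
    rw [h2] at h1
    have h3 : max (3 : ℝ) 1 ^ Module.finrank ℚ L *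
        ((Module.finrank ℚ L).choose (Module.finrank ℚ L / 2) : ℝ) ≤ 3 ^ D * 2 ^ D := by
      have e : max (3 : ℝ) 1 = 3 := by norm_num
      rw [e]
      apply mul_le_mul
      · exact pow_le_pow_right₀ (by norm_num) hD
      · have h4 : (Module.finrank ℚ L).choose (Module.finrank ℚ L / 2) ≤ 2 ^ D :=
          (Nat.choose_le_two_pow _ _).trans (Nat.pow_le_pow_right (by norm_num) hD)
        exact_mod_cast h4
      · positivity
      · positivity
    have h5 : |((minpoly ℤ a).coeff i : ℝ)| ≤ 3 ^ D * 2 ^ D := h1.trans h3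
    have h6 : |(minpoly ℤ a).coeff i| ≤ 3 ^ D * 2 ^ D := by exact_mod_cast h5
    exact abs_le.1 h6

theorem small_int (D : ℕ) :
    ∃ C : ℕ, ∀ (L : Type) [Field L] [NumberField L], Module.finrank ℚ L ≤ D →
      {a : 𝓞 L | ∀ φ : L →+* ℂ, ‖φ (a : L)‖ ≤ 3}.Finite ∧
      {a : 𝓞 L | ∀ φ : L →+* ℂ, ‖φ (a : L)‖ ≤ 3}.ncard ≤ C := by
  classical
  have hfin := bddPoly_finite D (3 ^ D * 2 ^ D)
  refine ⟨hfin.toFinset.card * D, ?_⟩
  intro L _ _ hD
  have hsub : {a : 𝓞 L | ∀ φ : L →+* ℂ, ‖φ (a : L)‖ ≤ 3} ⊆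
      ((hfin.toFinset.biUnion (fun f => (f.map (algebraMap ℤ (𝓞 L))).roots.toFinset) :
        Finset (𝓞 L)) : Set (𝓞 L)) := by
    intro a ha
    rw [Finset.mem_coe, Finset.mem_biUnion]
    refine ⟨minpoly ℤ a, (Set.Finite.mem_toFinset _).2 (minpoly_mem D L hD a ha), ?_⟩
    have hi : IsIntegral ℤ a := RingOfIntegers.isIntegral a
    rw [Multiset.mem_toFinset, Polynomial.mem_roots']
    constructor
    · exact ((minpoly.monic hi).map _).ne_zero
    · rw [Polynomial.IsRoot, Polynomial.eval_map_algebraMap]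
      exact minpoly.aeval ℤ a
  refine ⟨(Finset.finite_toSet _).subset hsub, ?_⟩
  refine (Set.ncard_le_ncard hsub (Finset.finite_toSet _)).trans ?_
  rw [Set.ncard_coe_finset]
  apply Finset.card_biUnion_le_card_mul
  intro f hf
  rw [Set.Finite.mem_toFinset] at hf
  refine (Multiset.toFinset_card_le _).trans ((Polynomial.card_roots' _).trans ?_)
  exact (Polynomial.natDegree_map_le).trans hf.1

end FCat
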