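import Mathlib
import Pool.Agent.FCat.NF7a

/-!
# FCat / NF7  (MP_be1fae_nt, Theorem A): counting units of bounded height, uniformly

For every `D` there is `C` such that for every number field `L` of degree at most `D` and every
natural number `H ≥ 1` the number of units `u` of `𝓞 L` with `|log |φ u|| ≤ H` for all embeddings
`φ : L → ℂ` is at most `(C H)^C`.

PROOF.  Let `C_a` be the constant of `FCat.small_int D`.  Map a unit `u` of the set to the function
`φ ↦ ⌊log |φ u|⌋ ∈ {-H, …, H}` on the set of the `d ≤ D` embeddings; it takes at most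
`(2H+1)^d ≤ (3H)^D` values.  If `u, u'` have the same value then for every `φ`
`|log |φ (u/u')|| = |log |φ u| - log |φ u'|| < 1`, so `|φ (u / u')| ≤ e ≤ 3`
(`Real.exp_one_lt_three`), i.e. `u / u'` (an element of `𝓞 L`) is in the set of
`FCat.small_int`.  So each fibre has at most `C_a` elements (fix `u'` in the fibre, `u ↦ u/u'` is
injective), and the set is finite with at most `C_a (3H)^D ≤ (C H)^C` elements,
`C = 3 + D + C_a` say (`C_a ≤ C ≤ C^{C-D}`...; any `C` large enough will do).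
-/

set_option linter.all false

open scoped nonZeroDivisors NumberField
open NumberField

namespace FCat

/-- fibre counting -/
theorem ncard_le_of_fibres {α β : Type*} {S : Set α} {T : Set β} (f : α → β)
    (hT : T.Finite) (hf : ∀ x ∈ S, f x ∈ T) {c : ℕ}
    (hfib : ∀ y ∈ T, {x | x ∈ S ∧ f x = y}.Finite ∧ {x | x ∈ S ∧ f x = y}.ncard ≤ c) :
    S.Finite ∧ S.ncard ≤ T.ncard * c := by
  classical
  have hS : S ⊆ ⋃ y ∈ T, {x | x ∈ S ∧ f x = y} := by
    intro x hx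
    exact Set.mem_iUnion₂.mpr ⟨f x, hf x hx, hx, rfl⟩
  have hfin : S.Finite := (hT.biUnion fun y hy => (hfib y hy).1).subset hS
  refine ⟨hfin, ?_⟩
  rw [Set.ncard_eq_toFinset_card S hfin, Set.ncard_eq_toFinset_card T hT, mul_comm]
  apply Finset.card_le_mul_card_image_of_maps_to (f := f)
  · intro x hx
    rw [Set.Finite.mem_toFinset] at hx ⊢
    exact hf x hx
  · intro y hy
    rw [Set.Finite.mem_toFinset] at hy
    have h1 := (hfib y hy).2
    rw [Set.ncard_eq_toFinset_card _ (hfib y hy).1] at h1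
    refine le_trans (Finset.card_le_card ?_) h1
    intro x hx
    rw [Finset.mem_filter, Set.Finite.mem_toFinset] at hx
    rw [Set.Finite.mem_toFinset]
    exact hx

theorem units_count (D : ℕ) :
    ∃ C : ℕ, ∀ (L : Type) [Field L] [NumberField L], Module.finrank ℚ L ≤ D →
      ∀ H : ℕ, 1 ≤ H →
      {u : (𝓞 L)ˣ | ∀ φ : L →+* ℂ, |Real.log ‖φ ((u : 𝓞 L) : L)‖| ≤ H}.Finite ∧
      {u : (𝓞 L)ˣ | ∀ φ : L →+* ℂ, |Real.log ‖φ ((u : 𝓞 L) : L)‖| ≤ H}.ncard
        ≤ (C * H) ^ C := by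
  classical
  obtain ⟨c, hc⟩ := small_int D
  refine ⟨3 + D + c, ?_⟩
  intro L _ _ hL H hH
  obtain ⟨hfin0, hcard0⟩ := hc L hL
  set S : Set (𝓞 L)ˣ := {u | ∀ φ : L →+* ℂ, |Real.log ‖φ ((u : 𝓞 L) : L)‖| ≤ H} with hS
  set f : (𝓞 L)ˣ → ((L →+* ℂ) → ℤ) := fun u φ => ⌊Real.log ‖φ ((u : 𝓞 L) : L)‖⌋ with hf
  set T : Finset ((L →+* ℂ) → ℤ) := Fintype.piFinset fun _ => Finset.Icc (-(H : ℤ)) H with hT
  have hTcard : (T : Set ((L →+* ℂ) → ℤ)).ncard ≤ (3 * H) ^ D := by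
    rw [Set.ncard_coe_finset, hT, Fintype.card_piFinset, Finset.prod_const, Finset.card_univ,
      Int.card_Icc]
    have h1 : Fintype.card (L →+* ℂ) ≤ D := by
      rw [NumberField.Embeddings.card]
      exact hL
    have h2 : ((H : ℤ) + 1 - -(H : ℤ)).toNat ≤ 3 * H := by omega
    calc _ ≤ (3 * H) ^ Fintype.card (L →+* ℂ) := Nat.pow_le_pow_left h2 _
      _ ≤ (3 * H) ^ D := Nat.pow_le_pow_right (by omega) h1
  have hmap : ∀ u ∈ S, f u ∈ (T : Set ((L →+* ℂ) → ℤ)) := by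
    intro u hu
    rw [Finset.mem_coe, hT, Fintype.mem_piFinset]
    intro φ
    have h1 := abs_le.mp (hu φ)
    rw [Finset.mem_Icc]
    constructor
    · rw [Int.le_floor]
      push_cast
      exact h1.1
    · have h2 : (⌊Real.log ‖φ ((u : 𝓞 L) : L)‖⌋ : ℝ) ≤ H := (Int.floor_le _).trans h1.2
      exact_mod_cast h2
  have hfib : ∀ y ∈ (T : Set ((L →+* ℂ) → ℤ)), {u | u ∈ S ∧ f u = y}.Finite ∧
      {u | u ∈ S ∧ f u = y}.ncard ≤ c := by
    intro y hy
    by_cases hne : {u | u ∈ S ∧ f u = y}.Nonempty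
    · obtain ⟨u', hu'S, hu'⟩ := hne
      have hmaps : ∀ u ∈ {u | u ∈ S ∧ f u = y},
          (((u * u'⁻¹ : (𝓞 L)ˣ) : 𝓞 L)) ∈ {z : 𝓞 L | ∀ φ : L →+* ℂ, ‖φ (z : L)‖ ≤ 3} := by
        rintro u ⟨huS, hu⟩ φ
        have h1 : ⌊Real.log ‖φ ((u : 𝓞 L) : L)‖⌋ = ⌊Real.log ‖φ ((u' : 𝓞 L) : L)‖⌋ := by
          have := congrFun (hu.trans hu'.symm) φ
          exact this
        have h2 : |Real.log ‖φ ((u : 𝓞 L) : L)‖ - Real.log ‖φ ((u' : 𝓞 L) : L)‖| < 1 :=
          Int.abs_sub_lt_one_of_floor_eq_floor h1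
        have hu0 : φ ((u' : 𝓞 L) : L) ≠ 0 := by
          intro h3
          rw [map_eq_zero] at h3
          have h4 : ((u' : 𝓞 L)) = 0 := by exact_mod_cast h3
          exact u'.ne_zero h4
        have hu1 : φ ((u : 𝓞 L) : L) ≠ 0 := by
          intro h3
          rw [map_eq_zero] at h3
          have h4 : ((u : 𝓞 L)) = 0 := by exact_mod_cast h3
          exact u.ne_zero h4
        have h3 : φ (((u * u'⁻¹ : (𝓞 L)ˣ) : 𝓞 L) : L) * φ ((u' : 𝓞 L) : L) =
            φ ((u : 𝓞 L) : L) := by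
          rw [← map_mul]
          congr 1
          have h5 : ((u * u'⁻¹ : (𝓞 L)ˣ) : 𝓞 L) * (u' : 𝓞 L) = (u : 𝓞 L) := by
            rw [← Units.val_mul, inv_mul_cancel_right]
          exact_mod_cast congrArg (fun z : 𝓞 L => (z : L)) h5
        have p0 : 0 < ‖φ ((u' : 𝓞 L) : L)‖ := norm_pos_iff.mpr hu0
        have p1 : 0 < ‖φ ((u : 𝓞 L) : L)‖ := norm_pos_iff.mpr hu1
        have h4 : ‖φ (((u * u'⁻¹ : (𝓞 L)ˣ) : 𝓞 L) : L)‖ =
            ‖φ ((u : 𝓞 L) : L)‖ / ‖φ ((u' : 𝓞 L) : L)‖ := by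
          rw [eq_div_iff p0.ne', ← norm_mul, h3]
        rw [h4]
        have h5 : Real.log (‖φ ((u : 𝓞 L) : L)‖ / ‖φ ((u' : 𝓞 L) : L)‖) < 1 := by
          rw [Real.log_div p1.ne' p0.ne']
          exact (abs_lt.mp h2).2
        have h6 : ‖φ ((u : 𝓞 L) : L)‖ / ‖φ ((u' : 𝓞 L) : L)‖ < Real.exp 1 := by
          rw [← Real.log_lt_iff_lt_exp (by positivity)]
          exact h5
        exact (h6.trans Real.exp_one_lt_three).le
      have hinj : Set.InjOn (fun u : (𝓞 L)ˣ => (((u * u'⁻¹ : (𝓞 L)ˣ) : 𝓞 L)))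
          {u | u ∈ S ∧ f u = y} := by
        intro a _ b _ hab
        have h1 : a * u'⁻¹ = b * u'⁻¹ := Units.ext hab
        exact mul_right_cancel h1
      refine ⟨Set.Finite.of_injOn hmaps hinj hfin0, ?_⟩
      exact (Set.ncard_le_ncard_of_injOn _ hmaps hinj hfin0).trans hcard0
    · rw [Set.not_nonempty_iff_eq_empty] at hne
      rw [hne]
      exact ⟨Set.finite_empty, by rw [Set.ncard_empty]; omega⟩
  obtain ⟨h1, h2⟩ := ncard_le_of_fibres f T.finite_toSet hmap hfib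
  refine ⟨h1, h2.trans ?_⟩
  calc (T : Set ((L →+* ℂ) → ℤ)).ncard * c ≤ (3 * H) ^ D * c := Nat.mul_le_mul_right _ hTcard
    _ ≤ ((3 + D + c) * H) ^ D * ((3 + D + c) * H) := by
        apply Nat.mul_le_mul
        · exact Nat.pow_le_pow_left (Nat.mul_le_mul_right _ (by omega)) _
        · nlinarith
    _ = ((3 + D + c) * H) ^ (D + 1) := (pow_succ _ _).symm
    _ ≤ ((3 + D + c) * H) ^ (3 + D + c) := by
        apply Nat.pow_le_pow_right
        · exact Nat.mul_pos (by omega) hH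
        · omega

end FCat
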