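import Mathlib
import Pool.Agent.FCat.NF5
import Pool.Agent.FCat.NF6
import Pool.Agent.FCat.NF7

/-!
# FCat / NF8  (MP_be1fae_nt, Theorem A): counting divisors with bounded conjugates, uniformly

For every `D` there is `C` such that for every number field `L` of degree at most `D`, natural
numbers `N ≥ 1`, `B ≥ 2` and `δ ∈ 𝓞 L` with `δ ∣ N`, `δ ≠ 0` and all conjugates of `δ` at most `B`:
the number of `u ∈ 𝓞 L` with `u ∣ δ` and all conjugates of `u` at most `B` is at most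
`(C log₂ B)^(C (ω(N) + 1))`.

PROOF.  Let `d = [L : ℚ] ≤ D`, `ℓ = Nat.log 2 B ≥ 1`, so `B < 2^(ℓ+1) ≤ 2^(2ℓ)`.
(a) The ideals `(u)` contain `δ`; by `FCat.div_ideals` there are at most
`(Nat.log 2 (absNorm (δ)) + 1)^t` of them, `t` = number of primes containing `δ`;
these contain `N` (as `δ ∣ N`), so `t ≤ d ω(N) ≤ D ω(N)` by `FCat.primes_over`; and
`absNorm (δ) = |Norm δ| = ∏_φ |φ δ| ≤ B^d ≤ 2^(2ℓD)`, so `Nat.log 2 (absNorm (δ)) + 1 ≤ 2Dℓ + 1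
≤ (2D+1) ℓ` (monotonicity).
(b) For a fixed ideal `(u') = (u)` with `u'` in the set, `u = u' η` with a unit `η`, and for every
`φ`, `|φ u'| ≤ B` and `|φ u'| ≥ |Norm u'| / ∏_{ψ ≠ φ} |ψ u'| ≥ 1 / B^(d-1)` (`|Norm u'| ≥ 1` as
`u' ∣ δ ≠ 0`), same for `u`; so
`|log |φ η|| = |log |φ u| - log |φ u'|| ≤ d log B ≤ D * 2ℓ` (`log B ≤ 2ℓ log 2 ≤ 2 ℓ`).
By `FCat.units_count D` with `H = 2Dℓ` (`D ≥ 1` because `d ≥ 1`) there are at most
`(C_7 * 2Dℓ)^(C_7)` such `η` (for `C_7` the constant of units_count).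
(c) Total `≤ ((2D+1)ℓ)^(D ω(N)) * (2 D C_7 ℓ)^(C_7) ≤ (Cℓ)^(C (ω(N)+1))` with
`C = 2D + 1 + 2 D C_7 + C_7` (all bases and exponents increase; note `C ℓ ≥ 1`).
-/

open scoped nonZeroDivisors NumberField
open NumberField

namespace FCat

private lemma nf8_norm (L : Type) [Field L] [NumberField L] (x : 𝓞 L) :
    ∏ φ : L →+* ℂ, ‖φ (x : L)‖ = ((Algebra.norm ℤ x).natAbs : ℝ) := by
  have h1 := Algebra.norm_eq_prod_embeddings ℚ ℂ (x : L)
  have h2 : ∏ σ : L →ₐ[ℚ] ℂ, ‖σ (x : L)‖ = ∏ φ : L →+* ℂ, ‖φ (x : L)‖ :=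
    (Fintype.prod_equiv (RingHom.equivRatAlgHom L ℂ) (fun f => ‖f (x : L)‖)
      (fun φ => ‖φ (x : L)‖) fun _ => by simp [RingHom.equivRatAlgHom_apply]).symm
  rw [← h2, ← norm_prod, ← h1, ← Algebra.coe_norm_int, Nat.cast_natAbs]
  simp

private lemma nf8_norm_le (L : Type) [Field L] [NumberField L] (x : 𝓞 L) (B : ℕ)
    (hB : ∀ φ : L →+* ℂ, ‖φ (x : L)‖ ≤ B) :
    (Algebra.norm ℤ x).natAbs ≤ B ^ Module.finrank ℚ L := by
  have h1 := nf8_norm L x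
  have h2 : ∏ φ : L →+* ℂ, ‖φ (x : L)‖ ≤ ∏ _φ : L →+* ℂ, (B : ℝ) :=
    Finset.prod_le_prod (fun φ _ => norm_nonneg _) fun φ _ => hB φ
  rw [Finset.prod_const, Finset.card_univ, NumberField.Embeddings.card, h1] at h2
  exact_mod_cast h2

private lemma nf8_lower (L : Type) [Field L] [NumberField L] (x : 𝓞 L) (hx : x ≠ 0) (B : ℕ)
    (hB1 : 1 ≤ B) (hB : ∀ φ : L →+* ℂ, ‖φ (x : L)‖ ≤ B) (φ : L →+* ℂ) :
    |Real.log ‖φ (x : L)‖| ≤ Module.finrank ℚ L * Real.log B ∧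
    Real.log ‖φ (x : L)‖ ≤ Real.log B ∧
    -((Module.finrank ℚ L - 1 : ℕ) : ℝ) * Real.log B ≤ Real.log ‖φ (x : L)‖ := by
  classical
  have hBr : (1 : ℝ) ≤ B := by exact_mod_cast hB1
  have hlogB : 0 ≤ Real.log B := Real.log_nonneg hBr
  have hpos : ∀ ψ : L →+* ℂ, 0 < ‖ψ (x : L)‖ := by
    intro ψ
    rw [norm_pos_iff, Ne, map_eq_zero]
    exact fun h => hx (by exact_mod_cast h)
  have h1 := nf8_norm L x
  have hn : 1 ≤ (Algebra.norm ℤ x).natAbs := by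
    rw [Nat.one_le_iff_ne_zero, Ne, Int.natAbs_eq_zero, Algebra.norm_eq_zero_iff]
    exact hx
  have hn' : (1 : ℝ) ≤ ((Algebra.norm ℤ x).natAbs : ℝ) := by exact_mod_cast hn
  rw [← h1] at hn'
  have hup : Real.log ‖φ (x : L)‖ ≤ Real.log B := Real.log_le_log (hpos φ) (hB φ)
  have hlog : 0 ≤ ∑ ψ : L →+* ℂ, Real.log ‖ψ (x : L)‖ := by
    rw [← Real.log_prod (fun ψ _ => (hpos ψ).ne')]
    exact Real.log_nonneg hn'
  have hsplit : ∑ ψ : L →+* ℂ, Real.log ‖ψ (x : L)‖ = Real.log ‖φ (x : L)‖ +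
      ∑ ψ ∈ Finset.univ.erase φ, Real.log ‖ψ (x : L)‖ :=
    (Finset.add_sum_erase _ _ (Finset.mem_univ φ)).symm
  have hrest : ∑ ψ ∈ Finset.univ.erase φ, Real.log ‖ψ (x : L)‖ ≤
      ((Module.finrank ℚ L - 1 : ℕ) : ℝ) * Real.log B := by
    refine (Finset.sum_le_card_nsmul _ _ (Real.log B) fun ψ _ =>
      Real.log_le_log (hpos ψ) (hB ψ)).trans (le_of_eq ?_)
    rw [Finset.card_erase_of_mem (Finset.mem_univ _), Finset.card_univ,
      NumberField.Embeddings.card, nsmul_eq_mul]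
  have hlow : -((Module.finrank ℚ L - 1 : ℕ) : ℝ) * Real.log B ≤ Real.log ‖φ (x : L)‖ := by
    linarith
  refine ⟨?_, hup, hlow⟩
  have hd : 1 ≤ Module.finrank ℚ L := Module.finrank_pos
  have hd1 : ((Module.finrank ℚ L - 1 : ℕ) : ℝ) ≤ Module.finrank ℚ L := by
    exact_mod_cast Nat.sub_le _ _
  have hd2 : (1 : ℝ) ≤ Module.finrank ℚ L := by exact_mod_cast hd
  rw [abs_le]
  constructor
  · have := mul_le_mul_of_nonneg_right hd1 hlogB
    linarith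
  · have := mul_le_mul_of_nonneg_right hd2 hlogB
    linarith

theorem div_count (D : ℕ) :
    ∃ C : ℕ, ∀ (L : Type) [Field L] [NumberField L], Module.finrank ℚ L ≤ D →
      ∀ N : ℕ, N ≠ 0 → ∀ B : ℕ, 2 ≤ B → ∀ δ : 𝓞 L, δ ≠ 0 → δ ∣ ((N : ℕ) : 𝓞 L) →
      (∀ φ : L →+* ℂ, ‖φ (δ : L)‖ ≤ B) →
      {u : 𝓞 L | u ∣ δ ∧ ∀ φ : L →+* ℂ, ‖φ (u : L)‖ ≤ B}.Finite ∧
      {u : 𝓞 L | u ∣ δ ∧ ∀ φ : L →+* ℂ, ‖φ (u : L)‖ ≤ B}.ncard
        ≤ (C * Nat.log 2 B) ^ (C * (N.primeFactors.card + 1)) := by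
  obtain ⟨C₇, hC₇⟩ := units_count D
  obtain ⟨C, hC⟩ : ∃ C, C = 2 * D + 1 + 2 * D * C₇ + C₇ := ⟨_, rfl⟩
  refine ⟨C, ?_⟩
  intro L _ _ hL N hN B hB δ hδ hdvd hδB
  obtain ⟨ℓ, hℓ⟩ : ∃ ℓ, ℓ = Nat.log 2 B := ⟨_, rfl⟩
  have hℓ1 : 1 ≤ ℓ := by
    rw [hℓ]
    exact Nat.log_pos (by norm_num) hB
  have hd : 1 ≤ Module.finrank ℚ L := Module.finrank_pos
  have hD : 1 ≤ D := hd.trans hL
  have hBlt : B < 2 ^ (ℓ + 1) := by
    rw [hℓ]
    exact Nat.lt_pow_succ_log_self (by norm_num) B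
  have hlogB : Real.log B ≤ 2 * ℓ := by
    have h1 : Real.log B ≤ Real.log ((2 : ℝ) ^ (ℓ + 1)) := by
      apply Real.log_le_log (by positivity)
      exact_mod_cast hBlt.le
    rw [Real.log_pow] at h1
    have h2 : Real.log 2 ≤ 1 := by
      have := Real.log_two_lt_d9
      linarith
    have h3 : ((ℓ + 1 : ℕ) : ℝ) * Real.log 2 ≤ ((ℓ + 1 : ℕ) : ℝ) * 1 :=
      mul_le_mul_of_nonneg_left h2 (Nat.cast_nonneg _)
    have h4 : (1 : ℝ) ≤ ℓ := by exact_mod_cast hℓ1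
    push_cast at h3 h1
    linarith
  -- the ideals
  obtain ⟨hfinP, hfinI, hcardI⟩ := div_ideals L δ hδ
  have hNmem : ∀ P : Ideal (𝓞 L), δ ∈ P → ((N : ℕ) : 𝓞 L) ∈ P := by
    intro P hP
    obtain ⟨z, hz⟩ := hdvd
    rw [hz]
    exact P.mul_mem_right z hP
  have ht : {P : Ideal (𝓞 L) | P.IsPrime ∧ δ ∈ P}.ncard ≤ D * N.primeFactors.card := by
    obtain ⟨h1, h2⟩ := primes_over L N hN
    have hsubP : {P : Ideal (𝓞 L) | P.IsPrime ∧ δ ∈ P} ⊆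
        {P : Ideal (𝓞 L) | P.IsPrime ∧ ((N : ℕ) : 𝓞 L) ∈ P} :=
      fun P hP => ⟨hP.1, hNmem P hP.2⟩
    refine (Set.ncard_le_ncard hsubP h1).trans (h2.trans ?_)
    exact Nat.mul_le_mul_right _ hL
  have habs : Nat.log 2 (Ideal.absNorm (Ideal.span {δ})) + 1 ≤ (2 * D + 1) * ℓ := by
    rw [Ideal.absNorm_span_singleton]
    have h1 := nf8_norm_le L δ B hδB
    have h2 : (Algebra.norm ℤ δ).natAbs ≤ 2 ^ ((ℓ + 1) * D) := by
      refine h1.trans ?_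
      rw [pow_mul]
      exact (Nat.pow_le_pow_right (by omega) hL).trans (Nat.pow_le_pow_left hBlt.le _)
    have h3 : Nat.log 2 (Algebra.norm ℤ δ).natAbs ≤ (ℓ + 1) * D := by
      refine (Nat.log_mono_right h2).trans ?_
      rw [Nat.log_pow (by norm_num)]
    nlinarith
  have hT : {I : Ideal (𝓞 L) | δ ∈ I}.ncard ≤ (C * ℓ) ^ (D * N.primeFactors.card) := by
    refine hcardI.trans ?_
    have h1 : Nat.log 2 (Ideal.absNorm (Ideal.span {δ})) + 1 ≤ C * ℓ := by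
      refine habs.trans (Nat.mul_le_mul_right _ ?_)
      rw [hC]
      omega
    refine (Nat.pow_le_pow_left h1 _).trans (Nat.pow_le_pow_right ?_ ht)
    exact (Nat.succ_pos _).trans_le h1
  -- the units
  have hH : 1 ≤ 2 * D * ℓ := by nlinarith
  obtain ⟨hfinU, hcardU⟩ := hC₇ L hL (2 * D * ℓ) hH
  have hU : {u : (𝓞 L)ˣ | ∀ φ : L →+* ℂ, |Real.log ‖φ ((u : 𝓞 L) : L)‖| ≤
      ((2 * D * ℓ : ℕ) : ℝ)}.ncard ≤ (C * ℓ) ^ C := by
    refine hcardU.trans ?_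
    have h1 : C₇ * (2 * D * ℓ) ≤ C * ℓ := by
      rw [hC]
      nlinarith [Nat.zero_le (ℓ * (2 * D + 1 + C₇))]
    have h2 : C₇ ≤ C := by
      rw [hC]
      omega
    have h3 : 0 < C * ℓ := by
      apply Nat.mul_pos _ hℓ1
      rw [hC]
      omega
    exact (Nat.pow_le_pow_left h1 _).trans (Nat.pow_le_pow_right h3 h2)
  have hne : ∀ u : 𝓞 L, u ∣ δ → u ≠ 0 := by
    intro u hu h0
    rw [h0, zero_dvd_iff] at hu
    exact hδ hu
  obtain ⟨hfin, hcard⟩ := ncard_le_of_fibres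
    (S := {u : 𝓞 L | u ∣ δ ∧ ∀ φ : L →+* ℂ, ‖φ (u : L)‖ ≤ B})
    (T := {I : Ideal (𝓞 L) | δ ∈ I}) (c := (C * ℓ) ^ C) (fun u => Ideal.span {u}) hfinI
    (by
      intro u hu
      exact Ideal.mem_span_singleton.2 hu.1)
    (by
      intro I _
      by_cases hex : ∃ u', (u' ∣ δ ∧ ∀ φ : L →+* ℂ, ‖φ ((u' : 𝓞 L) : L)‖ ≤ B) ∧
          Ideal.span {u'} = I
      · obtain ⟨u', ⟨hu'1, hu'2⟩, hu'3⟩ := hex
        have hsub : {x | x ∈ {u : 𝓞 L | u ∣ δ ∧ ∀ φ : L →+* ℂ, ‖φ (u : L)‖ ≤ B} ∧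
            Ideal.span {x} = I} ⊆ (fun η : (𝓞 L)ˣ => u' * (η : 𝓞 L)) ''
            {u : (𝓞 L)ˣ | ∀ φ : L →+* ℂ, |Real.log ‖φ ((u : 𝓞 L) : L)‖| ≤
              ((2 * D * ℓ : ℕ) : ℝ)} := by
          rintro x ⟨⟨hx1, hx2⟩, hx3⟩
          rw [← hu'3, Ideal.span_singleton_eq_span_singleton] at hx3
          obtain ⟨η, hη⟩ := hx3.symm
          refine ⟨η, ?_, hη⟩
          intro φ
          have hφ : φ (x : L) = φ (u' : L) * φ ((η : 𝓞 L) : L) := by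
            rw [← hη, ← map_mul]
            rfl
          have hx0 := hne x hx1
          have hu0 := hne u' hu'1
          have hn1 : ‖φ (u' : L)‖ ≠ 0 := by
            rw [Ne, norm_eq_zero, map_eq_zero]
            exact fun h => hu0 (by exact_mod_cast h)
          have hn2 : ‖φ ((η : 𝓞 L) : L)‖ ≠ 0 := by
            rw [Ne, norm_eq_zero, map_eq_zero]
            exact fun h => η.ne_zero (by exact_mod_cast h)
          have hlog : Real.log ‖φ (x : L)‖ = Real.log ‖φ (u' : L)‖ +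
              Real.log ‖φ ((η : 𝓞 L) : L)‖ := by
            rw [hφ, norm_mul, Real.log_mul hn1 hn2]
          obtain ⟨-, a2, a3⟩ := nf8_lower L x hx0 B (by omega) hx2 φ
          obtain ⟨-, b2, b3⟩ := nf8_lower L u' hu0 B (by omega) hu'2 φ
          have hBr : (1 : ℝ) ≤ B := by exact_mod_cast (by omega : 1 ≤ B)
          have hlogB0 : 0 ≤ Real.log B := Real.log_nonneg hBr
          have hcast : ((Module.finrank ℚ L - 1 : ℕ) : ℝ) = (Module.finrank ℚ L : ℝ) - 1 := by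
            rw [Nat.cast_sub hd, Nat.cast_one]
          rw [hcast] at a3 b3
          have hkey : (Module.finrank ℚ L : ℝ) * Real.log B ≤ D * (2 * ℓ) := by
            apply mul_le_mul _ hlogB hlogB0 (Nat.cast_nonneg _)
            exact_mod_cast hL
          have hfinal : ((2 * D * ℓ : ℕ) : ℝ) = D * (2 * ℓ) := by
            push_cast
            ring
          rw [hfinal, abs_le]
          constructor <;> nlinarith
        refine ⟨(hfinU.image _).subset hsub, ?_⟩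
        exact (Set.ncard_le_ncard hsub (hfinU.image _)).trans
          ((Set.ncard_image_le hfinU).trans hU)
      · have hempty : {x | x ∈ {u : 𝓞 L | u ∣ δ ∧ ∀ φ : L →+* ℂ, ‖φ (u : L)‖ ≤ B} ∧
            Ideal.span {x} = I} = ∅ := by
          rw [Set.eq_empty_iff_forall_notMem]
          rintro x ⟨hx1, hx2⟩
          exact hex ⟨x, hx1, hx2⟩
        rw [hempty]
        exact ⟨Set.finite_empty, by simp⟩)
  refine ⟨hfin, hcard.trans ?_⟩
  rw [← hℓ]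
  have h3 : 0 < C * ℓ := by
    apply Nat.mul_pos _ hℓ1
    rw [hC]
    omega
  calc {I : Ideal (𝓞 L) | δ ∈ I}.ncard * (C * ℓ) ^ C
      ≤ (C * ℓ) ^ (D * N.primeFactors.card) * (C * ℓ) ^ C := Nat.mul_le_mul_right _ hT
    _ = (C * ℓ) ^ (D * N.primeFactors.card + C) := (pow_add _ _ _).symm
    _ ≤ (C * ℓ) ^ (C * (N.primeFactors.card + 1)) := by
        apply Nat.pow_le_pow_right h3
        have h4 : D ≤ C := by
          rw [hC]
          omega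
        have h5 := Nat.mul_le_mul_right N.primeFactors.card h4
        nlinarith

end FCat
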