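import Mathlib
import Pool.Agent.FCat.NF8

/-!
# FCat / NF9  (MP_be1fae_nt, Theorem A): the equation `e^p - f^p = δ`

For every `D` and `p ≥ 2` there is `C` such that for every number field `L` of degree at most `D`
which contains a primitive `p`-th root of unity, `N ≥ 1`, `B ≥ 2`, `δ ∈ 𝓞 L` with `δ ∣ N`, `δ ≠ 0`
and conjugates at most `B`: the number of pairs `(e, f) ∈ (𝓞 L)^2` with `e^p - f^p = δ` and all
conjugates of `e, f` at most `B` is at most `(C log₂ B)^(C (ω(N)+1))`.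

PROOF.  Let `ζ ∈ 𝓞 L` be the primitive `p`-th root of unity.  `e^p - f^p = ∏_{j<p} (e - ζ^j f)`
(`IsPrimitiveRoot.pow_sub_pow_eq_prod_sub_mul` or so), so `u_0 = e - f` and `u_1 = e - ζ f` divide
`δ` (the factors `j = 0, 1`, `p ≥ 2`; simply: `e - f ∣ e^p - f^p` and
`e - ζ f ∣ e^p - (ζ f)^p = e^p - f^p`, `sub_dvd_pow_sub_pow`).  Their conjugates are
at most `2B ≤ B^2`.  `(e, f)` is determined by `(u_0, u_1)`:
`u_0 - u_1 = (ζ - 1) f` and `ζ ≠ 1`.  So the number of pairs is at most the square of the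
number of `u ∣ δ` with conjugates at most `B^2`, which by `FCat.div_count D` (with `B^2` for
`B`; `Nat.log 2 (B^2) ≤ 2 (Nat.log 2 B + 1) ≤ 4 Nat.log 2 B`) is at most
`(4 C_8 log₂ B)^(C_8 (ω(N)+1))`.  Take `C = 4 C_8 + 1` (the exponent is
`2 C_8 (ω+1) ≤ C (ω+1)`, base `≥ 1`).
-/

open scoped nonZeroDivisors NumberField
open NumberField

namespace FCat

lemma nf9_log_sq (B : ℕ) (hB : 2 ≤ B) : Nat.log 2 (B ^ 2) ≤ 4 * Nat.log 2 B := by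
  have h1 : 1 ≤ Nat.log 2 B := by
    exact Nat.log_pos (by norm_num) hB
  have h2 : B < 2 ^ (Nat.log 2 B + 1) := Nat.lt_pow_succ_log_self (by norm_num) B
  have h3 : B ^ 2 < 2 ^ (2 * Nat.log 2 B + 2) := by
    calc B ^ 2 < (2 ^ (Nat.log 2 B + 1)) ^ 2 := Nat.pow_lt_pow_left h2 (by norm_num)
      _ = 2 ^ (2 * Nat.log 2 B + 2) := by rw [← pow_mul]; ring_nf
  have h4 : Nat.log 2 (B ^ 2) < 2 * Nat.log 2 B + 2 := Nat.log_lt_of_lt_pow (by positivity) h3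
  omega

theorem fibre_count (D p : ℕ) (hp : 2 ≤ p) :
    ∃ C : ℕ, ∀ (L : Type) [Field L] [NumberField L], Module.finrank ℚ L ≤ D →
      (∃ ζ : L, IsPrimitiveRoot ζ p) →
      ∀ N : ℕ, N ≠ 0 → ∀ B : ℕ, 2 ≤ B → ∀ δ : 𝓞 L, δ ≠ 0 → δ ∣ ((N : ℕ) : 𝓞 L) →
      (∀ φ : L →+* ℂ, ‖φ (δ : L)‖ ≤ B) →
      {w : 𝓞 L × 𝓞 L | w.1 ^ p - w.2 ^ p = δ ∧
        ∀ φ : L →+* ℂ, ‖φ (w.1 : L)‖ ≤ B ∧ ‖φ (w.2 : L)‖ ≤ B}.Finite ∧
      {w : 𝓞 L × 𝓞 L | w.1 ^ p - w.2 ^ p = δ ∧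
        ∀ φ : L →+* ℂ, ‖φ (w.1 : L)‖ ≤ B ∧ ‖φ (w.2 : L)‖ ≤ B}.ncard
        ≤ (C * Nat.log 2 B) ^ (C * (N.primeFactors.card + 1)) := by
  obtain ⟨C8, hC8⟩ := div_count D
  refine ⟨4 * C8 + 1, ?_⟩
  intro L _ _ hD hζ N hN B hB δ hδ hδN hφδ
  obtain ⟨ζ, hζ⟩ := hζ
  have hp0 : NeZero p := ⟨by omega⟩
  obtain ⟨z, hz⟩ : ∃ z : 𝓞 L, (z : L) = ζ := ⟨hζ.toInteger, rfl⟩
  have hzp : z ^ p = 1 := by
    apply RingOfIntegers.ext
    rw [RingOfIntegers.coe_eq_algebraMap, map_pow, ← RingOfIntegers.coe_eq_algebraMap, hz,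
      hζ.pow_eq_one]
    simp
  have hz1 : z ≠ 1 := by
    intro h
    have h1 : ζ = 1 := by
      rw [← hz, h]
      simp
    exact hζ.ne_one (by omega) h1
  have hB2 : 2 ≤ B ^ 2 := by nlinarith
  have hBr : (2 : ℝ) ≤ (B : ℝ) := by exact_mod_cast hB
  have hδ2 : ∀ φ : L →+* ℂ, ‖φ (δ : L)‖ ≤ ((B ^ 2 : ℕ) : ℝ) := by
    intro φ
    refine (hφδ φ).trans ?_
    push_cast
    nlinarith
  obtain ⟨hfin, hcard⟩ := hC8 L hD N hN (B ^ 2) hB2 δ hδ hδN hδ2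
  set U : Set (𝓞 L) := {u : 𝓞 L | u ∣ δ ∧ ∀ φ : L →+* ℂ, ‖φ (u : L)‖ ≤ ((B ^ 2 : ℕ) : ℝ)}
    with hU
  set W : Set (𝓞 L × 𝓞 L) := {w : 𝓞 L × 𝓞 L | w.1 ^ p - w.2 ^ p = δ ∧
        ∀ φ : L →+* ℂ, ‖φ (w.1 : L)‖ ≤ B ∧ ‖φ (w.2 : L)‖ ≤ B} with hW
  let F : 𝓞 L × 𝓞 L → 𝓞 L × 𝓞 L := fun w => (w.1 - w.2, w.1 - z * w.2)
  have hmaps : ∀ w ∈ W, F w ∈ U ×ˢ U := by
    rintro ⟨e, f⟩ ⟨h1, h2⟩
    simp only at h1 h2
    refine ⟨⟨?_, ?_⟩, ⟨?_, ?_⟩⟩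
    · rw [← h1]
      exact sub_dvd_pow_sub_pow e f p
    · intro φ
      obtain ⟨h3, h4⟩ := h2 φ
      have h5 : φ ((F (e, f)).1 : L) = φ (e : L) - φ (f : L) := by
        simp [F]
      rw [h5]
      refine (norm_sub_le _ _).trans ?_
      push_cast
      nlinarith
    · rw [← h1]
      have h3 := sub_dvd_pow_sub_pow e (z * f) p
      rwa [mul_pow, hzp, one_mul] at h3
    · intro φ
      obtain ⟨h3, h4⟩ := h2 φ
      have h5 : φ ((F (e, f)).2 : L) = φ (e : L) - φ (z : L) * φ (f : L) := by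
        simp [F]
      have h6 : ‖φ (z : L)‖ = 1 := by
        apply Complex.norm_eq_one_of_pow_eq_one (n := p)
        · rw [← map_pow, hz, hζ.pow_eq_one, map_one]
        · omega
      rw [h5]
      refine (norm_sub_le _ _).trans ?_
      rw [norm_mul, h6, one_mul]
      push_cast
      nlinarith
  have hinj : Set.InjOn F W := by
    rintro ⟨e, f⟩ _ ⟨e', f'⟩ _ h
    simp only [F, Prod.mk.injEq] at h
    obtain ⟨h1, h2⟩ := h
    have h3 : (z - 1) * (f - f') = 0 := by linear_combination h1 - h2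
    have h4 : f = f' := by
      rcases mul_eq_zero.1 h3 with h4 | h4
      · exact absurd (sub_eq_zero.1 h4) hz1
      · exact sub_eq_zero.1 h4
    subst h4
    have h5 : e = e' := by linear_combination h1
    rw [h5]
  have hUU : (U ×ˢ U).Finite := hfin.prod hfin
  have hWfin : W.Finite := Set.Finite.of_finite_image (hUU.subset (by
    rintro _ ⟨w, hw, rfl⟩
    exact hmaps w hw)) hinj
  refine ⟨hWfin, ?_⟩
  have h1 : W.ncard ≤ (U ×ˢ U).ncard := Set.ncard_le_ncard_of_injOn F hmaps hinj hUU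
  have h2 : (U ×ˢ U).ncard = U.ncard ^ 2 := by
    rw [Set.ncard_prod, sq]
  have hl1 : 1 ≤ Nat.log 2 B := by
    exact Nat.log_pos (by norm_num) hB
  calc W.ncard ≤ U.ncard ^ 2 := h2 ▸ h1
    _ ≤ ((C8 * Nat.log 2 (B ^ 2)) ^ (C8 * (N.primeFactors.card + 1))) ^ 2 :=
        Nat.pow_le_pow_left hcard 2
    _ = (C8 * Nat.log 2 (B ^ 2)) ^ (2 * (C8 * (N.primeFactors.card + 1))) := by
        rw [← pow_mul]; ring_nf
    _ ≤ ((4 * C8 + 1) * Nat.log 2 B) ^ (2 * (C8 * (N.primeFactors.card + 1))) := by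
        apply Nat.pow_le_pow_left
        have := nf9_log_sq B hB
        nlinarith
    _ ≤ ((4 * C8 + 1) * Nat.log 2 B) ^ ((4 * C8 + 1) * (N.primeFactors.card + 1)) := by
        apply Nat.pow_le_pow_right
        · exact Nat.mul_pos (by omega) hl1
        · nlinarith

end FCat
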