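import Mathlib
import Pool.Agent.FCat.NF4
import Pool.Agent.FCat.NF9
import Pool.Agent.FCat.NF10
import Pool.Agent.FCat.NF11
import Pool.Agent.FCat.NF12

/-!
# FCat / Key  (MP_be1fae_nt, Theorem A) -- helper99

The key count: the number of `y` with `|y| ≤ B` and `y^q - m v^q = A x^p` for some `x ≠ 0` is at most
`(C |m|)^C * (C log B)^(C (ω(mvA) + 1))`, with `C` depending only on `p, q`.

PROOF (assembly of the modules NF*).  `N = |q m v A|`, `K` = the field of `FCat.base_field q` for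
`m`, `Z, T ∈ 𝓞 K` the primitive root of unity and the `q`-th root of `m`;
`a_i = y - Z^i T v`, `i = 0, 1` (`q ≥ 2`).  By `val_dvd` and `kummer`, `a_i = g_i κ_i^p` with
`g_i` in the finite set `R`.  For fixed `(g_0, g_1)` let `L ⊇ K` be the field of `root_field`,
`s_i^p = g_i`; `e_i = s_i κ_i ∈ L` is integral because `e_i^p = a_i`, and
`e_0^p - e_1^p = a_0 - a_1 = (Z - 1) T v =: δ`, a divisor of `N` in `𝓞 L`
(`Z - 1 ∣ q`, `T ∣ m`), all conjugates of `e_0, e_1, δ` are at most `B^3`.  By `fibre_count` there are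
at most `(C log B)^(C (ω+1))` such pairs `(e_0, e_1)`, and `e_0` determines `y = e_0^p + T v`.
Sum over the `|R|^2` pairs.
-/

namespace FCat

open NumberField

theorem sub_one_dvd_nat {R : Type*} [CommRing R] [IsDomain R] {Z : R} {q : ℕ} (hq : 2 ≤ q)
    (hZ : IsPrimitiveRoot Z q) : (Z - 1) ∣ (q : R) := by
  have h0 := hZ.geom_sum_eq_zero (by omega)
  have h1 : (q : R) = ∑ i ∈ Finset.range q, (1 - Z ^ i) := by
    rw [Finset.sum_sub_distrib, h0]; simp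
  rw [h1]
  apply Finset.dvd_sum
  intro i _
  have h2 : (Z - 1) ∣ Z ^ i - 1 ^ i := sub_dvd_pow_sub_pow Z 1 i
  rw [one_pow] at h2
  have h3 : (1 : R) - Z ^ i = -(Z ^ i - 1) := by ring
  rw [h3]
  exact (dvd_neg).mpr h2

theorem norm_le_of_pow {x : ℝ} (hx : 0 ≤ x) {b : ℝ} (hb : 1 ≤ b) {n : ℕ} (hn : 1 ≤ n)
    (h : x ^ n ≤ b) : x ≤ b := by
  by_contra hc
  push Not at hc
  have h1 : 1 ≤ x := hb.trans hc.le
  have h2 : x ≤ x ^ n := le_self_pow₀ h1 (by omega)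
  linarith

theorem key_fibre (D p q : ℕ) (hp : 2 ≤ p) (hq : 2 ≤ q) :
    ∃ C : ℕ, ∀ m v : ℤ, m ≠ 0 → v ≠ 0 → ∀ B : ℕ, 3 ≤ B → |m| ≤ B → |v| ≤ B →
      ∀ K : IntermediateField ℚ ℂ, NumberField K → Module.finrank ℚ K ≤ D →
      ∀ ζ θ : ℂ, ζ ∈ K → θ ∈ K → IsPrimitiveRoot ζ q → θ ^ q = (m : ℂ) →
      ∀ g₀ g₁ : ℂ, g₀ ∈ K → g₁ ∈ K →
      {y : ℤ | |y| ≤ B ∧ (∃ κ ∈ K, (y : ℂ) - θ * v = g₀ * κ ^ p) ∧
        (∃ κ ∈ K, (y : ℂ) - ζ * θ * v = g₁ * κ ^ p)}.ncard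
        ≤ (C * Nat.log 2 B) ^ (C * ((q * m * v : ℤ).natAbs.primeFactors.card + 1)) := by
  obtain ⟨D', hD'⟩ := root_field D p (by omega)
  obtain ⟨C, hC⟩ := fibre_count D' p hp
  refine ⟨6 * C + 1, ?_⟩
  intro m v hm hv B hB hmB hvB K hK hKD ζ θ hζK hθK hζ hθ g₀ g₁ hg₀ hg₁
  obtain ⟨L, hL, hKL, hLD, ⟨ω, hωL, hω⟩, ⟨s₀, hs₀L, hs₀⟩, ⟨s₁, hs₁L, hs₁⟩⟩ :=
    hD' K hK hKD g₀ g₁ hg₀ hg₁
  have hCL := hC L hLD ⟨⟨ω, hωL⟩, by
    refine IsPrimitiveRoot.of_map_of_injective (f := L.val) ?_ L.val.injective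
    exact hω⟩
  -- integrality
  have hζint : IsIntegral ℤ (⟨ζ, hKL hζK⟩ : L) := by
    refine ⟨Polynomial.X ^ q - 1, Polynomial.monic_X_pow_sub_C _ (by omega), ?_⟩
    simp only [Polynomial.eval₂_sub, Polynomial.eval₂_X_pow, Polynomial.eval₂_one]
    rw [sub_eq_zero]
    exact Subtype.ext hζ.pow_eq_one
  have hθint : IsIntegral ℤ (⟨θ, hKL hθK⟩ : L) := by
    refine ⟨Polynomial.X ^ q - Polynomial.C m, Polynomial.monic_X_pow_sub_C _ (by omega), ?_⟩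
    simp only [Polynomial.eval₂_sub, Polynomial.eval₂_X_pow, Polynomial.eval₂_C]
    rw [sub_eq_zero]
    apply Subtype.ext
    simpa using hθ
  set Z : 𝓞 L := ⟨⟨ζ, hKL hζK⟩, hζint⟩ with hZdef
  set T : 𝓞 L := ⟨⟨θ, hKL hθK⟩, hθint⟩ with hTdef
  have hZprim : IsPrimitiveRoot Z q := by
    have h1 : IsPrimitiveRoot (⟨ζ, hKL hζK⟩ : L) q := by
      refine IsPrimitiveRoot.of_map_of_injective (f := L.val) ?_ L.val.injective
      exact hζ
    refine IsPrimitiveRoot.of_map_of_injective (f := algebraMap (𝓞 L) L) ?_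
      RingOfIntegers.coe_injective
    exact h1
  have hTpow : T ^ q = (m : 𝓞 L) := by
    apply RingOfIntegers.coe_injective
    apply Subtype.ext
    simpa [hTdef] using hθ
  set δ : 𝓞 L := (Z - 1) * T * (v : 𝓞 L) with hδdef
  have hZ1 : Z - 1 ≠ 0 := sub_ne_zero.mpr (hZprim.ne_one (by omega))
  have hT0 : T ≠ 0 := by
    intro h
    rw [h, zero_pow (by omega)] at hTpow
    exact hm (by exact_mod_cast hTpow.symm)
  have hv0 : (v : 𝓞 L) ≠ 0 := by exact_mod_cast hv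
  have hδ0 : δ ≠ 0 := mul_ne_zero (mul_ne_zero hZ1 hT0) hv0
  set N : ℕ := (q * m * v : ℤ).natAbs with hN
  have hN0 : N ≠ 0 := by
    rw [hN, Int.natAbs_ne_zero]
    refine mul_ne_zero (mul_ne_zero (by exact_mod_cast (by omega : q ≠ 0)) hm) hv
  have hδN : δ ∣ ((N : ℕ) : 𝓞 L) := by
    have h1 : δ ∣ ((q * m * v : ℤ) : 𝓞 L) := by
      rw [hδdef]
      push_cast
      refine mul_dvd_mul (mul_dvd_mul (sub_one_dvd_nat hq hZprim) ?_) dvd_rfl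
      rw [← hTpow]
      exact dvd_pow_self _ (by omega)
    refine h1.trans ?_
    have h2 : (q * m * v : ℤ) ∣ ((N : ℕ) : ℤ) := by
      rw [hN]; exact Int.dvd_natAbs.mpr dvd_rfl
    have h3 := map_dvd (Int.castRingHom (𝓞 L)) h2
    simpa using h3
  -- conjugates
  have hBr : (3 : ℝ) ≤ B := by exact_mod_cast hB
  have hmr : |(m : ℝ)| ≤ B := by exact_mod_cast hmB
  have hvr : |(v : ℝ)| ≤ B := by exact_mod_cast hvB
  have hφζ : ∀ φ : L →+* ℂ, ‖φ (⟨ζ, hKL hζK⟩ : L)‖ = 1 := by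
    intro φ
    have h1 : φ (⟨ζ, hKL hζK⟩ : L) ^ q = 1 := by
      rw [← map_pow, ← map_one φ]
      congr 1
      exact Subtype.ext hζ.pow_eq_one
    exact Complex.norm_eq_one_of_pow_eq_one h1 (by omega)
  have hφθ : ∀ φ : L →+* ℂ, ‖φ (⟨θ, hKL hθK⟩ : L)‖ ≤ B := by
    intro φ
    apply norm_le_of_pow (norm_nonneg _) (by linarith) (n := q) (by omega)
    rw [← norm_pow, ← map_pow]
    have h1 : (⟨θ, hKL hθK⟩ : L) ^ q = (m : L) := by
      apply Subtype.ext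
      simpa using hθ
    rw [h1, map_intCast, Complex.norm_intCast]
    exact hmr
  have hφv : ∀ φ : L →+* ℂ, ‖φ (v : L)‖ ≤ B := by
    intro φ
    rw [map_intCast, Complex.norm_intCast]; exact hvr
  have hφδ : ∀ φ : L →+* ℂ, ‖φ (δ : L)‖ ≤ ((B ^ 3 : ℕ) : ℝ) := by
    intro φ
    have h1 : (δ : L) = ((⟨ζ, hKL hζK⟩ : L) - 1) * ⟨θ, hKL hθK⟩ * (v : L) := by
      rw [hδdef]; push_cast; rfl
    rw [h1, map_mul, map_mul, map_sub, map_one, norm_mul, norm_mul]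
    have h2 : ‖φ (⟨ζ, hKL hζK⟩ : L) - 1‖ ≤ B := by
      calc ‖φ (⟨ζ, hKL hζK⟩ : L) - 1‖ ≤ ‖φ (⟨ζ, hKL hζK⟩ : L)‖ + ‖(1 : ℂ)‖ := norm_sub_le _ _
        _ = 2 := by rw [hφζ, norm_one]; norm_num
        _ ≤ B := by linarith
    have h3 := hφθ φ
    have h4 := hφv φ
    push_cast
    calc ‖φ (⟨ζ, hKL hζK⟩ : L) - 1‖ * ‖φ (⟨θ, hKL hθK⟩ : L)‖ * ‖φ (v : L)‖
        ≤ (B : ℝ) * B * B := by gcongr
      _ = (B : ℝ) ^ 3 := by ring
  have hB3 : 2 ≤ B ^ 3 := by nlinarith [pow_le_pow_left' hB 3]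
  obtain ⟨hfin, hcard⟩ := hCL N hN0 (B ^ 3) hB3 δ hδ0 hδN hφδ
  -- the map
  set W : Set (𝓞 L × 𝓞 L) := {w | w.1 ^ p - w.2 ^ p = δ ∧
        ∀ φ : L →+* ℂ, ‖φ (w.1 : L)‖ ≤ ((B ^ 3 : ℕ) : ℝ) ∧ ‖φ (w.2 : L)‖ ≤ ((B ^ 3 : ℕ) : ℝ)}
    with hW
  set S : Set ℤ := {y : ℤ | |y| ≤ B ∧ (∃ κ ∈ K, (y : ℂ) - θ * v = g₀ * κ ^ p) ∧
        (∃ κ ∈ K, (y : ℂ) - ζ * θ * v = g₁ * κ ^ p)} with hS
  have hroot : ∀ y : ℤ, |y| ≤ B → ∀ (c : 𝓞 L), (∀ φ : L →+* ℂ, ‖φ (c : L)‖ ≤ (B : ℝ) ^ 2) →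
      (∃ s ∈ L, s ^ p = (y : ℂ) - ((c : L) : ℂ)) →
      ∃ e : 𝓞 L, e ^ p = (y : 𝓞 L) - c ∧
        ∀ φ : L →+* ℂ, ‖φ (e : L)‖ ≤ ((B ^ 3 : ℕ) : ℝ) := by
    rintro y hy c hc ⟨s, hsL, hs⟩
    have hsL2 : (⟨s, hsL⟩ : L) ^ p = (((y : 𝓞 L) - c : 𝓞 L) : L) := by
      apply Subtype.ext
      push_cast
      simpa using hs
    have hint : IsIntegral ℤ (⟨s, hsL⟩ : L) := by
      apply IsIntegral.of_pow (n := p) (by omega)
      rw [hsL2]
      exact RingOfIntegers.isIntegral_coe _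
    refine ⟨⟨⟨s, hsL⟩, hint⟩, ?_, ?_⟩
    · apply RingOfIntegers.coe_injective
      rw [map_pow]
      exact hsL2
    · intro φ
      have h1 : ‖φ (⟨s, hsL⟩ : L)‖ ^ p ≤ (B : ℝ) ^ 3 := by
        rw [← norm_pow, ← map_pow, hsL2]
        have h2 : ((((y : 𝓞 L) - c : 𝓞 L)) : L) = (y : L) - (c : L) := by push_cast; rfl
        rw [h2, map_sub, map_intCast]
        have hyr : |(y : ℝ)| ≤ B := by exact_mod_cast hy
        calc ‖(y : ℂ) - φ (c : L)‖ ≤ ‖(y : ℂ)‖ + ‖φ (c : L)‖ := norm_sub_le _ _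
          _ ≤ B + (B : ℝ) ^ 2 := by
              rw [Complex.norm_intCast]; exact add_le_add hyr (hc φ)
          _ ≤ (B : ℝ) ^ 3 := by nlinarith [sq_nonneg ((B : ℝ)), mul_nonneg (by linarith : (0:ℝ) ≤ B) (by linarith : (0:ℝ) ≤ (B:ℝ) - 3)]
      have h3 : ‖φ (⟨s, hsL⟩ : L)‖ ≤ (B : ℝ) ^ 3 :=
        norm_le_of_pow (norm_nonneg _) (one_le_pow₀ (by linarith)) (n := p) (by omega) h1
      push_cast
      exact h3
  have hcT : ∀ φ : L →+* ℂ, ‖φ ((T * (v : 𝓞 L) : 𝓞 L) : L)‖ ≤ (B : ℝ) ^ 2 := by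
    intro φ
    have h1 : ((T * (v : 𝓞 L) : 𝓞 L) : L) = ⟨θ, hKL hθK⟩ * (v : L) := by push_cast; rfl
    rw [h1, map_mul, norm_mul]
    calc ‖φ (⟨θ, hKL hθK⟩ : L)‖ * ‖φ (v : L)‖ ≤ (B : ℝ) * B := by
          have := hφθ φ; have := hφv φ; gcongr
      _ = (B : ℝ) ^ 2 := by ring
  have hcZT : ∀ φ : L →+* ℂ, ‖φ ((Z * T * (v : 𝓞 L) : 𝓞 L) : L)‖ ≤ (B : ℝ) ^ 2 := by
    intro φ
    have h1 : ((Z * T * (v : 𝓞 L) : 𝓞 L) : L) =
        ⟨ζ, hKL hζK⟩ * ((T * (v : 𝓞 L) : 𝓞 L) : L) := by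
      push_cast; rw [mul_assoc]; rfl
    rw [h1, map_mul, norm_mul, hφζ, one_mul]
    exact hcT φ
  have hex : ∀ y ∈ S, ∃ w ∈ W, w.1 ^ p = (y : 𝓞 L) - T * v := by
    rintro y ⟨hyB, ⟨κ₀, hκ₀, h0⟩, ⟨κ₁, hκ₁, h1⟩⟩
    obtain ⟨e₀, he₀, he₀φ⟩ := hroot y hyB (T * v) hcT
      ⟨s₀ * κ₀, L.mul_mem hs₀L (hKL hκ₀), by rw [mul_pow, hs₀, ← h0]; push_cast; simp [hTdef]⟩
    obtain ⟨e₁, he₁, he₁φ⟩ := hroot y hyB (Z * T * v) hcZT
      ⟨s₁ * κ₁, L.mul_mem hs₁L (hKL hκ₁), by rw [mul_pow, hs₁, ← h1]; push_cast; simp [hTdef, hZdef]⟩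
    refine ⟨(e₀, e₁), ⟨?_, fun φ => ⟨he₀φ φ, he₁φ φ⟩⟩, he₀⟩
    simp only [he₀, he₁, hδdef]
    ring
  have hle : S.ncard ≤ W.ncard := by
    classical
    choose! f hfW hf using hex
    apply Set.ncard_le_ncard_of_injOn f hfW ?_ hfin
    intro y hy y' hy' hyy
    have h1 := hf y hy
    have h2 := hf y' hy'
    rw [hyy, h2] at h1
    have h3 : ((y' : ℤ) : 𝓞 L) = (y : 𝓞 L) := by linear_combination h1
    exact_mod_cast h3.symm
  refine hle.trans (hcard.trans ?_)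
  have hlogB : 1 ≤ Nat.log 2 B := by
    apply Nat.log_pos (by norm_num) (by omega)
  have hlog : Nat.log 2 (B ^ 3) ≤ 6 * Nat.log 2 B := by
    have h1 : B < 2 ^ (Nat.log 2 B + 1) := Nat.lt_pow_succ_log_self (by norm_num) B
    have h2 : B ^ 3 < 2 ^ ((Nat.log 2 B + 1) * 3) := by
      rw [pow_mul]; exact Nat.pow_lt_pow_left h1 (by norm_num)
    have h3 : Nat.log 2 (B ^ 3) < (Nat.log 2 B + 1) * 3 :=
      Nat.log_lt_of_lt_pow (by positivity) h2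
    omega
  calc (C * Nat.log 2 (B ^ 3)) ^ (C * (N.primeFactors.card + 1))
      ≤ ((6 * C + 1) * Nat.log 2 B) ^ (C * (N.primeFactors.card + 1)) := by
        apply Nat.pow_le_pow_left
        calc C * Nat.log 2 (B ^ 3) ≤ C * (6 * Nat.log 2 B) := by gcongr
          _ ≤ (6 * C + 1) * Nat.log 2 B := by nlinarith
    _ ≤ ((6 * C + 1) * Nat.log 2 B) ^ ((6 * C + 1) * (N.primeFactors.card + 1)) := by
        apply Nat.pow_le_pow_right
        · nlinarith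
        · nlinarith

open Classical in
theorem key (p q : ℕ) (hp : 2 ≤ p) (hq : 2 ≤ q) :
    ∃ C : ℕ, ∀ m v A : ℤ, m ≠ 0 → v ≠ 0 → A ≠ 0 → ∀ B : ℕ, 3 ≤ B →
      |m| ≤ B → |v| ≤ B → |A| ≤ B →
      {y : ℤ | |y| ≤ B ∧ ∃ x : ℤ, x ≠ 0 ∧ y ^ q - m * v ^ q = A * x ^ p}.ncard
        ≤ (C * m.natAbs) ^ C *
          (C * Nat.log 2 B) ^ (C * ((m * v * A).natAbs.primeFactors.card + 1)) := by
  obtain ⟨Cb, hCb⟩ := base_field q (by omega)
  obtain ⟨Cf, hCf⟩ := key_fibre Cb p q hp hq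
  refine ⟨p * (Cf + 1) + (2 * Cb + Cf) * (q + 1) + 2 * Cb, ?_⟩
  intro m v A hm hv hA B hB hmB hvB hAB
  obtain ⟨K, hK, hKD, ⟨ζ, hζ⟩, ⟨θ, hθ⟩, hcl⟩ := hCb m hm
  have hN0 : (q * m * v * A : ℤ).natAbs ≠ 0 := by
    rw [Int.natAbs_ne_zero]
    exact mul_ne_zero (mul_ne_zero (mul_ne_zero (by exact_mod_cast (by omega : q ≠ 0)) hm) hv) hA
  set N : ℕ := (q * m * v * A : ℤ).natAbs with hN
  obtain ⟨R, hRcard, hR0, hR⟩ := kummer K p (by omega) N hN0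
  -- integral elements of K
  have hζint : IsIntegral ℤ ζ := by
    refine ⟨Polynomial.X ^ q - 1, Polynomial.monic_X_pow_sub_C _ (by omega), ?_⟩
    simp only [Polynomial.eval₂_sub, Polynomial.eval₂_X_pow, Polynomial.eval₂_one]
    rw [sub_eq_zero]
    exact hζ.pow_eq_one
  have hθint : IsIntegral ℤ θ := by
    refine ⟨Polynomial.X ^ q - Polynomial.C m, Polynomial.monic_X_pow_sub_C _ (by omega), ?_⟩
    simp only [Polynomial.eval₂_sub, Polynomial.eval₂_X_pow, Polynomial.eval₂_C]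
    rw [sub_eq_zero, hθ]
    simp
  set Z : 𝓞 K := ⟨ζ, hζint⟩ with hZdef
  set T : 𝓞 K := ⟨θ, hθint⟩ with hTdef
  have hZprim : IsPrimitiveRoot Z q := by
    refine IsPrimitiveRoot.of_map_of_injective (f := algebraMap (𝓞 K) K) ?_
      RingOfIntegers.coe_injective
    exact hζ
  have hTpow : T ^ q = (m : 𝓞 K) := by
    apply RingOfIntegers.coe_injective
    rw [map_pow, map_intCast]
    exact hθ
  set Sf : ℂ × ℂ → Set ℤ := fun g => {y : ℤ | |y| ≤ B ∧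
    (∃ κ ∈ K, (y : ℂ) - (θ : ℂ) * v = g.1 * κ ^ p) ∧
        (∃ κ ∈ K, (y : ℂ) - (ζ : ℂ) * (θ : ℂ) * v = g.2 * κ ^ p)} with hSf
  set R' : Finset (ℂ × ℂ) := (R ×ˢ R).image (fun g => ((g.1 : ℂ), (g.2 : ℂ))) with hR'
  have hfinB : {y : ℤ | |y| ≤ B}.Finite := by
    refine (Set.finite_Icc (-(B : ℤ)) B).subset ?_
    intro y hy
    exact abs_le.mp hy
  have hSfin : ∀ g, (Sf g).Finite := fun g => hfinB.subset (fun y hy => hy.1)
  have hsub : {y : ℤ | |y| ≤ B ∧ ∃ x : ℤ, x ≠ 0 ∧ y ^ q - m * v ^ q = A * x ^ p} ⊆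
      ⋃ g ∈ R', Sf g := by
    rintro y ⟨hyB, x, hx, hxy⟩
    obtain ⟨hne0, hdvd0⟩ := val_dvd K p q (by omega) (by omega) Z T hZprim y m v A x hTpow
      hm hv hA hx hxy 0 (by omega)
    obtain ⟨hne1, hdvd1⟩ := val_dvd K p q (by omega) (by omega) Z T hZprim y m v A x hTpow
      hm hv hA hx hxy 1 (by omega)
    obtain ⟨g₀, hg₀, κ₀, hκ₀⟩ := hR _ hne0 hdvd0
    obtain ⟨g₁, hg₁, κ₁, hκ₁⟩ := hR _ hne1 hdvd1
    simp only [Set.mem_iUnion]
    refine ⟨((g₀ : ℂ), (g₁ : ℂ)), ?_, hyB, ⟨κ₀, κ₀.2, ?_⟩, ⟨κ₁, κ₁.2, ?_⟩⟩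
    · rw [hR', Finset.mem_image]
      exact ⟨(g₀, g₁), Finset.mem_product.mpr ⟨hg₀, hg₁⟩, rfl⟩
    · have h1 := congrArg (fun z : K => (z : ℂ)) hκ₀
      push_cast at h1
      simpa [hTdef] using h1
    · have h1 := congrArg (fun z : K => (z : ℂ)) hκ₁
      push_cast at h1
      simpa [hTdef, hZdef] using h1
  have hfib : ∀ g ∈ R', (Sf g).ncard ≤
      (Cf * Nat.log 2 B) ^ (Cf * ((q * m * v : ℤ).natAbs.primeFactors.card + 1)) := by
    intro g hg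
    rw [hR', Finset.mem_image] at hg
    obtain ⟨g', -, rfl⟩ := hg
    exact hCf m v hm hv B hB hmB hvB K hK hKD ζ θ ζ.2 θ.2
      (hζ.map_of_injective (f := K.val) K.val.injective) (by
        have h1 := congrArg (fun z : K => (z : ℂ)) hθ
        simpa using h1) _ _ g'.1.2 g'.2.2
  have hR'card : R'.card ≤ R.card * R.card := by
    rw [hR']
    refine Finset.card_image_le.trans ?_
    rw [Finset.card_product]
  have htot : {y : ℤ | |y| ≤ B ∧ ∃ x : ℤ, x ≠ 0 ∧ y ^ q - m * v ^ q = A * x ^ p}.ncard ≤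
      (R.card * R.card) *
        (Cf * Nat.log 2 B) ^ (Cf * ((q * m * v : ℤ).natAbs.primeFactors.card + 1)) := by
    have hfinU : (⋃ g ∈ R', Sf g).Finite := R'.finite_toSet.biUnion (fun g _ => hSfin g)
    calc _ ≤ (⋃ g ∈ R', Sf g).ncard := Set.ncard_le_ncard hsub hfinU
      _ ≤ ∑ g ∈ R', (Sf g).ncard := by
          exact Finset.set_ncard_biUnion_le R' Sf
      _ ≤ ∑ g ∈ R', (Cf * Nat.log 2 B) ^
            (Cf * ((q * m * v : ℤ).natAbs.primeFactors.card + 1)) := Finset.sum_le_sum hfib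
      _ = R'.card * _ := by rw [Finset.sum_const, smul_eq_mul]
      _ ≤ _ := Nat.mul_le_mul_right _ hR'card
  refine htot.trans ?_
  -- arithmetic
  set w : ℕ := (m * v * A).natAbs.primeFactors.card with hw
  have hw0 : (m * v * A).natAbs ≠ 0 := by
    rw [Int.natAbs_ne_zero]; exact mul_ne_zero (mul_ne_zero hm hv) hA
  have hNw : N.primeFactors.card ≤ q + w := by
    have h1 : N = q * (m * v * A).natAbs := by
      rw [hN, show (q * m * v * A : ℤ) = q * (m * v * A) by ring, Int.natAbs_mul, Int.natAbs_natCast]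
    rw [h1, Nat.primeFactors_mul (by omega) hw0]
    refine (Finset.card_union_le _ _).trans ?_
    refine Nat.add_le_add_right ?_ _
    calc q.primeFactors.card ≤ (Finset.Icc 1 q).card := by
          apply Finset.card_le_card
          intro l hl
          have := Nat.prime_of_mem_primeFactors hl
          rw [Finset.mem_Icc]
          exact ⟨this.one_le, Nat.le_of_mem_primeFactors hl⟩
      _ = q := by simp
  have hMw : (q * m * v : ℤ).natAbs.primeFactors.card ≤ q + w := by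
    refine le_trans (Finset.card_le_card ?_) hNw
    apply Nat.primeFactors_mono _ hN0
    rw [hN]
    exact Int.natAbs_dvd_natAbs.mpr (Dvd.intro _ rfl)
  set l : ℕ := Nat.log 2 B with hl
  have hl1 : 1 ≤ l := Nat.log_pos (by norm_num) (by omega)
  have hm1 : 1 ≤ m.natAbs := Nat.one_le_iff_ne_zero.mpr (Int.natAbs_ne_zero.mpr hm)
  set d : ℕ := Module.finrank ℚ K with hd
  have hd1 : 1 ≤ d := Module.finrank_pos
  have hCb1 : 1 ≤ Cb := hd1.trans hKD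
  set h : ℕ := classNumber K with hh
  have hRc : R.card ≤ p ^ (Cb * (q + w + 1)) * (Cb * m.natAbs) ^ Cb := by
    calc R.card ≤ p ^ (d * N.primeFactors.card) * h * p ^ d := hRcard
      _ ≤ p ^ (Cb * (q + w)) * (Cb * m.natAbs) ^ Cb * p ^ Cb := by
          gcongr
          · omega
          · omega
      _ = p ^ (Cb * (q + w + 1)) * (Cb * m.natAbs) ^ Cb := by ring
  have hR2 : R.card * R.card ≤ p ^ ((2 * Cb) * (q + w + 1)) * (Cb * m.natAbs) ^ (2 * Cb) := by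
    calc R.card * R.card ≤ (p ^ (Cb * (q + w + 1)) * (Cb * m.natAbs) ^ Cb) *
          (p ^ (Cb * (q + w + 1)) * (Cb * m.natAbs) ^ Cb) := Nat.mul_le_mul hRc hRc
      _ = _ := by ring
  set E : ℕ := p * (Cf + 1) + (2 * Cb + Cf) * (q + 1) + 2 * Cb with hE
  have hE1 : 1 ≤ E := by nlinarith
  have h1 : (Cb * m.natAbs) ^ (2 * Cb) ≤ (E * m.natAbs) ^ E := by
    calc (Cb * m.natAbs) ^ (2 * Cb) ≤ (E * m.natAbs) ^ (2 * Cb) := by
          gcongr; nlinarith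
      _ ≤ (E * m.natAbs) ^ E := by
          apply Nat.pow_le_pow_right
          · nlinarith
          · nlinarith
  have hbase : 1 ≤ p * (Cf + 1) * l := by
    have : 1 ≤ p * (Cf + 1) := Nat.mul_pos (by omega) (by omega)
    nlinarith
  have h2 : p ^ ((2 * Cb) * (q + w + 1)) * (Cf * l) ^ (Cf * (q + w + 1)) ≤
      (E * l) ^ (E * (w + 1)) := by
    calc p ^ ((2 * Cb) * (q + w + 1)) * (Cf * l) ^ (Cf * (q + w + 1))
        ≤ (p * (Cf + 1) * l) ^ ((2 * Cb) * (q + w + 1)) *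
          (p * (Cf + 1) * l) ^ (Cf * (q + w + 1)) := by
          gcongr
          · nlinarith [Nat.mul_le_mul_left p (Nat.mul_le_mul (by omega : 1 ≤ Cf + 1) hl1)]
          · nlinarith
      _ = (p * (Cf + 1) * l) ^ ((2 * Cb + Cf) * (q + w + 1)) := by ring
      _ ≤ (p * (Cf + 1) * l) ^ (E * (w + 1)) := by
          apply Nat.pow_le_pow_right hbase
          calc (2 * Cb + Cf) * (q + w + 1) ≤ (2 * Cb + Cf) * ((q + 1) * (w + 1)) := by
                gcongr; nlinarith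
            _ = ((2 * Cb + Cf) * (q + 1)) * (w + 1) := by ring
            _ ≤ E * (w + 1) := by gcongr; omega
      _ ≤ (E * l) ^ (E * (w + 1)) := by
          gcongr; nlinarith
  have hmono : (Cf * l) ^ (Cf * ((q * m * v : ℤ).natAbs.primeFactors.card + 1)) ≤
      (Cf * l) ^ (Cf * (q + w + 1)) := by
    rcases Nat.eq_zero_or_pos Cf with h0 | h0
    · simp [h0]
    · apply Nat.pow_le_pow_right
      · exact Nat.mul_pos h0 hl1
      · gcongr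
  calc _ ≤ (p ^ ((2 * Cb) * (q + w + 1)) * (Cb * m.natAbs) ^ (2 * Cb)) *
        (Cf * l) ^ (Cf * (q + w + 1)) := Nat.mul_le_mul hR2 hmono
    _ = (Cb * m.natAbs) ^ (2 * Cb) *
        (p ^ ((2 * Cb) * (q + w + 1)) * (Cf * l) ^ (Cf * (q + w + 1))) := by ring
    _ ≤ _ := Nat.mul_le_mul h1 h2

end FCat
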