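import Mathlib
import Pool.Agent.FCat.CntC

/-!
Theorem A of MP_be1fae_nt: summing the representation count over `E = c z^r`, and the reduction to
the case where the large exponent is the third one.
-/

set_option autoImplicit false

namespace Pool.Agent.FCat

open Finset

lemma bset_mono (S : Finset ℕ) {P P' : ℕ} (h : P ≤ P') (N : ℕ) : Bset S P' N ⊆ Bset S P N := by
  rintro n ⟨hn, b, y, k, hk, hb⟩
  exact ⟨hn, b, y, k, h.trans hk, hb⟩

/-- The pairs `(B, E)` with `E = c z^k`, `k ≥ R`, `B = b y^q`, `E - B = a x^p`. -/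
def PQ (S : Finset ℕ) (p q R N : ℕ) : Set (ℤ × ℤ) :=
  {t | t.2 ∈ Bset S R N ∧ t.1 ∈ rep S p q N t.2}

lemma pq_finite (S : Finset ℕ) (p q R N : ℕ) : (PQ S p q R N).Finite := by
  refine Set.Finite.subset ((Set.finite_Icc (-(N : ℤ)) N).prod (Set.finite_Icc (-(N : ℤ)) N)) ?_
  rintro ⟨B, E⟩ ⟨⟨h1, -⟩, ⟨h2, -⟩⟩
  exact ⟨abs_le.mp h2, abs_le.mp h1⟩

lemma pq_mono (S : Finset ℕ) (p q : ℕ) {R R' : ℕ} (h : R ≤ R') (N : ℕ) :
    PQ S p q R' N ⊆ PQ S p q R N := by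
  rintro ⟨B, E⟩ ⟨h1, h2⟩
  exact ⟨bset_mono S h N h1, h2⟩

/-- The number of elements of `Bset S P N` is at most `K N^ε` once `P ≥ 2/ε`. -/
lemma bset_eps (S : Finset ℕ) (ε : ℝ) (hε : 0 < ε) :
    ∃ P : ℕ, ∃ K : ℝ, 1 ≤ P ∧ 0 < K ∧ ∀ N : ℕ, 1 ≤ N → ((Bset S P N).ncard : ℝ) ≤ K * (N : ℝ) ^ ε := by
  obtain ⟨K, hK, hpoly⟩ := polylog (S.card + 1) 1 (ε / 2) (by positivity)
  obtain ⟨P, hP⟩ := exists_nat_ge (1 / (ε / 2))
  refine ⟨P + 1, 6 * K, by omega, by positivity, fun N hN => ?_⟩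
  have hN1 : (1 : ℝ) ≤ N := by exact_mod_cast hN
  have h1 := bset_card S (P + 1) N (by omega) hN
  have h2 := hpoly N hN
  rw [one_mul] at h2
  have h3 : (N : ℝ) ^ (1 / ((P + 1 : ℕ) : ℝ)) ≤ (N : ℝ) ^ (ε / 2) := by
    apply Real.rpow_le_rpow_of_exponent_le hN1
    rw [div_le_iff₀ (by positivity)] at hP
    rw [div_le_iff₀ (by positivity)]
    push_cast
    nlinarith
  calc ((Bset S (P + 1) N).ncard : ℝ)
      ≤ 6 * ((Nat.log 2 N + 1 : ℕ) : ℝ) ^ (S.card + 1) * (N : ℝ) ^ (1 / ((P + 1 : ℕ) : ℝ)) := h1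
    _ ≤ 6 * (K * (N : ℝ) ^ (ε / 2)) * (N : ℝ) ^ (ε / 2) := by gcongr
    _ = 6 * K * (N : ℝ) ^ ε := by
        have : (N : ℝ) ^ ε = (N : ℝ) ^ (ε / 2) * (N : ℝ) ^ (ε / 2) := by
          rw [← Real.rpow_add (by positivity)]
          congr 1
          ring
        rw [this]
        ring

theorem count_pq (S : Finset ℕ) (p q : ℕ) (hp : 2 ≤ p) (hq : 2 ≤ q) (ε : ℝ) (hε : 0 < ε) :
    ∃ R : ℕ, ∃ K : ℝ, 1 ≤ R ∧ 0 < K ∧ ∀ N : ℕ, 1 ≤ N →
      ((PQ S p q R N).ncard : ℝ) ≤ K * (N : ℝ) ^ ε := by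
  classical
  obtain ⟨C, hC1, hrep⟩ := rep_card S p q hp hq
  obtain ⟨R1, K1, hR1, hK1, hmain⟩ := main_bound C (S.card + 1) (ε / 2) (by positivity)
  obtain ⟨R2, K2, hR2, hK2, hB⟩ := bset_eps S (ε / 2) (by positivity)
  refine ⟨R1 + R2, K2 * K1, by omega, by positivity, fun N hN => ?_⟩
  have hN1 : (1 : ℝ) ≤ N := by exact_mod_cast hN
  set T : Finset ℤ := (bset_finite S (R1 + R2) N).toFinset with hT
  have hsub : PQ S p q (R1 + R2) N ⊆ ⋃ E ∈ T, (fun B => (B, E)) '' (rep S p q N E) := by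
    rintro ⟨B, E⟩ ⟨h1, h2⟩
    rw [Set.mem_iUnion₂]
    exact ⟨E, (Set.Finite.mem_toFinset _).mpr h1, B, h2, rfl⟩
  have hfin : (⋃ E ∈ T, (fun B => (B, E)) '' (rep S p q N E)).Finite := by
    apply Set.Finite.biUnion (Finset.finite_toSet T)
    intro E _
    apply Set.Finite.image
    refine Set.Finite.subset (Set.finite_Icc (-(N : ℤ)) N) ?_
    rintro B ⟨h, -⟩
    exact abs_le.mp h
  have hE : ∀ E ∈ T, (((fun B => (B, E)) '' (rep S p q N E)).ncard : ℝ) ≤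
      K1 * (N : ℝ) ^ (ε / 2) := by
    intro E hET
    obtain ⟨hEN, c, z, r, hr, hc, hz, rfl⟩ := (Set.Finite.mem_toFinset _).mp hET
    have h1 : ((fun B => (B, c * z ^ r)) '' (rep S p q N (c * z ^ r))).ncard ≤
        (rep S p q N (c * z ^ r)).ncard := by
      apply Set.ncard_image_le
      refine Set.Finite.subset (Set.finite_Icc (-(N : ℤ)) N) ?_
      rintro B ⟨h, -⟩
      exact abs_le.mp h
    have h2 := hrep N hN c z r hc hz hEN
    have hz1 : 1 ≤ z.natAbs := Int.natAbs_pos.mpr hz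
    have h3 : z.natAbs ^ R1 ≤ N := by
      have h4 : z.natAbs ^ R1 ≤ z.natAbs ^ r := Nat.pow_le_pow_right hz1 (by omega)
      have h5 : z.natAbs ^ r ≤ (c * z ^ r).natAbs := by
        rw [Int.natAbs_mul, Int.natAbs_pow]
        exact Nat.le_mul_of_pos_left _ (Int.natAbs_pos.mpr hc.1)
      have h6 : (c * z ^ r).natAbs ≤ N := by
        have : (((c * z ^ r).natAbs : ℕ) : ℤ) ≤ N := by rw [Int.natCast_natAbs]; exact hEN
        exact_mod_cast this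
      exact h4.trans (h5.trans h6)
    have h7 := hmain N z.natAbs hN hz1 h3
    have h8 : ((rep S p q N (c * z ^ r)).ncard : ℝ) ≤
        (((C * z.natAbs) ^ C *
          (C * (Nat.log 2 N + C)) ^ (C * (z.natAbs.primeFactors.card + (S.card + 1))) : ℕ) : ℝ) := by
      exact_mod_cast h2
    calc (((fun B => (B, c * z ^ r)) '' (rep S p q N (c * z ^ r))).ncard : ℝ)
        ≤ ((rep S p q N (c * z ^ r)).ncard : ℝ) := by exact_mod_cast h1
      _ ≤ _ := h8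
      _ = ((C * z.natAbs : ℕ) : ℝ) ^ C *
          ((C * (Nat.log 2 N + C) : ℕ) : ℝ) ^ (C * (z.natAbs.primeFactors.card + (S.card + 1))) := by
          push_cast
          ring
      _ ≤ _ := h7
  have hTcard : (T.card : ℝ) ≤ K2 * (N : ℝ) ^ (ε / 2) := by
    have h1 : T.card = (Bset S (R1 + R2) N).ncard :=
      (Set.ncard_eq_toFinset_card _ (bset_finite S (R1 + R2) N)).symm
    have h2 : (Bset S (R1 + R2) N).ncard ≤ (Bset S R2 N).ncard :=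
      Set.ncard_le_ncard (bset_mono S (by omega) N) (bset_finite S R2 N)
    calc (T.card : ℝ) ≤ ((Bset S R2 N).ncard : ℝ) := by rw [h1]; exact_mod_cast h2
      _ ≤ _ := hB N hN
  calc ((PQ S p q (R1 + R2) N).ncard : ℝ)
      ≤ ((⋃ E ∈ T, (fun B => (B, E)) '' (rep S p q N E)).ncard : ℝ) := by
        exact_mod_cast Set.ncard_le_ncard hsub hfin
    _ ≤ ((∑ E ∈ T, ((fun B => (B, E)) '' (rep S p q N E)).ncard : ℕ) : ℝ) := by
        exact_mod_cast Finset.set_ncard_biUnion_le _ _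
    _ = ∑ E ∈ T, (((fun B => (B, E)) '' (rep S p q N E)).ncard : ℝ) := by push_cast; rfl
    _ ≤ ∑ E ∈ T, K1 * (N : ℝ) ^ (ε / 2) := Finset.sum_le_sum hE
    _ = (T.card : ℝ) * (K1 * (N : ℝ) ^ (ε / 2)) := by rw [Finset.sum_const, nsmul_eq_mul]
    _ ≤ (K2 * (N : ℝ) ^ (ε / 2)) * (K1 * (N : ℝ) ^ (ε / 2)) := by gcongr
    _ = K2 * K1 * (N : ℝ) ^ ε := by
        have : (N : ℝ) ^ ε = (N : ℝ) ^ (ε / 2) * (N : ℝ) ^ (ε / 2) := by
          rw [← Real.rpow_add (by positivity)]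
          congr 1
          ring
        rw [this]
        ring

/-- Common `R`, `K` for all `p, q < P`. -/
theorem count_pq_unif (S : Finset ℕ) (P : ℕ) (ε : ℝ) (hε : 0 < ε) :
    ∃ R : ℕ, ∃ K : ℝ, 1 ≤ R ∧ 0 < K ∧ ∀ R' : ℕ, R ≤ R' → ∀ p q : ℕ, 2 ≤ p → p < P → 2 ≤ q → q < P →
      ∀ N : ℕ, 1 ≤ N → ((PQ S p q R' N).ncard : ℝ) ≤ K * (N : ℝ) ^ ε := by
  classical
  have h : ∀ t : ℕ × ℕ, ∃ R : ℕ, ∃ K : ℝ, 1 ≤ R ∧ 0 < K ∧ (2 ≤ t.1 → 2 ≤ t.2 → ∀ N : ℕ, 1 ≤ N →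
      ((PQ S t.1 t.2 R N).ncard : ℝ) ≤ K * (N : ℝ) ^ ε) := by
    intro t
    by_cases ht : 2 ≤ t.1 ∧ 2 ≤ t.2
    · obtain ⟨R, K, h1, h2, h3⟩ := count_pq S t.1 t.2 ht.1 ht.2 ε hε
      exact ⟨R, K, h1, h2, fun _ _ => h3⟩
    · exact ⟨1, 1, le_rfl, one_pos, fun h1 h2 => absurd ⟨h1, h2⟩ ht⟩
  choose Rf Kf hR hK hc using h
  set D : Finset (ℕ × ℕ) := Finset.range P ×ˢ Finset.range P with hD
  refine ⟨∑ t ∈ D, Rf t + 1, ∑ t ∈ D, Kf t + 1, by omega, ?_, ?_⟩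
  · have : 0 ≤ ∑ t ∈ D, Kf t := Finset.sum_nonneg (fun t _ => (hK t).le)
    linarith
  · intro R' hR' p q hp hpP hq hqP N hN
    have hmem : (p, q) ∈ D := by
      rw [hD, Finset.mem_product, Finset.mem_range, Finset.mem_range]
      exact ⟨hpP, hqP⟩
    have h1 : Rf (p, q) ≤ ∑ t ∈ D, Rf t :=
      Finset.single_le_sum (f := Rf) (fun t _ => Nat.zero_le _) hmem
    have h2 : Kf (p, q) ≤ ∑ t ∈ D, Kf t := Finset.single_le_sum (f := Kf) (fun t _ => (hK t).le) hmem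
    have h3 : (PQ S p q R' N).ncard ≤ (PQ S p q (Rf (p, q)) N).ncard :=
      Set.ncard_le_ncard (pq_mono S p q (by omega) N) (pq_finite S p q _ N)
    have hX : (0 : ℝ) ≤ (N : ℝ) ^ ε := by positivity
    calc ((PQ S p q R' N).ncard : ℝ) ≤ ((PQ S p q (Rf (p, q)) N).ncard : ℝ) := by exact_mod_cast h3
      _ ≤ Kf (p, q) * (N : ℝ) ^ ε := hc (p, q) hp hq N hN
      _ ≤ (∑ t ∈ D, Kf t + 1) * (N : ℝ) ^ ε := by
          apply mul_le_mul_of_nonneg_right _ hX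
          linarith

/-- The triples `(a x^p, b y^q, c z^r)` with `a x^p + b y^q = c z^r`, all three terms at most `N` in
absolute value, `p, q ≥ 2` and `r ≥ R`. -/
def Tr (S : Finset ℕ) (R N : ℕ) : Set (ℤ × ℤ × ℤ) :=
  {t | |t.1| ≤ N ∧ |t.2.1| ≤ N ∧ |t.2.2| ≤ N ∧ t.1 + t.2.1 = t.2.2 ∧
    ∃ a b c x y z : ℤ, ∃ p q r : ℕ, SU S a ∧ SU S b ∧ SU S c ∧ x ≠ 0 ∧ y ≠ 0 ∧ z ≠ 0 ∧
      2 ≤ p ∧ 2 ≤ q ∧ R ≤ r ∧ t.1 = a * x ^ p ∧ t.2.1 = b * y ^ q ∧ t.2.2 = c * z ^ r}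

lemma tr_finite (S : Finset ℕ) (R N : ℕ) : (Tr S R N).Finite := by
  refine Set.Finite.subset ((Set.finite_Icc (-(N : ℤ)) N).prod
    ((Set.finite_Icc (-(N : ℤ)) N).prod (Set.finite_Icc (-(N : ℤ)) N))) ?_
  rintro ⟨A, B, E⟩ ⟨h1, h2, h3, -⟩
  exact ⟨abs_le.mp h1, abs_le.mp h2, abs_le.mp h3⟩

theorem tr_card (S : Finset ℕ) (ε : ℝ) (hε : 0 < ε) :
    ∃ R : ℕ, ∃ K : ℝ, 1 ≤ R ∧ 0 < K ∧ ∀ N : ℕ, 1 ≤ N → ((Tr S R N).ncard : ℝ) ≤ K * (N : ℝ) ^ ε := by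
  classical
  obtain ⟨P, K1, hP, hK1, hB⟩ := bset_eps S (ε / 2) (by positivity)
  obtain ⟨R0, K2, hR0, hK2, hpq⟩ := count_pq_unif S P ε hε
  refine ⟨R0 + P, (P * P : ℝ) * K2 + 2 * (K1 * K1), by omega, by positivity, fun N hN => ?_⟩
  have hN1 : (1 : ℝ) ≤ N := by exact_mod_cast hN
  set R := R0 + P with hR
  set D : Finset (ℕ × ℕ) := (Finset.range P ×ˢ Finset.range P).filter (fun t => 2 ≤ t.1 ∧ 2 ≤ t.2)
    with hD
  set BB : Set (ℤ × ℤ) := (Bset S P N) ×ˢ (Bset S P N) with hBB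
  have hBBfin : BB.Finite := (bset_finite S P N).prod (bset_finite S P N)
  set U1 : Set (ℤ × ℤ) := ⋃ t ∈ D, PQ S t.1 t.2 R N with hU1
  have hU1fin : U1.Finite := Set.Finite.biUnion (Finset.finite_toSet D) (fun t _ => pq_finite S _ _ _ _)
  set U3 : Set (ℤ × ℤ) := (fun t : ℤ × ℤ => (t.2 - t.1, t.2)) '' BB with hU3
  have hU3fin : U3.Finite := hBBfin.image _
  set f : ℤ × ℤ × ℤ → ℤ × ℤ := fun t => (t.2.1, t.2.2) with hf
  have hinj : Set.InjOn f (Tr S R N) := by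
    rintro ⟨A, B, E⟩ ⟨-, -, -, h1, -⟩ ⟨A', B', E'⟩ ⟨-, -, -, h2, -⟩ h
    simp only [hf, Prod.mk.injEq] at h
    obtain ⟨hB', hE'⟩ := h
    simp only at h1 h2
    subst hB' hE'
    have : A = A' := by omega
    rw [this]
  have hmaps : ∀ t ∈ Tr S R N, f t ∈ U1 ∪ (BB ∪ U3) := by
    rintro ⟨A, B, E⟩ ⟨hA, hBN, hE, hsum, a, b, c, x, y, z, p, q, r, ha, hb, hc, hx, hy, hz, hp, hq, hr,
      h1, h2, h3⟩
    simp only at hA hBN hE hsum h1 h2 h3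
    have hEB : E ∈ Bset S R N := ⟨hE, c, z, r, hr, hc, hz, h3⟩
    have hEP : E ∈ Bset S P N := bset_mono S (by omega) N hEB
    by_cases hpP : p < P
    · by_cases hqP : q < P
      · left
        rw [hU1, Set.mem_iUnion₂]
        refine ⟨(p, q), ?_, hEB, ?_⟩
        · rw [hD, Finset.mem_filter, Finset.mem_product, Finset.mem_range, Finset.mem_range]
          exact ⟨⟨hpP, hqP⟩, hp, hq⟩
        · refine ⟨hBN, a, b, x, y, ha, hb, hx, hy, ?_, h2⟩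
          simp only [hf]
          rw [← h1]
          omega
      · right; left
        exact ⟨⟨hBN, b, y, q, by omega, hb, hy, h2⟩, hEP⟩
    · right; right
      refine ⟨(A, E), ⟨⟨hA, a, x, p, by omega, ha, hx, h1⟩, hEP⟩, ?_⟩
      simp only [hf, Prod.mk.injEq, and_true]
      omega
  have hcard : (Tr S R N).ncard ≤ U1.ncard + (BB.ncard + U3.ncard) := by
    calc (Tr S R N).ncard ≤ (U1 ∪ (BB ∪ U3)).ncard :=
          Set.ncard_le_ncard_of_injOn f hmaps hinj (hU1fin.union (hBBfin.union hU3fin))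
      _ ≤ U1.ncard + (BB ∪ U3).ncard := Set.ncard_union_le _ _
      _ ≤ U1.ncard + (BB.ncard + U3.ncard) := Nat.add_le_add_left (Set.ncard_union_le _ _) _
  have hX : (0 : ℝ) ≤ (N : ℝ) ^ ε := by positivity
  have hc1 : (U1.ncard : ℝ) ≤ (P * P : ℝ) * (K2 * (N : ℝ) ^ ε) := by
    calc (U1.ncard : ℝ) ≤ ((∑ t ∈ D, (PQ S t.1 t.2 R N).ncard : ℕ) : ℝ) := by
          exact_mod_cast Finset.set_ncard_biUnion_le _ _
      _ = ∑ t ∈ D, ((PQ S t.1 t.2 R N).ncard : ℝ) := by push_cast; rfl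
      _ ≤ ∑ t ∈ D, K2 * (N : ℝ) ^ ε := by
          apply Finset.sum_le_sum
          intro t ht
          rw [hD, Finset.mem_filter, Finset.mem_product, Finset.mem_range, Finset.mem_range] at ht
          exact hpq R (by omega) t.1 t.2 ht.2.1 ht.1.1 ht.2.2 ht.1.2 N hN
      _ = (D.card : ℝ) * (K2 * (N : ℝ) ^ ε) := by rw [Finset.sum_const, nsmul_eq_mul]
      _ ≤ (P * P : ℝ) * (K2 * (N : ℝ) ^ ε) := by
          apply mul_le_mul_of_nonneg_right _ (by positivity)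
          have : D.card ≤ P * P := by
            calc D.card ≤ (Finset.range P ×ˢ Finset.range P).card := Finset.card_filter_le _ _
              _ = P * P := by rw [Finset.card_product, Finset.card_range]
          exact_mod_cast this
  have hc2 : (BB.ncard : ℝ) ≤ K1 * K1 * (N : ℝ) ^ ε := by
    have h1 : BB.ncard = (Bset S P N).ncard * (Bset S P N).ncard := by
      rw [hBB, Set.ncard_prod]
    have h2 := hB N hN
    calc (BB.ncard : ℝ) = ((Bset S P N).ncard : ℝ) * ((Bset S P N).ncard : ℝ) := by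
          rw [h1]; push_cast; ring
      _ ≤ (K1 * (N : ℝ) ^ (ε / 2)) * (K1 * (N : ℝ) ^ (ε / 2)) := by gcongr
      _ = K1 * K1 * (N : ℝ) ^ ε := by
          have : (N : ℝ) ^ ε = (N : ℝ) ^ (ε / 2) * (N : ℝ) ^ (ε / 2) := by
            rw [← Real.rpow_add (by positivity)]
            congr 1
            ring
          rw [this]
          ring
  have hc3 : (U3.ncard : ℝ) ≤ K1 * K1 * (N : ℝ) ^ ε := by
    refine le_trans ?_ hc2
    exact_mod_cast Set.ncard_image_le hBBfin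
  calc ((Tr S R N).ncard : ℝ) ≤ ((U1.ncard + (BB.ncard + U3.ncard) : ℕ) : ℝ) := by
        exact_mod_cast hcard
    _ = (U1.ncard : ℝ) + ((BB.ncard : ℝ) + (U3.ncard : ℝ)) := by push_cast; ring
    _ ≤ (P * P : ℝ) * (K2 * (N : ℝ) ^ ε) + (K1 * K1 * (N : ℝ) ^ ε + K1 * K1 * (N : ℝ) ^ ε) := by
        gcongr
    _ = _ := by ring

end Pool.Agent.FCat
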