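import Mathlib
import Pool.Agent.FCat.CntD

/-!
Theorem A of MP_be1fae_nt, all positions of the large exponent, and the corollary on all
`S`-solutions that uses the theorem of Darmon and Granville as a hypothesis.
-/

set_option autoImplicit false

namespace Pool.Agent.FCat

open Finset

/-- The triples `(a x^p, b y^q, c z^r)` with `a x^p + b y^q = c z^r`, all terms at most `N` in absolute
value, `a, b, c` being `S`-units, `x, y, z` nonzero, `p, q, r ≥ 2` and one of `p, q, r` at least `R`. -/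
def TrMax (S : Finset ℕ) (R N : ℕ) : Set (ℤ × ℤ × ℤ) :=
  {t | |t.1| ≤ N ∧ |t.2.1| ≤ N ∧ |t.2.2| ≤ N ∧
    ∃ a b c x y z : ℤ, ∃ p q r : ℕ, SU S a ∧ SU S b ∧ SU S c ∧ x ≠ 0 ∧ y ≠ 0 ∧ z ≠ 0 ∧
      2 ≤ p ∧ 2 ≤ q ∧ 2 ≤ r ∧ R ≤ max p (max q r) ∧
      a * x ^ p + b * y ^ q = c * z ^ r ∧ t = (a * x ^ p, b * y ^ q, c * z ^ r)}

theorem trMax_card (S : Finset ℕ) (ε : ℝ) (hε : 0 < ε) :
    ∃ R : ℕ, ∃ K : ℝ, 0 < K ∧ ∀ N : ℕ, 1 ≤ N → ((TrMax S R N).ncard : ℝ) ≤ K * (N : ℝ) ^ ε := by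
  classical
  obtain ⟨R, K, hR, hK, hT⟩ := tr_card S ε hε
  refine ⟨R, 3 * K, by positivity, fun N hN => ?_⟩
  have hfin := tr_finite S R N
  set V : Set (ℤ × ℤ × ℤ) := Tr S R N with hV
  set V1 : Set (ℤ × ℤ × ℤ) := (fun t : ℤ × ℤ × ℤ => (t.2.2, -t.2.1, t.1)) '' V with hV1
  set V2 : Set (ℤ × ℤ × ℤ) := (fun t : ℤ × ℤ × ℤ => (-t.2.1, t.2.2, t.1)) '' V with hV2
  have hV1f : V1.Finite := hfin.image _
  have hV2f : V2.Finite := hfin.image _
  have hsub : TrMax S R N ⊆ V ∪ (V1 ∪ V2) := by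
    rintro t ⟨hA, hB, hE, a, b, c, x, y, z, p, q, r, ha, hb, hc, hx, hy, hz, hp, hq, hr, hmax, heq, rfl⟩
    simp only at hA hB hE
    rcases le_max_iff.mp hmax with h | h
    · -- `p ≥ R` : `(E, -B, A)` is in `Tr`
      right; left
      refine ⟨(c * z ^ r, -(b * y ^ q), a * x ^ p), ⟨hE, by simpa using hB, hA, ?_, c, -b, a, z, y, x,
        r, q, p, hc, hb.neg, ha, hz, hy, hx, hr, hq, h, rfl, ?_, rfl⟩, ?_⟩
      · simp only
        linarith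
      · simp only
        ring
      · simp
    · rcases le_max_iff.mp h with h | h
      · -- `q ≥ R` : `(E, -A, B)` is in `Tr`
        right; right
        refine ⟨(c * z ^ r, -(a * x ^ p), b * y ^ q), ⟨hE, by simpa using hA, hB, ?_, c, -a, b, z, x,
          y, r, p, q, hc, ha.neg, hb, hz, hx, hy, hr, hp, h, rfl, ?_, rfl⟩, ?_⟩
        · simp only
          linarith
        · simp only
          ring
        · simp
      · left
        exact ⟨hA, hB, hE, heq, a, b, c, x, y, z, p, q, r, ha, hb, hc, hx, hy, hz, hp, hq, h,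
          rfl, rfl, rfl⟩
  have hcard : (TrMax S R N).ncard ≤ V.ncard + (V.ncard + V.ncard) := by
    calc (TrMax S R N).ncard ≤ (V ∪ (V1 ∪ V2)).ncard :=
          Set.ncard_le_ncard hsub (hfin.union (hV1f.union hV2f))
      _ ≤ V.ncard + (V1 ∪ V2).ncard := Set.ncard_union_le _ _
      _ ≤ V.ncard + (V1.ncard + V2.ncard) := Nat.add_le_add_left (Set.ncard_union_le _ _) _
      _ ≤ V.ncard + (V.ncard + V.ncard) := by
          have h1 : V1.ncard ≤ V.ncard := Set.ncard_image_le hfin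
          have h2 : V2.ncard ≤ V.ncard := Set.ncard_image_le hfin
          omega
  have h := hT N hN
  calc ((TrMax S R N).ncard : ℝ) ≤ ((V.ncard + (V.ncard + V.ncard) : ℕ) : ℝ) := by
        exact_mod_cast hcard
    _ = 3 * (V.ncard : ℝ) := by push_cast; ring
    _ ≤ 3 * (K * (N : ℝ) ^ ε) := by gcongr
    _ = _ := by ring

/-- The theorem of Darmon and Granville (1995): for nonzero `a, b, c` and `1/p + 1/q + 1/r < 1` the
equation `a x^p + b y^q = c z^r` has finitely many solutions with `gcd(x, y, z) = 1`. -/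
def DarmonGranville : Prop :=
  ∀ a b c : ℤ, a ≠ 0 → b ≠ 0 → c ≠ 0 → ∀ p q r : ℕ, 0 < p → 0 < q → 0 < r →
    (1 : ℚ) / p + 1 / q + 1 / r < 1 →
    {t : ℤ × ℤ × ℤ | Int.gcd (Int.gcd t.1 t.2.1) t.2.2 = 1 ∧
      a * t.1 ^ p + b * t.2.1 ^ q = c * t.2.2 ^ r}.Finite

/-- The terms of all `S`-solutions, of size at most `N`. -/
def TrAll (S : Finset ℕ) (N : ℕ) : Set (ℤ × ℤ × ℤ) :=
  {t | |t.1| ≤ N ∧ |t.2.1| ≤ N ∧ |t.2.2| ≤ N ∧
    ∃ a b c x y z : ℤ, ∃ p q r : ℕ, SU S a ∧ SU S b ∧ SU S c ∧ x ≠ 0 ∧ y ≠ 0 ∧ z ≠ 0 ∧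
      0 < p ∧ 0 < q ∧ 0 < r ∧ (1 : ℚ) / p + 1 / q + 1 / r < 1 ∧
      Int.gcd (Int.gcd (a * x) (b * y)) (c * z) = 1 ∧
      a * x ^ p + b * y ^ q = c * z ^ r ∧ t = (a * x ^ p, b * y ^ q, c * z ^ r)}

/-- The terms of the `S`-solutions of signature `(p, q, r)`. -/
def Sig (S : Finset ℕ) (p q r : ℕ) : Set (ℤ × ℤ × ℤ) :=
  {t | ∃ a b c x y z : ℤ, SU S a ∧ SU S b ∧ SU S c ∧
      Int.gcd (Int.gcd (a * x) (b * y)) (c * z) = 1 ∧
      a * x ^ p + b * y ^ q = c * z ^ r ∧ t = (a * x ^ p, b * y ^ q, c * z ^ r)}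

lemma gcd3_one {u v w u' v' w' : ℤ} (hu : u ∣ u') (hv : v ∣ v') (hw : w ∣ w')
    (h : Int.gcd (Int.gcd u' v') w' = 1) : Int.gcd (Int.gcd u v) w = 1 := by
  have h1 : Int.gcd (Int.gcd u v) w ∣ Int.gcd (Int.gcd u' v') w' := by
    apply Int.natCast_dvd_natCast.mp
    apply Int.dvd_coe_gcd
    · have h2 : ((Int.gcd (Int.gcd u v) w : ℕ) : ℤ) ∣ ((Int.gcd u v : ℕ) : ℤ) := Int.gcd_dvd_left _ _
      apply Int.dvd_coe_gcd
      · exact (h2.trans (Int.gcd_dvd_left _ _)).trans hu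
      · exact (h2.trans (Int.gcd_dvd_right _ _)).trans hv
    · exact (Int.gcd_dvd_right _ _).trans hw
  rw [h] at h1
  exact Nat.dvd_one.mp h1

theorem sig_finite (DG : DarmonGranville) (S : Finset ℕ) (p q r : ℕ) (hp : 0 < p) (hq : 0 < q)
    (hr : 0 < r) (h : (1 : ℚ) / p + 1 / q + 1 / r < 1) : (Sig S p q r).Finite := by
  classical
  obtain ⟨Mp, hMp, hdp⟩ := su_decomp S p hp
  obtain ⟨Mq, hMq, hdq⟩ := su_decomp S q hq
  obtain ⟨Mr, hMr, hdr⟩ := su_decomp S r hr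
  set I : Finset (ℤ × ℤ × ℤ) := ((Finset.Icc (-(Mp : ℤ)) Mp) ×ˢ (Finset.Icc (-(Mq : ℤ)) Mq) ×ˢ
    (Finset.Icc (-(Mr : ℤ)) Mr)).filter (fun s => s.1 ≠ 0 ∧ s.2.1 ≠ 0 ∧ s.2.2 ≠ 0) with hI
  have hfin : (⋃ s ∈ I, (fun t : ℤ × ℤ × ℤ => (s.1 * t.1 ^ p, s.2.1 * t.2.1 ^ q, s.2.2 * t.2.2 ^ r)) ''
      {t : ℤ × ℤ × ℤ | Int.gcd (Int.gcd t.1 t.2.1) t.2.2 = 1 ∧
        s.1 * t.1 ^ p + s.2.1 * t.2.1 ^ q = s.2.2 * t.2.2 ^ r}).Finite := by
    apply Set.Finite.biUnion (Finset.finite_toSet I)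
    intro s hs
    rw [Finset.mem_coe, hI, Finset.mem_filter] at hs
    exact (DG s.1 s.2.1 s.2.2 hs.2.1 hs.2.2.1 hs.2.2.2 p q r hp hq hr h).image _
  refine hfin.subset ?_
  rintro t ⟨a, b, c, x, y, z, ha, hb, hc, hg, heq, rfl⟩
  obtain ⟨a0, a1, ha0, ha1, haM, hae⟩ := hdp a ha
  obtain ⟨b0, b1, hb0, hb1, hbM, hbe⟩ := hdq b hb
  obtain ⟨c0, c1, hc0, hc1, hcM, hce⟩ := hdr c hc
  rw [Set.mem_iUnion₂]
  have e1 : a0 * (a1 * x) ^ p = a * x ^ p := by rw [hae]; ring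
  have e2 : b0 * (b1 * y) ^ q = b * y ^ q := by rw [hbe]; ring
  have e3 : c0 * (c1 * z) ^ r = c * z ^ r := by rw [hce]; ring
  refine ⟨(a0, b0, c0), ?_, (a1 * x, b1 * y, c1 * z), ⟨?_, ?_⟩, ?_⟩
  · rw [hI, Finset.mem_filter, Finset.mem_product, Finset.mem_product, Finset.mem_Icc,
      Finset.mem_Icc, Finset.mem_Icc]
    exact ⟨⟨abs_le.mp haM, abs_le.mp hbM, abs_le.mp hcM⟩, ha0.1, hb0.1, hc0.1⟩
  · refine gcd3_one ?_ ?_ ?_ hg
    · apply mul_dvd_mul_right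
      rw [hae]
      exact (dvd_pow_self a1 hp.ne').mul_left a0
    · apply mul_dvd_mul_right
      rw [hbe]
      exact (dvd_pow_self b1 hq.ne').mul_left b0
    · apply mul_dvd_mul_right
      rw [hce]
      exact (dvd_pow_self c1 hr.ne').mul_left c0
  · simp only
    rw [e1, e2, e3, heq]
  · simp only
    rw [e1, e2, e3]

lemma two_le_of_hyp {p q r : ℕ} (hp : 0 < p) (hq : 0 < q) (hr : 0 < r)
    (h : (1 : ℚ) / p + 1 / q + 1 / r < 1) : 2 ≤ p ∧ 2 ≤ q ∧ 2 ≤ r := by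
  have hp' : (0 : ℚ) < 1 / p := by positivity
  have hq' : (0 : ℚ) < 1 / q := by positivity
  have hr' : (0 : ℚ) < 1 / r := by positivity
  refine ⟨?_, ?_, ?_⟩
  · by_contra hlt
    have : p = 1 := by omega
    subst this
    norm_num at h
    linarith [inv_pos.mpr (by exact_mod_cast hq : (0 : ℚ) < q),
      inv_pos.mpr (by exact_mod_cast hr : (0 : ℚ) < r)]
  · by_contra hlt
    have : q = 1 := by omega
    subst this
    norm_num at h
    linarith [inv_pos.mpr (by exact_mod_cast hp : (0 : ℚ) < p),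
      inv_pos.mpr (by exact_mod_cast hr : (0 : ℚ) < r)]
  · by_contra hlt
    have : r = 1 := by omega
    subst this
    norm_num at h
    linarith [inv_pos.mpr (by exact_mod_cast hp : (0 : ℚ) < p),
      inv_pos.mpr (by exact_mod_cast hq : (0 : ℚ) < q)]

theorem trAll_card (DG : DarmonGranville) (S : Finset ℕ) (ε : ℝ) (hε : 0 < ε) :
    ∃ K : ℝ, 0 < K ∧ ∀ N : ℕ, 1 ≤ N → ((TrAll S N).ncard : ℝ) ≤ K * (N : ℝ) ^ ε := by
  classical
  obtain ⟨R, K, hK, hT⟩ := trMax_card S ε hε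
  set D : Finset (ℕ × ℕ × ℕ) := (Finset.range R ×ˢ Finset.range R ×ˢ Finset.range R).filter
    (fun s => 0 < s.1 ∧ 0 < s.2.1 ∧ 0 < s.2.2 ∧ (1 : ℚ) / s.1 + 1 / s.2.1 + 1 / s.2.2 < 1) with hD
  set F : Set (ℤ × ℤ × ℤ) := ⋃ s ∈ D, Sig S s.1 s.2.1 s.2.2 with hF
  have hFfin : F.Finite := by
    apply Set.Finite.biUnion (Finset.finite_toSet D)
    intro s hs
    rw [Finset.mem_coe, hD, Finset.mem_filter] at hs
    exact sig_finite DG S _ _ _ hs.2.1 hs.2.2.1 hs.2.2.2.1 hs.2.2.2.2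
  refine ⟨K + F.ncard, by positivity, fun N hN => ?_⟩
  have hN1 : (1 : ℝ) ≤ N := by exact_mod_cast hN
  have hMfin : (TrMax S R N).Finite := by
    refine Set.Finite.subset ((Set.finite_Icc (-(N : ℤ)) N).prod
      ((Set.finite_Icc (-(N : ℤ)) N).prod (Set.finite_Icc (-(N : ℤ)) N))) ?_
    rintro ⟨A, B, E⟩ ⟨h1, h2, h3, -⟩
    exact ⟨abs_le.mp h1, abs_le.mp h2, abs_le.mp h3⟩
  have hsub : TrAll S N ⊆ TrMax S R N ∪ F := by
    rintro t ⟨hA, hB, hE, a, b, c, x, y, z, p, q, r, ha, hb, hc, hx, hy, hz, hp, hq, hr, hh, hg, heq,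
      rfl⟩
    obtain ⟨hp2, hq2, hr2⟩ := two_le_of_hyp hp hq hr hh
    by_cases hmax : R ≤ max p (max q r)
    · left
      exact ⟨hA, hB, hE, a, b, c, x, y, z, p, q, r, ha, hb, hc, hx, hy, hz, hp2, hq2, hr2, hmax,
        heq, rfl⟩
    · right
      push Not at hmax
      rw [hF, Set.mem_iUnion₂]
      refine ⟨(p, q, r), ?_, a, b, c, x, y, z, ha, hb, hc, hg, heq, rfl⟩
      rw [hD, Finset.mem_filter, Finset.mem_product, Finset.mem_product, Finset.mem_range,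
        Finset.mem_range, Finset.mem_range]
      have h1 : p < R := lt_of_le_of_lt (le_max_left _ _) hmax
      have h2 : max q r < R := lt_of_le_of_lt (le_max_right _ _) hmax
      exact ⟨⟨h1, lt_of_le_of_lt (le_max_left _ _) h2, lt_of_le_of_lt (le_max_right _ _) h2⟩, hp, hq,
        hr, hh⟩
  have hcard : (TrAll S N).ncard ≤ (TrMax S R N).ncard + F.ncard :=
    (Set.ncard_le_ncard hsub (hMfin.union hFfin)).trans (Set.ncard_union_le _ _)
  have hX : (1 : ℝ) ≤ (N : ℝ) ^ ε := Real.one_le_rpow hN1 hε.le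
  calc ((TrAll S N).ncard : ℝ) ≤ (((TrMax S R N).ncard + F.ncard : ℕ) : ℝ) := by exact_mod_cast hcard
    _ = ((TrMax S R N).ncard : ℝ) + (F.ncard : ℝ) := by push_cast; ring
    _ ≤ K * (N : ℝ) ^ ε + (F.ncard : ℝ) * (N : ℝ) ^ ε := by
        apply add_le_add (hT N hN)
        have : (0 : ℝ) ≤ (F.ncard : ℝ) := by positivity
        nlinarith
    _ = _ := by ring

end Pool.Agent.FCat
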