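import Mathlib
import Pool.Agent.FCat.CntB

/-!
Estimates uniform in `S`: everything is bounded in terms of `W = ∏_{l ∈ S} l`, with `W^R ≤ N`.
-/

set_option autoImplicit false

namespace Pool.Agent.FCat

open Finset

lemma card_factorial_le (S : Finset ℕ) (hS : ∀ l ∈ S, l.Prime) : S.card.factorial ≤ ∏ l ∈ S, l :=
  factorial_card_le_prod S (fun l hl => (hS l hl).one_lt.le)

lemma two_pow_card_le (S : Finset ℕ) (hS : ∀ l ∈ S, l.Prime) : 2 ^ S.card ≤ ∏ l ∈ S, l := by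
  calc 2 ^ S.card = ∏ _l ∈ S, 2 := by simp
    _ ≤ ∏ l ∈ S, l := Finset.prod_le_prod' (fun l hl => (hS l hl).two_le)

lemma one_le_prod (S : Finset ℕ) (hS : ∀ l ∈ S, l.Prime) : 1 ≤ ∏ l ∈ S, l :=
  Nat.one_le_iff_ne_zero.mpr (Finset.prod_ne_zero_iff.mpr (fun l hl => (hS l hl).ne_zero))

/-- An `S`-unit is an `S`-unit of absolute value at most `(∏ S)^q` times a `q`-th power. -/
lemma su_decomp_W (S : Finset ℕ) (hS : ∀ l ∈ S, l.Prime) (q : ℕ) (hq : 1 ≤ q) (u : ℤ) (hu : SU S u) :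
    ∃ c0 c1 : ℤ, SU S c0 ∧ SU S c1 ∧ |c0| ≤ (((∏ l ∈ S, l) ^ q : ℕ) : ℤ) ∧ u = c0 * c1 ^ q := by
  classical
  set M : ℕ := (∏ l ∈ S, l) ^ q with hM
  suffices h : ∀ n : ℕ, ∀ u : ℤ, u.natAbs = n → SU S u → ∃ c0 c1 : ℤ, SU S c0 ∧ SU S c1 ∧
      |c0| ≤ M ∧ u = c0 * c1 ^ q from h _ u rfl hu
  intro n
  induction n using Nat.strong_induction_on with
  | _ n ih =>
    intro u hun hu
    by_cases hex : ∃ l : ℕ, l.Prime ∧ ((l : ℤ) ^ q) ∣ u
    · obtain ⟨l, hl, w, hw⟩ := hex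
      have hlu : (l : ℤ) ∣ u := (dvd_pow_self _ (by omega)).trans ⟨w, hw⟩
      have hlS : l ∈ S := hu.2 l hl hlu
      have hw0 : w ≠ 0 := by
        rintro rfl
        exact hu.1 (by rw [hw]; simp)
      have hwu : SU S w :=
        ⟨hw0, fun t ht htw => hu.2 t ht (htw.trans ⟨(l : ℤ) ^ q, by rw [hw]; ring⟩)⟩
      have hlt : w.natAbs < n := by
        rw [← hun, hw, Int.natAbs_mul, Int.natAbs_pow, Int.natAbs_natCast]
        have h1 : 2 ≤ l ^ q := hl.two_le.trans (Nat.le_self_pow (by omega) l)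
        have h2 : 1 ≤ w.natAbs := Int.natAbs_pos.mpr hw0
        nlinarith
      obtain ⟨c0, c1, h0, h1, hc, he⟩ := ih _ hlt w rfl hwu
      refine ⟨c0, l * c1, h0, ?_, hc, by rw [hw, he]; ring⟩
      refine SU.mul ⟨by exact_mod_cast hl.ne_zero, fun t ht htl => ?_⟩ h1
      have : t ∣ l := by exact_mod_cast htl
      rw [(Nat.prime_dvd_prime_iff_eq ht hl).mp this]
      exact hlS
    · push Not at hex
      refine ⟨u, 1, hu, SU.one S, ?_, by ring⟩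
      have hu0 : u.natAbs ≠ 0 := Int.natAbs_ne_zero.mpr hu.1
      have h1 : u.natAbs ≤ M := by
        have hfac : ∏ l ∈ u.natAbs.primeFactors, l ^ u.natAbs.factorization l = u.natAbs :=
          Nat.prod_factorization_pow_eq_self hu0
        have hsub : u.natAbs.primeFactors ⊆ S := by
          intro l hl
          have hlp := Nat.prime_of_mem_primeFactors hl
          exact hu.2 l hlp (Int.natCast_dvd.mpr (Nat.dvd_of_mem_primeFactors hl))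
        calc u.natAbs = ∏ l ∈ u.natAbs.primeFactors, l ^ u.natAbs.factorization l := hfac.symm
          _ ≤ ∏ l ∈ u.natAbs.primeFactors, l ^ q := by
              apply Finset.prod_le_prod'
              intro l hl
              have hlp := Nat.prime_of_mem_primeFactors hl
              apply Nat.pow_le_pow_right hlp.pos
              by_contra hlt
              push Not at hlt
              apply hex l hlp
              have h2 : l ^ q ∣ u.natAbs :=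
                (pow_dvd_pow l hlt.le).trans (Nat.ordProj_dvd _ _)
              have h3 : ((l ^ q : ℕ) : ℤ) ∣ u := Int.natCast_dvd.mpr h2
              exact_mod_cast h3
          _ ≤ M := by
              rw [hM, ← Finset.prod_pow]
              apply Finset.prod_le_prod_of_subset_of_one_le' hsub
              intro l hl _
              exact Nat.one_le_pow _ _ (hS l hl).pos
      have h2 : ((u.natAbs : ℕ) : ℤ) = |u| := Int.natCast_natAbs u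
      have h3 : ((u.natAbs : ℕ) : ℤ) ≤ (M : ℤ) := by exact_mod_cast h1
      omega

/-- `x^E ≤ N^η` if `x^R ≤ N` and `R ≥ E/η`. -/
lemma pow_le_rpow_of (x N : ℕ) (E R : ℕ) (η : ℝ) (hη : 0 < η) (hx : 1 ≤ x) (hN : 1 ≤ N)
    (hR1 : 1 ≤ R) (hR : (E : ℝ) / η ≤ R) (hxN : x ^ R ≤ N) : (x : ℝ) ^ E ≤ (N : ℝ) ^ η := by
  have hN1 : (1 : ℝ) ≤ N := by exact_mod_cast hN
  have h1 : (x : ℝ) ^ R ≤ N := by exact_mod_cast hxN
  have hRpos : (0 : ℝ) < (R : ℝ) := by exact_mod_cast hR1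
  have h2 : (x : ℝ) = ((x : ℝ) ^ R) ^ (1 / (R : ℝ)) := by
    rw [← Real.rpow_natCast, ← Real.rpow_mul (by positivity), mul_one_div_cancel hRpos.ne',
      Real.rpow_one]
  have h3 : (x : ℝ) ≤ (N : ℝ) ^ (1 / (R : ℝ)) := by
    calc (x : ℝ) = ((x : ℝ) ^ R) ^ (1 / (R : ℝ)) := h2
      _ ≤ _ := by gcongr
  calc (x : ℝ) ^ E ≤ ((N : ℝ) ^ (1 / (R : ℝ))) ^ E := by gcongr
    _ = (N : ℝ) ^ ((1 / (R : ℝ)) * E) := by
        rw [← Real.rpow_natCast, ← Real.rpow_mul (by positivity)]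
    _ ≤ (N : ℝ) ^ η := by
        apply Real.rpow_le_rpow_of_exponent_le hN1
        rw [div_le_iff₀ hη] at hR
        rw [one_div_mul_eq_div, div_le_iff₀ hRpos]
        nlinarith

/-- `L^u ≤ z^{D+1} exp (L / 2^D)` if `u! ≤ z`, `2^u ≤ z`. -/
lemma pow_le_of_factorial (L : ℝ) (hL0 : 0 ≤ L) (u z D : ℕ) (h1 : u.factorial ≤ z) (h2 : 2 ^ u ≤ z) :
    L ^ u ≤ (z : ℝ) ^ (D + 1) * Real.exp (L / 2 ^ D) := by
  refine (pow_le_fact_exp L hL0 u D).trans ?_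
  have h1' : ((u.factorial : ℕ) : ℝ) ≤ z := by exact_mod_cast h1
  have h2' : (2 : ℝ) ^ (D * u) ≤ (z : ℝ) ^ D := by
    rw [mul_comm, pow_mul]
    have : (2 : ℝ) ^ u ≤ z := by exact_mod_cast h2
    gcongr
  calc (u.factorial : ℝ) * (2 : ℝ) ^ (D * u) * Real.exp (L / 2 ^ D)
      ≤ (z : ℝ) * (z : ℝ) ^ D * Real.exp (L / 2 ^ D) := by gcongr
    _ = _ := by ring

/-- `exp (k L / 2^D) ≤ K N^η` for `L = C (log₂ N + C)` and `D` large. -/
lemma exp_bound (C k : ℕ) (η : ℝ) (hη : 0 < η) : ∃ D : ℕ, ∃ K : ℝ, 0 < K ∧ ∀ N : ℕ, 1 ≤ N →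
    Real.exp (((C * (Nat.log 2 N + C) : ℕ) : ℝ) / 2 ^ D) ^ k ≤ K * (N : ℝ) ^ η := by
  obtain ⟨D, hD⟩ : ∃ D : ℕ, (2 * C * k : ℝ) / 2 ^ D ≤ η := by
    obtain ⟨D, hD⟩ := pow_unbounded_of_one_lt ((2 * C * k : ℝ) / η) (one_lt_two)
    refine ⟨D, ?_⟩
    rw [div_le_iff₀ (by positivity)]
    rw [div_lt_iff₀ (by positivity)] at hD
    linarith
  refine ⟨D, Real.exp ((C * C * k : ℝ) / 2 ^ D), by positivity, fun N hN => ?_⟩
  have hN1 : (1 : ℝ) ≤ N := by exact_mod_cast hN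
  have hlog : (0 : ℝ) ≤ Real.log N := Real.log_nonneg hN1
  rw [← Real.exp_nat_mul, ← exp_log_le N hN, ← Real.exp_add]
  apply Real.exp_le_exp.mpr
  have h2 : ((C * (Nat.log 2 N + C) : ℕ) : ℝ) ≤ C * C + 2 * C * Real.log N := by
    have := log2_le N hN
    push_cast
    have hC : (0 : ℝ) ≤ C := by positivity
    nlinarith
  calc (k : ℝ) * (((C * (Nat.log 2 N + C) : ℕ) : ℝ) / 2 ^ D)
      ≤ (k : ℝ) * ((C * C + 2 * C * Real.log N) / 2 ^ D) := by gcongr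
    _ = (C * C * k : ℝ) / 2 ^ D + (2 * C * k : ℝ) / 2 ^ D * Real.log N := by ring
    _ ≤ _ := by gcongr

/-- The main estimate, uniform in `S`. -/
lemma main_bound_W (C : ℕ) (ε : ℝ) (hε : 0 < ε) :
    ∃ R : ℕ, ∃ K : ℝ, 1 ≤ R ∧ 0 < K ∧ ∀ N z w t : ℕ, 1 ≤ N → 1 ≤ z → z ^ R ≤ N → 1 ≤ w → w ^ R ≤ N →
      t.factorial ≤ w → 2 ^ t ≤ w →
      ((C * (w * z) : ℕ) : ℝ) ^ C *
        ((C * (Nat.log 2 N + C) : ℕ) : ℝ) ^ (C * (z.primeFactors.card + (t + 1))) ≤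
        K * (N : ℝ) ^ ε := by
  obtain ⟨D, K0, hK0, hexp⟩ := exp_bound C (2 * C) (ε / 4) (by positivity)
  obtain ⟨K1, hK1, hpoly⟩ := polylog C C (ε / 4) (by positivity)
  set E : ℕ := C + (D + 1) * C with hE
  obtain ⟨R, hR⟩ := exists_nat_ge ((E : ℝ) / (ε / 4))
  refine ⟨R + 1, (C : ℝ) ^ C * K0 * K1 + 1, by omega, by positivity,
    fun N z w t hN hz hzN hw hwN ht1 ht2 => ?_⟩
  have hN1 : (1 : ℝ) ≤ N := by exact_mod_cast hN
  set u := z.primeFactors.card with hu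
  set L : ℝ := ((C * (Nat.log 2 N + C) : ℕ) : ℝ) with hL
  have hL0 : 0 ≤ L := by positivity
  have hR' : (E : ℝ) / (ε / 4) ≤ ((R + 1 : ℕ) : ℝ) := by push_cast; linarith
  have hzE : (z : ℝ) ^ E ≤ (N : ℝ) ^ (ε / 4) :=
    pow_le_rpow_of z N E (R + 1) (ε / 4) (by positivity) hz hN (by omega) hR' hzN
  have hwE : (w : ℝ) ^ E ≤ (N : ℝ) ^ (ε / 4) :=
    pow_le_rpow_of w N E (R + 1) (ε / 4) (by positivity) hw hN (by omega) hR' hwN
  have hLu : L ^ u ≤ (z : ℝ) ^ (D + 1) * Real.exp (L / 2 ^ D) :=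
    pow_le_of_factorial L hL0 u z D (omega_factorial z hz) (two_pow_omega z hz)
  have hLt : L ^ t ≤ (w : ℝ) ^ (D + 1) * Real.exp (L / 2 ^ D) :=
    pow_le_of_factorial L hL0 t w D ht1 ht2
  have hexpN := hexp N hN
  have hLs : L ^ C ≤ K1 * (N : ℝ) ^ (ε / 4) := hpoly N hN
  have hX : (0 : ℝ) ≤ (N : ℝ) ^ (ε / 4) := by positivity
  have hz2 : (z : ℝ) ^ E = (z : ℝ) ^ C * ((z : ℝ) ^ (D + 1)) ^ C := by
    rw [hE, pow_add, ← pow_mul]
  have hw2 : (w : ℝ) ^ E = (w : ℝ) ^ C * ((w : ℝ) ^ (D + 1)) ^ C := by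
    rw [hE, pow_add, ← pow_mul]
  calc ((C * (w * z) : ℕ) : ℝ) ^ C * L ^ (C * (u + (t + 1)))
      = (C : ℝ) ^ C * ((w : ℝ) ^ C * (z : ℝ) ^ C) * ((L ^ u) ^ C * (L ^ t) ^ C * L ^ C) := by
        push_cast
        rw [mul_pow, mul_pow, ← pow_mul, ← pow_mul, ← pow_add, ← pow_add]
        congr 2
        ring
    _ ≤ (C : ℝ) ^ C * ((w : ℝ) ^ C * (z : ℝ) ^ C) *
        (((z : ℝ) ^ (D + 1) * Real.exp (L / 2 ^ D)) ^ C *
          ((w : ℝ) ^ (D + 1) * Real.exp (L / 2 ^ D)) ^ C * (K1 * (N : ℝ) ^ (ε / 4))) := by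
        gcongr
    _ = (C : ℝ) ^ C * ((w : ℝ) ^ E * (z : ℝ) ^ E) *
        (Real.exp (L / 2 ^ D) ^ (2 * C) * (K1 * (N : ℝ) ^ (ε / 4))) := by
        rw [hz2, hw2, mul_pow, mul_pow, two_mul, pow_add (Real.exp (L / 2 ^ D))]
        ring
    _ ≤ (C : ℝ) ^ C * ((N : ℝ) ^ (ε / 4) * (N : ℝ) ^ (ε / 4)) *
        ((K0 * (N : ℝ) ^ (ε / 4)) * (K1 * (N : ℝ) ^ (ε / 4))) := by
        gcongr
    _ = (C : ℝ) ^ C * K0 * K1 * (N : ℝ) ^ ε := by
        have : (N : ℝ) ^ ε = ((N : ℝ) ^ (ε / 4) * (N : ℝ) ^ (ε / 4)) * ((N : ℝ) ^ (ε / 4) *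
            (N : ℝ) ^ (ε / 4)) := by
          rw [← Real.rpow_add (by positivity), ← Real.rpow_add (by positivity)]
          congr 1
          ring
        rw [this]
        ring
    _ ≤ ((C : ℝ) ^ C * K0 * K1 + 1) * (N : ℝ) ^ ε := by
        gcongr
        linarith

/-- The number of elements of `Bset S P N` is at most `K N^ε` if `P` is large and
`(∏ S)^P ≤ N`. -/
lemma bset_eps_W (ε : ℝ) (hε : 0 < ε) :
    ∃ P : ℕ, ∃ K : ℝ, 1 ≤ P ∧ 0 < K ∧ ∀ N : ℕ, 1 ≤ N → ∀ S : Finset ℕ, (∀ l ∈ S, l.Prime) →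
      (∏ l ∈ S, l) ^ P ≤ N → ((Bset S P N).ncard : ℝ) ≤ K * (N : ℝ) ^ ε := by
  obtain ⟨D, K0, hK0, hexp⟩ := exp_bound 1 1 (ε / 4) (by positivity)
  obtain ⟨K1, hK1, hpoly⟩ := polylog 1 1 (ε / 4) (by positivity)
  obtain ⟨P, hP⟩ := exists_nat_ge (((D + 1 : ℕ) : ℝ) / (ε / 4))
  refine ⟨P + 1, 6 * K0 * K1, by omega, by positivity, fun N hN S hS hSN => ?_⟩
  have hN1 : (1 : ℝ) ≤ N := by exact_mod_cast hN
  set w : ℕ := ∏ l ∈ S, l with hw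
  have hP' : ((D + 1 : ℕ) : ℝ) / (ε / 4) ≤ ((P + 1 : ℕ) : ℝ) := by push_cast at hP ⊢; linarith
  have hwE : (w : ℝ) ^ (D + 1) ≤ (N : ℝ) ^ (ε / 4) :=
    pow_le_rpow_of w N (D + 1) (P + 1) (ε / 4) (by positivity) (one_le_prod S hS) hN (by omega)
      hP' hSN
  have h1 := bset_card S (P + 1) N (by omega) hN
  set L : ℝ := ((Nat.log 2 N + 1 : ℕ) : ℝ) with hL
  have hL0 : 0 ≤ L := by positivity
  have hLt : L ^ S.card ≤ (w : ℝ) ^ (D + 1) * Real.exp (L / 2 ^ D) :=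
    pow_le_of_factorial L hL0 S.card w D (card_factorial_le S hS) (two_pow_card_le S hS)
  have h2 := hpoly N hN
  rw [one_mul, pow_one] at h2
  have h3 := hexp N hN
  rw [one_mul, pow_one] at h3
  have h4 : (N : ℝ) ^ (1 / ((P + 1 : ℕ) : ℝ)) ≤ (N : ℝ) ^ (ε / 4) := by
    apply Real.rpow_le_rpow_of_exponent_le hN1
    have hPpos : (0 : ℝ) < ((P + 1 : ℕ) : ℝ) := by positivity
    rw [div_le_iff₀ (by positivity)] at hP'
    rw [div_le_iff₀ hPpos]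
    have : (1 : ℝ) ≤ ((D + 1 : ℕ) : ℝ) := by push_cast; linarith [(Nat.cast_nonneg D : (0 : ℝ) ≤ D)]
    nlinarith
  calc ((Bset S (P + 1) N).ncard : ℝ)
      ≤ 6 * L ^ (S.card + 1) * (N : ℝ) ^ (1 / ((P + 1 : ℕ) : ℝ)) := h1
    _ = 6 * (L ^ S.card * L) * (N : ℝ) ^ (1 / ((P + 1 : ℕ) : ℝ)) := by rw [pow_succ]
    _ ≤ 6 * (((w : ℝ) ^ (D + 1) * Real.exp (L / 2 ^ D)) * L) * (N : ℝ) ^ (ε / 4) := by gcongr
    _ ≤ 6 * (((N : ℝ) ^ (ε / 4) * (K0 * (N : ℝ) ^ (ε / 4))) * (K1 * (N : ℝ) ^ (ε / 4))) *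
        (N : ℝ) ^ (ε / 4) := by gcongr
    _ = 6 * K0 * K1 * (N : ℝ) ^ ε := by
        have : (N : ℝ) ^ ε = ((N : ℝ) ^ (ε / 4) * (N : ℝ) ^ (ε / 4)) * ((N : ℝ) ^ (ε / 4) *
            (N : ℝ) ^ (ε / 4)) := by
          rw [← Real.rpow_add (by positivity), ← Real.rpow_add (by positivity)]
          congr 1
          ring
        rw [this]
        ring

end Pool.Agent.FCat
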