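import Mathlib
import Pool.Agent.FCat.CntC
import Pool.Agent.FCat.RadB

/-!
Representations `E = a x^p + b y^q` with `S`-units `a`, `b`, uniformly in `S`.
-/

set_option autoImplicit false

namespace Pool.Agent.FCat

open Finset

/-- The logarithm of the size of the data. -/
lemma log_estimate (C0 e K N : ℕ) (hN : 1 ≤ N) (hK : 1 ≤ K) (hKN : K ≤ 3 * N ^ e) :
    C0 * Nat.log 2 (K * N) ≤ (C0 * (e + 2) + 1) * (Nat.log 2 N + (C0 * (e + 2) + 1)) := by
  generalize hL : Nat.log 2 N = L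
  have h1 : N < 2 ^ (L + 1) := by rw [← hL]; exact Nat.lt_pow_succ_log_self (by norm_num) N
  have h2 : K * N < 2 ^ ((e + 1) * (L + 1) + 2) := by
    have a1 : K * N ≤ 3 * N ^ (e + 1) := by
      calc K * N ≤ 3 * N ^ e * N := Nat.mul_le_mul_right _ hKN
        _ = 3 * N ^ (e + 1) := by rw [pow_succ]; ring
    have a2 : N ^ (e + 1) ≤ (2 ^ (L + 1)) ^ (e + 1) := Nat.pow_le_pow_left h1.le _
    have a3 : (2 ^ (L + 1)) ^ (e + 1) = 2 ^ ((e + 1) * (L + 1)) := by rw [← pow_mul, mul_comm]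
    have a4 : 0 < 2 ^ ((e + 1) * (L + 1)) := by positivity
    rw [pow_add]
    rw [a3] at a2
    omega
  have h3 := Nat.log_lt_of_lt_pow (Nat.mul_ne_zero (by omega) (by omega)) h2
  have h4 : Nat.log 2 (K * N) ≤ (e + 1) * (L + 1) + 1 := by omega
  have h5 : C0 * ((e + 1) * (L + 1) + 1) ≤ (C0 * (e + 2)) * (L + 1) := by
    have : (e + 1) * (L + 1) + 1 ≤ (e + 2) * (L + 1) := by nlinarith
    calc C0 * ((e + 1) * (L + 1) + 1) ≤ C0 * ((e + 2) * (L + 1)) := Nat.mul_le_mul_left _ this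
      _ = _ := by ring
  have h6 : (C0 * (e + 2)) * (L + 1) ≤ (C0 * (e + 2) + 1) * (L + (C0 * (e + 2) + 1)) :=
    Nat.mul_le_mul (by omega) (by omega)
  exact (Nat.mul_le_mul_left _ h4).trans (h5.trans h6)

theorem rep0_card_W (p q : ℕ) (hp : 2 ≤ p) (hq : 2 ≤ q) :
    ∃ C : ℕ, 1 ≤ C ∧ ∀ S : Finset ℕ, (∀ l ∈ S, l.Prime) → ∀ N : ℕ, 1 ≤ N → ∏ l ∈ S, l ≤ N →
      ∀ a b c z : ℤ, ∀ r : ℕ, SU S a → SU S b → |a| ≤ (((∏ l ∈ S, l) ^ p : ℕ) : ℤ) →
      |b| ≤ (((∏ l ∈ S, l) ^ q : ℕ) : ℤ) → SU S c → z ≠ 0 → |c * z ^ r| ≤ N →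
      (rep0 a b p q N (c * z ^ r)).ncard ≤ (C * ((∏ l ∈ S, l) ^ q * z.natAbs ^ q)) ^ C *
        (C * (Nat.log 2 N + C)) ^ (C * (z.natAbs.primeFactors.card + (S.card + 1))) := by
  classical
  obtain ⟨C0, hC0⟩ := FCat.key p q hp hq
  set e : ℕ := p + q * q with he
  set C : ℕ := C0 * (e + 2) + 1 with hC
  refine ⟨C, by omega, fun S hS N hN hWN a b c z r ha hb haM hbM hc hz hE => ?_⟩
  set W : ℕ := ∏ l ∈ S, l with hW
  have hW1 : 1 ≤ W := one_le_prod S hS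
  set Mp : ℕ := W ^ p with hMp'
  set Mq : ℕ := W ^ q with hMq'
  have hMp : 1 ≤ Mp := Nat.one_le_pow _ _ hW1
  have hMq : 1 ≤ Mq := Nat.one_le_pow _ _ hW1
  set K : ℕ := 3 * Mp * Mq ^ (q - 1) with hK
  have hMq1 : 1 ≤ Mq ^ (q - 1) := Nat.one_le_pow _ _ hMq
  have hK1 : 3 ≤ K := by
    rw [hK, mul_assoc]
    have : 1 ≤ Mp * Mq ^ (q - 1) := Nat.one_le_iff_ne_zero.mpr (by positivity)
    omega
  have hKN : K ≤ 3 * N ^ e := by
    have h1 : Mp * Mq ^ (q - 1) ≤ W ^ e := by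
      rw [hMp', hMq', ← pow_mul, ← pow_add]
      apply Nat.pow_le_pow_right hW1
      rw [he]
      have : q * (q - 1) ≤ q * q := Nat.mul_le_mul_left _ (by omega)
      omega
    rw [hK, mul_assoc]
    exact Nat.mul_le_mul_left _ (h1.trans (Nat.pow_le_pow_left hWN _))
  obtain ⟨c0, c1, hc0, hc1, hc0M, hce⟩ :=
    su_decomp_W S hS q (by omega) (b ^ (q - 1) * c) ((hb.pow _).mul hc)
  set m : ℤ := c0 * z ^ (r % q) with hm
  set v : ℤ := c1 * z ^ (r / q) with hv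
  set A : ℤ := -(a * b ^ (q - 1)) with hA
  have hm0 : m ≠ 0 := mul_ne_zero hc0.1 (pow_ne_zero _ hz)
  have hv0 : v ≠ 0 := mul_ne_zero hc1.1 (pow_ne_zero _ hz)
  have hA0 : A ≠ 0 := neg_ne_zero.mpr (mul_ne_zero ha.1 (pow_ne_zero _ hb.1))
  have hmv : m * v ^ q = b ^ (q - 1) * (c * z ^ r) := by
    calc m * v ^ q = (c0 * c1 ^ q) * (z ^ (r % q) * (z ^ (r / q)) ^ q) := by rw [hm, hv]; ring
      _ = (b ^ (q - 1) * c) * z ^ r := by
          rw [← hce, ← pow_mul, ← pow_add]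
          congr 2
          rw [mul_comm (r / q) q]
          exact Nat.mod_add_div r q
      _ = _ := by ring
  have hbpow : |b| ^ (q - 1) ≤ ((Mq ^ (q - 1) : ℕ) : ℤ) := by
    have : |b| ^ (q - 1) ≤ ((Mq : ℕ) : ℤ) ^ (q - 1) := pow_le_pow_left₀ (abs_nonneg _) hbM _
    exact_mod_cast this
  have hbig : ∀ X : ℤ, |X| ≤ N → |b| ^ (q - 1) * |X| ≤ ((K * N : ℕ) : ℤ) := by
    intro X hX
    have h1 : |b| ^ (q - 1) * |X| ≤ ((Mq ^ (q - 1) : ℕ) : ℤ) * N :=
      mul_le_mul hbpow hX (abs_nonneg _) (by positivity)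
    refine h1.trans ?_
    have h2 : Mq ^ (q - 1) * N ≤ K * N := by
      apply Nat.mul_le_mul_right
      rw [hK]
      exact Nat.le_mul_of_pos_left _ (by omega)
    exact_mod_cast h2
  have hm1 : 1 ≤ |m| := Int.one_le_abs hm0
  have hv1 : 1 ≤ |v| := Int.one_le_abs hv0
  have hmvabs : |m| * |v| ^ q ≤ ((K * N : ℕ) : ℤ) := by
    have : |m| * |v| ^ q = |b| ^ (q - 1) * |c * z ^ r| := by
      rw [← abs_pow, ← abs_mul, hmv, abs_mul, abs_pow]
    rw [this]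
    exact hbig _ hE
  have hvq1 : 1 ≤ |v| ^ q := one_le_pow₀ hv1
  have hmB : |m| ≤ ((K * N : ℕ) : ℤ) := by nlinarith
  have hvB : |v| ≤ ((K * N : ℕ) : ℤ) := by
    have := abs_le_abs_pow v q (by omega)
    nlinarith
  have hAB : |A| ≤ ((K * N : ℕ) : ℤ) := by
    have h1 : |A| = |a| * |b| ^ (q - 1) := by rw [hA, abs_neg, abs_mul, abs_pow]
    rw [h1]
    have h2 : |a| * |b| ^ (q - 1) ≤ (Mp : ℤ) * ((Mq ^ (q - 1) : ℕ) : ℤ) :=
      mul_le_mul haM hbpow (by positivity) (by positivity)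
    refine h2.trans ?_
    have h3 : Mp * Mq ^ (q - 1) ≤ K * N := by
      calc Mp * Mq ^ (q - 1) ≤ K := by rw [hK, mul_assoc]; omega
        _ ≤ K * N := Nat.le_mul_of_pos_right _ (by omega)
    exact_mod_cast h3
  have hKN3 : 3 ≤ K * N := hK1.trans (Nat.le_mul_of_pos_right _ (by omega))
  have hkey := hC0 m v A hm0 hv0 hA0 (K * N) hKN3 hmB hvB hAB
  set Y := {y : ℤ | |y| ≤ ((K * N : ℕ) : ℤ) ∧ ∃ x : ℤ, x ≠ 0 ∧ y ^ q - m * v ^ q = A * x ^ p}
    with hY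
  have hYfin : Y.Finite := by
    refine Set.Finite.subset (Set.finite_Icc (-((K * N : ℕ) : ℤ)) ((K * N : ℕ) : ℤ)) ?_
    rintro y ⟨h, -⟩
    exact abs_le.mp h
  -- injection `B ↦ b y`
  have hex : ∀ B ∈ rep0 a b p q N (c * z ^ r), ∃ y' ∈ Y, b ^ (q - 1) * B = y' ^ q := by
    rintro B ⟨hB, x, y, hx, hy, hEB, hBy⟩
    have hpow : (b * y) ^ q = b ^ (q - 1) * B := by
      rw [hBy, mul_pow]
      have : b ^ q = b ^ (q - 1) * b := by rw [← pow_succ]; congr 1; omega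
      rw [this]
      ring
    refine ⟨b * y, ⟨?_, x, hx, ?_⟩, hpow.symm⟩
    · calc |b * y| ≤ |b * y| ^ q := abs_le_abs_pow _ q (by omega)
        _ = |b| ^ (q - 1) * |B| := by rw [← abs_pow, hpow, abs_mul, abs_pow]
        _ ≤ _ := hbig _ hB
    · rw [hpow, hmv, hA]
      have : b ^ (q - 1) * B - b ^ (q - 1) * (c * z ^ r) = -(b ^ (q - 1) * (c * z ^ r - B)) := by
        ring
      rw [this, hEB]
      ring
  choose! f hf using hex
  have hle : (rep0 a b p q N (c * z ^ r)).ncard ≤ Y.ncard := by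
    apply Set.ncard_le_ncard_of_injOn f (fun B hB => (hf B hB).1) ?_ hYfin
    intro B1 h1 B2 h2 h12
    have e1 := (hf B1 h1).2
    have e2 := (hf B2 h2).2
    have e3 : b ^ (q - 1) * B1 = b ^ (q - 1) * B2 := by rw [e1, e2, h12]
    exact mul_left_cancel₀ (pow_ne_zero _ hb.1) e3
  refine hle.trans (hkey.trans ?_)
  -- estimate of the bound
  have hz1 : 1 ≤ z.natAbs := Int.natAbs_pos.mpr hz
  have hmle : m.natAbs ≤ Mq * z.natAbs ^ q := by
    have h0 : c0.natAbs ≤ Mq := by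
      have : ((c0.natAbs : ℕ) : ℤ) ≤ Mq := by rw [Int.natCast_natAbs]; exact hc0M
      exact_mod_cast this
    calc m.natAbs = c0.natAbs * z.natAbs ^ (r % q) := by
          rw [hm, Int.natAbs_mul, Int.natAbs_pow]
      _ ≤ Mq * z.natAbs ^ q :=
          Nat.mul_le_mul h0 (Nat.pow_le_pow_right hz1 (Nat.mod_lt _ (by omega)).le)
  have hom : (m * v * A).natAbs.primeFactors.card ≤ z.natAbs.primeFactors.card + S.card := by
    have hsub : (m * v * A).natAbs.primeFactors ⊆ z.natAbs.primeFactors ∪ S := by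
      intro l hl
      have hlp := Nat.prime_of_mem_primeFactors hl
      have hld : (l : ℤ) ∣ m * v * A := Int.natCast_dvd.mpr (Nat.dvd_of_mem_primeFactors hl)
      have hlpi := Nat.prime_iff_prime_int.mp hlp
      rw [Finset.mem_union]
      have hzcase : (l : ℤ) ∣ z → l ∈ z.natAbs.primeFactors := fun h =>
        Nat.mem_primeFactors.mpr ⟨hlp, Int.natCast_dvd.mp h, by omega⟩
      rcases hlpi.dvd_or_dvd hld with h | h
      · rcases hlpi.dvd_or_dvd h with h | h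
        · rcases hlpi.dvd_or_dvd h with h | h
          · exact Or.inr (hc0.2 l hlp h)
          · exact Or.inl (hzcase (hlpi.dvd_of_dvd_pow h))
        · rcases hlpi.dvd_or_dvd h with h | h
          · exact Or.inr (hc1.2 l hlp h)
          · exact Or.inl (hzcase (hlpi.dvd_of_dvd_pow h))
      · rw [hA, dvd_neg] at h
        rcases hlpi.dvd_or_dvd h with h | h
        · exact Or.inr (ha.2 l hlp h)
        · exact Or.inr (hb.2 l hlp (hlpi.dvd_of_dvd_pow h))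
    exact (Finset.card_le_card hsub).trans (Finset.card_union_le _ _)
  have hCC : C0 ≤ C := by
    have : C0 ≤ C0 * (e + 2) := Nat.le_mul_of_pos_right _ (by omega)
    omega
  have hM1 : 1 ≤ C * (Mq * z.natAbs ^ q) := Nat.one_le_iff_ne_zero.mpr (by positivity)
  have hlogle : C0 * Nat.log 2 (K * N) ≤ C * (Nat.log 2 N + C) :=
    log_estimate C0 e K N hN (by omega) hKN
  have hL1 : 1 ≤ C * (Nat.log 2 N + C) := Nat.one_le_iff_ne_zero.mpr (by positivity)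
  apply Nat.mul_le_mul
  · calc (C0 * m.natAbs) ^ C0 ≤ (C * (Mq * z.natAbs ^ q)) ^ C0 :=
          Nat.pow_le_pow_left (Nat.mul_le_mul hCC hmle) _
      _ ≤ _ := Nat.pow_le_pow_right hM1 hCC
  · calc (C0 * Nat.log 2 (K * N)) ^ (C0 * ((m * v * A).natAbs.primeFactors.card + 1))
        ≤ (C * (Nat.log 2 N + C)) ^ (C0 * ((m * v * A).natAbs.primeFactors.card + 1)) :=
          Nat.pow_le_pow_left hlogle _
      _ ≤ _ := Nat.pow_le_pow_right hL1 (Nat.mul_le_mul hCC (by omega))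

theorem rep_card_W (p q : ℕ) (hp : 2 ≤ p) (hq : 2 ≤ q) :
    ∃ C : ℕ, 1 ≤ C ∧ ∀ S : Finset ℕ, (∀ l ∈ S, l.Prime) → ∀ N : ℕ, 1 ≤ N → ∏ l ∈ S, l ≤ N →
      ∀ c z : ℤ, ∀ r : ℕ, SU S c → z ≠ 0 → |c * z ^ r| ≤ N →
      (rep S p q N (c * z ^ r)).ncard ≤ (C * ((∏ l ∈ S, l) * z.natAbs)) ^ C *
        (C * (Nat.log 2 N + C)) ^ (C * (z.natAbs.primeFactors.card + (S.card + 1))) := by
  classical
  obtain ⟨C0, hC01, hC0⟩ := rep0_card_W p q hp hq
  set C : ℕ := 9 * C0 ^ C0 + (p + q + q * C0) with hC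
  have hX1 : 1 ≤ C0 ^ C0 := Nat.one_le_pow _ _ hC01
  have hC0C : C0 ≤ C := by
    have : C0 ≤ q * C0 := Nat.le_mul_of_pos_left _ (by omega)
    omega
  refine ⟨C, by omega, fun S hS N hN hWN c z r hc hz hE => ?_⟩
  set W : ℕ := ∏ l ∈ S, l with hW
  have hW1 : 1 ≤ W := one_le_prod S hS
  set Mp : ℕ := W ^ p with hMp'
  set Mq : ℕ := W ^ q with hMq'
  have hMp : 1 ≤ Mp := Nat.one_le_pow _ _ hW1
  have hMq : 1 ≤ Mq := Nat.one_le_pow _ _ hW1
  set T : ℕ := (2 * Mp + 1) * (2 * Mq + 1) with hT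
  have hz1 : 1 ≤ z.natAbs := Int.natAbs_pos.mpr hz
  set I : Finset (ℤ × ℤ) := ((Finset.Icc (-(Mp : ℤ)) Mp) ×ˢ (Finset.Icc (-(Mq : ℤ)) Mq)).filter
    (fun t => SU S t.1 ∧ SU S t.2) with hI
  have hsub : rep S p q N (c * z ^ r) ⊆ ⋃ t ∈ I, rep0 t.1 t.2 p q N (c * z ^ r) := by
    rintro B ⟨hB, a, b, x, y, ha, hb, hx, hy, hEB, hBy⟩
    obtain ⟨a0, a1, ha0, ha1, haM, hae⟩ := su_decomp_W S hS p (by omega) a ha
    obtain ⟨b0, b1, hb0, hb1, hbM, hbe⟩ := su_decomp_W S hS q (by omega) b hb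
    rw [Set.mem_iUnion₂]
    refine ⟨(a0, b0), ?_, hB, a1 * x, b1 * y, mul_ne_zero ha1.1 hx, mul_ne_zero hb1.1 hy, ?_, ?_⟩
    · rw [hI, Finset.mem_filter, Finset.mem_product, Finset.mem_Icc, Finset.mem_Icc]
      exact ⟨⟨abs_le.mp haM, abs_le.mp hbM⟩, ha0, hb0⟩
    · simp only
      rw [hEB, hae]
      ring
    · simp only
      rw [hBy, hbe]
      ring
  have hfin : (⋃ t ∈ I, rep0 t.1 t.2 p q N (c * z ^ r)).Finite := by
    refine Set.Finite.subset (Set.finite_Icc (-(N : ℤ)) N) ?_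
    intro B hB
    rw [Set.mem_iUnion₂] at hB
    obtain ⟨t, -, h, -⟩ := hB
    exact abs_le.mp h
  set V : ℕ := (C0 * (Mq * z.natAbs ^ q)) ^ C0 *
        (C0 * (Nat.log 2 N + C0)) ^ (C0 * (z.natAbs.primeFactors.card + (S.card + 1))) with hV
  have hcard : (rep S p q N (c * z ^ r)).ncard ≤ T * V := by
    calc (rep S p q N (c * z ^ r)).ncard
        ≤ (⋃ t ∈ I, rep0 t.1 t.2 p q N (c * z ^ r)).ncard := Set.ncard_le_ncard hsub hfin
      _ ≤ ∑ t ∈ I, (rep0 t.1 t.2 p q N (c * z ^ r)).ncard := Finset.set_ncard_biUnion_le _ _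
      _ ≤ ∑ t ∈ I, V := by
          apply Finset.sum_le_sum
          intro t ht
          rw [hI, Finset.mem_filter, Finset.mem_product, Finset.mem_Icc, Finset.mem_Icc] at ht
          obtain ⟨⟨h1, h2⟩, h3, h4⟩ := ht
          exact hC0 S hS N hN hWN t.1 t.2 c z r h3 h4 (abs_le.mpr h1) (abs_le.mpr h2) hc hz hE
      _ = I.card * V := by rw [Finset.sum_const, smul_eq_mul]
      _ ≤ T * V := by
          apply Nat.mul_le_mul_right
          calc I.card ≤ ((Finset.Icc (-(Mp : ℤ)) Mp) ×ˢ (Finset.Icc (-(Mq : ℤ)) Mq)).card :=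
                Finset.card_filter_le _ _
            _ = T := by
                rw [Finset.card_product, Int.card_Icc, Int.card_Icc, hT]
                congr 1 <;> omega
  refine hcard.trans ?_
  rw [hV, ← mul_assoc]
  have hL1 : 1 ≤ C * (Nat.log 2 N + C) := Nat.one_le_iff_ne_zero.mpr (by positivity)
  have hT9 : T ≤ 9 * W ^ (p + q) := by
    rw [hT, pow_add]
    calc (2 * Mp + 1) * (2 * Mq + 1) ≤ (3 * Mp) * (3 * Mq) := Nat.mul_le_mul (by omega) (by omega)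
      _ = 9 * (W ^ p * W ^ q) := by rw [hMp', hMq']; ring
  apply Nat.mul_le_mul
  · calc T * (C0 * (Mq * z.natAbs ^ q)) ^ C0
        ≤ 9 * W ^ (p + q) * (C0 * (Mq * z.natAbs ^ q)) ^ C0 := Nat.mul_le_mul_right _ hT9
      _ = (9 * C0 ^ C0) * (W ^ (p + q + q * C0) * z.natAbs ^ (q * C0)) := by
          rw [hMq', mul_pow, mul_pow, ← pow_mul, ← pow_mul, pow_add W (p + q)]
          ring
      _ ≤ C * (W ^ C * z.natAbs ^ C) := by
          apply Nat.mul_le_mul (by omega)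
          apply Nat.mul_le_mul
          · exact Nat.pow_le_pow_right hW1 (by omega)
          · exact Nat.pow_le_pow_right hz1 (by omega)
      _ ≤ C ^ C * (W ^ C * z.natAbs ^ C) := by
          apply Nat.mul_le_mul_right
          exact Nat.le_self_pow (by omega) C
      _ = _ := by rw [mul_pow, mul_pow]
  · calc (C0 * (Nat.log 2 N + C0)) ^ (C0 * (z.natAbs.primeFactors.card + (S.card + 1)))
        ≤ (C * (Nat.log 2 N + C)) ^ (C0 * (z.natAbs.primeFactors.card + (S.card + 1))) := by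
          apply Nat.pow_le_pow_left
          apply Nat.mul_le_mul hC0C
          omega
      _ ≤ _ := Nat.pow_le_pow_right hL1 (Nat.mul_le_mul_right _ hC0C)

end Pool.Agent.FCat
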