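import Mathlib
import Pool.Agent.FCat.CntD
import Pool.Agent.FCat.RadC

/-!
Theorem A of MP_be1fae_nt, uniformly in `S`: summation over `E = c z^r`.
-/

set_option autoImplicit false

namespace Pool.Agent.FCat

open Finset

lemma pow_le_of_le_exp {x P R N : ℕ} (hx : 1 ≤ x) (hPR : P ≤ R) (h : x ^ R ≤ N) : x ^ P ≤ N :=
  (Nat.pow_le_pow_right hx hPR).trans h

theorem count_pq_W (p q : ℕ) (hp : 2 ≤ p) (hq : 2 ≤ q) (ε : ℝ) (hε : 0 < ε) :
    ∃ R : ℕ, ∃ K : ℝ, 1 ≤ R ∧ 0 < K ∧ ∀ N : ℕ, 1 ≤ N → ∀ S : Finset ℕ, (∀ l ∈ S, l.Prime) →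
      (∏ l ∈ S, l) ^ R ≤ N → ((PQ S p q R N).ncard : ℝ) ≤ K * (N : ℝ) ^ ε := by
  classical
  obtain ⟨C, hC1, hrep'⟩ := rep_card_W p q hp hq
  obtain ⟨R1, K1, hR1, hK1, hmain'⟩ := main_bound_W C (ε / 2) (by positivity)
  obtain ⟨R2, K2, hR2, hK2, hB'⟩ := bset_eps_W (ε / 2) (by positivity)
  refine ⟨R1 + R2, K2 * K1, by omega, by positivity, fun N hN S hS hSN => ?_⟩
  have hW1 : 1 ≤ ∏ l ∈ S, l := one_le_prod S hS
  have hWN : ∏ l ∈ S, l ≤ N := by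
    have := pow_le_of_le_exp hW1 (by omega : 1 ≤ R1 + R2) hSN
    simpa using this
  have hWN1 : (∏ l ∈ S, l) ^ R1 ≤ N := pow_le_of_le_exp hW1 (by omega) hSN
  have hWN2 : (∏ l ∈ S, l) ^ R2 ≤ N := pow_le_of_le_exp hW1 (by omega) hSN
  have hB := hB' N hN S hS hWN2
  have hN1 : (1 : ℝ) ≤ N := by exact_mod_cast hN
  set T : Finset ℤ := (bset_finite S (R1 + R2) N).toFinset with hT
  have hsub : PQ S p q (R1 + R2) N ⊆ ⋃ E ∈ T, (fun B => (B, E)) '' (rep S p q N E) := by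
    rintro ⟨B, E⟩ ⟨h1, h2⟩
    rw [Set.mem_iUnion₂]
    exact ⟨E, (Set.Finite.mem_toFinset _).mpr h1, B, h2, rfl⟩
  have hfin : (⋃ E ∈ T, (fun B => (B, E)) '' (rep S p q N E)).Finite := by
    apply Set.Finite.biUnion (Finset.finite_toSet T)
    intro E _
    apply Set.Finite.image
    refine Set.Finite.subset (Set.finite_Icc (-(N : ℤ)) N) ?_
    rintro B ⟨h, -⟩
    exact abs_le.mp h
  have hE : ∀ E ∈ T, (((fun B => (B, E)) '' (rep S p q N E)).ncard : ℝ) ≤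
      K1 * (N : ℝ) ^ (ε / 2) := by
    intro E hET
    obtain ⟨hEN, c, z, r, hr, hc, hz, rfl⟩ := (Set.Finite.mem_toFinset _).mp hET
    have h1 : ((fun B => (B, c * z ^ r)) '' (rep S p q N (c * z ^ r))).ncard ≤
        (rep S p q N (c * z ^ r)).ncard := by
      apply Set.ncard_image_le
      refine Set.Finite.subset (Set.finite_Icc (-(N : ℤ)) N) ?_
      rintro B ⟨h, -⟩
      exact abs_le.mp h
    have h2 := hrep' S hS N hN hWN c z r hc hz hEN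
    have hz1 : 1 ≤ z.natAbs := Int.natAbs_pos.mpr hz
    have h3 : z.natAbs ^ R1 ≤ N := by
      have h4 : z.natAbs ^ R1 ≤ z.natAbs ^ r := Nat.pow_le_pow_right hz1 (by omega)
      have h5 : z.natAbs ^ r ≤ (c * z ^ r).natAbs := by
        rw [Int.natAbs_mul, Int.natAbs_pow]
        exact Nat.le_mul_of_pos_left _ (Int.natAbs_pos.mpr hc.1)
      have h6 : (c * z ^ r).natAbs ≤ N := by
        have : (((c * z ^ r).natAbs : ℕ) : ℤ) ≤ N := by rw [Int.natCast_natAbs]; exact hEN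
        exact_mod_cast this
      exact h4.trans (h5.trans h6)
    have h7 := hmain' N z.natAbs (∏ l ∈ S, l) S.card hN hz1 h3 hW1 hWN1
      (card_factorial_le S hS) (two_pow_card_le S hS)
    have h8 : ((rep S p q N (c * z ^ r)).ncard : ℝ) ≤
        (((C * ((∏ l ∈ S, l) * z.natAbs)) ^ C *
          (C * (Nat.log 2 N + C)) ^ (C * (z.natAbs.primeFactors.card + (S.card + 1))) : ℕ) : ℝ) := by
      exact_mod_cast h2
    calc (((fun B => (B, c * z ^ r)) '' (rep S p q N (c * z ^ r))).ncard : ℝ)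
        ≤ ((rep S p q N (c * z ^ r)).ncard : ℝ) := by exact_mod_cast h1
      _ ≤ _ := h8
      _ = ((C * ((∏ l ∈ S, l) * z.natAbs) : ℕ) : ℝ) ^ C *
          ((C * (Nat.log 2 N + C) : ℕ) : ℝ) ^ (C * (z.natAbs.primeFactors.card + (S.card + 1))) := by
          push_cast
          ring
      _ ≤ _ := h7
  have hTcard : (T.card : ℝ) ≤ K2 * (N : ℝ) ^ (ε / 2) := by
    have h1 : T.card = (Bset S (R1 + R2) N).ncard :=
      (Set.ncard_eq_toFinset_card _ (bset_finite S (R1 + R2) N)).symm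
    have h2 : (Bset S (R1 + R2) N).ncard ≤ (Bset S R2 N).ncard :=
      Set.ncard_le_ncard (bset_mono S (by omega) N) (bset_finite S R2 N)
    calc (T.card : ℝ) ≤ ((Bset S R2 N).ncard : ℝ) := by rw [h1]; exact_mod_cast h2
      _ ≤ _ := hB
  calc ((PQ S p q (R1 + R2) N).ncard : ℝ)
      ≤ ((⋃ E ∈ T, (fun B => (B, E)) '' (rep S p q N E)).ncard : ℝ) := by
        exact_mod_cast Set.ncard_le_ncard hsub hfin
    _ ≤ ((∑ E ∈ T, ((fun B => (B, E)) '' (rep S p q N E)).ncard : ℕ) : ℝ) := by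
        exact_mod_cast Finset.set_ncard_biUnion_le _ _
    _ = ∑ E ∈ T, (((fun B => (B, E)) '' (rep S p q N E)).ncard : ℝ) := by push_cast; rfl
    _ ≤ ∑ E ∈ T, K1 * (N : ℝ) ^ (ε / 2) := Finset.sum_le_sum hE
    _ = (T.card : ℝ) * (K1 * (N : ℝ) ^ (ε / 2)) := by rw [Finset.sum_const, nsmul_eq_mul]
    _ ≤ (K2 * (N : ℝ) ^ (ε / 2)) * (K1 * (N : ℝ) ^ (ε / 2)) := by gcongr
    _ = K2 * K1 * (N : ℝ) ^ ε := by
        have : (N : ℝ) ^ ε = (N : ℝ) ^ (ε / 2) * (N : ℝ) ^ (ε / 2) := by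
          rw [← Real.rpow_add (by positivity)]
          congr 1
          ring
        rw [this]
        ring

/-- Common `R`, `K` for all `p, q < P`. -/
theorem count_pq_unif_W (P : ℕ) (ε : ℝ) (hε : 0 < ε) :
    ∃ R : ℕ, ∃ K : ℝ, 1 ≤ R ∧ 0 < K ∧ ∀ R' : ℕ, R ≤ R' → ∀ p q : ℕ, 2 ≤ p → p < P → 2 ≤ q → q < P →
      ∀ N : ℕ, 1 ≤ N → ∀ S : Finset ℕ, (∀ l ∈ S, l.Prime) → (∏ l ∈ S, l) ^ R' ≤ N →
      ((PQ S p q R' N).ncard : ℝ) ≤ K * (N : ℝ) ^ ε := by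
  classical
  have h : ∀ t : ℕ × ℕ, ∃ R : ℕ, ∃ K : ℝ, 1 ≤ R ∧ 0 < K ∧ (2 ≤ t.1 → 2 ≤ t.2 → ∀ N : ℕ, 1 ≤ N →
      ∀ S : Finset ℕ, (∀ l ∈ S, l.Prime) → (∏ l ∈ S, l) ^ R ≤ N →
      ((PQ S t.1 t.2 R N).ncard : ℝ) ≤ K * (N : ℝ) ^ ε) := by
    intro t
    by_cases ht : 2 ≤ t.1 ∧ 2 ≤ t.2
    · obtain ⟨R, K, h1, h2, h3⟩ := count_pq_W t.1 t.2 ht.1 ht.2 ε hε
      exact ⟨R, K, h1, h2, fun _ _ => h3⟩
    · exact ⟨1, 1, le_rfl, one_pos, fun h1 h2 => absurd ⟨h1, h2⟩ ht⟩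
  choose Rf Kf hR hK hc using h
  set D : Finset (ℕ × ℕ) := Finset.range P ×ˢ Finset.range P with hD
  refine ⟨∑ t ∈ D, Rf t + 1, ∑ t ∈ D, Kf t + 1, by omega, ?_, ?_⟩
  · have : 0 ≤ ∑ t ∈ D, Kf t := Finset.sum_nonneg (fun t _ => (hK t).le)
    linarith
  · intro R' hR' p q hp hpP hq hqP N hN S hS hSN
    have hmem : (p, q) ∈ D := by
      rw [hD, Finset.mem_product, Finset.mem_range, Finset.mem_range]
      exact ⟨hpP, hqP⟩
    have h1 : Rf (p, q) ≤ ∑ t ∈ D, Rf t :=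
      Finset.single_le_sum (f := Rf) (fun t _ => Nat.zero_le _) hmem
    have h2 : Kf (p, q) ≤ ∑ t ∈ D, Kf t := Finset.single_le_sum (f := Kf) (fun t _ => (hK t).le) hmem
    have h3 : (PQ S p q R' N).ncard ≤ (PQ S p q (Rf (p, q)) N).ncard :=
      Set.ncard_le_ncard (pq_mono S p q (by omega) N) (pq_finite S p q _ N)
    have hX : (0 : ℝ) ≤ (N : ℝ) ^ ε := by positivity
    calc ((PQ S p q R' N).ncard : ℝ) ≤ ((PQ S p q (Rf (p, q)) N).ncard : ℝ) := by exact_mod_cast h3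
      _ ≤ Kf (p, q) * (N : ℝ) ^ ε :=
          hc (p, q) hp hq N hN S hS (pow_le_of_le_exp (one_le_prod S hS) (by omega) hSN)
      _ ≤ (∑ t ∈ D, Kf t + 1) * (N : ℝ) ^ ε := by
          apply mul_le_mul_of_nonneg_right _ hX
          linarith

theorem tr_card_W (ε : ℝ) (hε : 0 < ε) :
    ∃ R : ℕ, ∃ K : ℝ, 1 ≤ R ∧ 0 < K ∧ ∀ N : ℕ, 1 ≤ N → ∀ S : Finset ℕ, (∀ l ∈ S, l.Prime) →
      (∏ l ∈ S, l) ^ R ≤ N → ((Tr S R N).ncard : ℝ) ≤ K * (N : ℝ) ^ ε := by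
  classical
  obtain ⟨P, K1, hP, hK1, hB'⟩ := bset_eps_W (ε / 2) (by positivity)
  obtain ⟨R0, K2, hR0, hK2, hpq⟩ := count_pq_unif_W P ε hε
  refine ⟨R0 + P, (P * P : ℝ) * K2 + 2 * (K1 * K1), by omega, by positivity,
    fun N hN S hS hSN => ?_⟩
  have hB := hB' N hN S hS (pow_le_of_le_exp (one_le_prod S hS) (by omega) hSN)
  have hN1 : (1 : ℝ) ≤ N := by exact_mod_cast hN
  set R := R0 + P with hR
  set D : Finset (ℕ × ℕ) := (Finset.range P ×ˢ Finset.range P).filter (fun t => 2 ≤ t.1 ∧ 2 ≤ t.2)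
    with hD
  set BB : Set (ℤ × ℤ) := (Bset S P N) ×ˢ (Bset S P N) with hBB
  have hBBfin : BB.Finite := (bset_finite S P N).prod (bset_finite S P N)
  set U1 : Set (ℤ × ℤ) := ⋃ t ∈ D, PQ S t.1 t.2 R N with hU1
  have hU1fin : U1.Finite := Set.Finite.biUnion (Finset.finite_toSet D) (fun t _ => pq_finite S _ _ _ _)
  set U3 : Set (ℤ × ℤ) := (fun t : ℤ × ℤ => (t.2 - t.1, t.2)) '' BB with hU3
  have hU3fin : U3.Finite := hBBfin.image _
  set f : ℤ × ℤ × ℤ → ℤ × ℤ := fun t => (t.2.1, t.2.2) with hf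
  have hinj : Set.InjOn f (Tr S R N) := by
    rintro ⟨A, B, E⟩ ⟨-, -, -, h1, -⟩ ⟨A', B', E'⟩ ⟨-, -, -, h2, -⟩ h
    simp only [hf, Prod.mk.injEq] at h
    obtain ⟨hB', hE'⟩ := h
    simp only at h1 h2
    subst hB' hE'
    have : A = A' := by omega
    rw [this]
  have hmaps : ∀ t ∈ Tr S R N, f t ∈ U1 ∪ (BB ∪ U3) := by
    rintro ⟨A, B, E⟩ ⟨hA, hBN, hE, hsum, a, b, c, x, y, z, p, q, r, ha, hb, hc, hx, hy, hz, hp, hq, hr,
      h1, h2, h3⟩
    simp only at hA hBN hE hsum h1 h2 h3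
    have hEB : E ∈ Bset S R N := ⟨hE, c, z, r, hr, hc, hz, h3⟩
    have hEP : E ∈ Bset S P N := bset_mono S (by omega) N hEB
    by_cases hpP : p < P
    · by_cases hqP : q < P
      · left
        rw [hU1, Set.mem_iUnion₂]
        refine ⟨(p, q), ?_, hEB, ?_⟩
        · rw [hD, Finset.mem_filter, Finset.mem_product, Finset.mem_range, Finset.mem_range]
          exact ⟨⟨hpP, hqP⟩, hp, hq⟩
        · refine ⟨hBN, a, b, x, y, ha, hb, hx, hy, ?_, h2⟩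
          simp only [hf]
          rw [← h1]
          omega
      · right; left
        exact ⟨⟨hBN, b, y, q, by omega, hb, hy, h2⟩, hEP⟩
    · right; right
      refine ⟨(A, E), ⟨⟨hA, a, x, p, by omega, ha, hx, h1⟩, hEP⟩, ?_⟩
      simp only [hf, Prod.mk.injEq, and_true]
      omega
  have hcard : (Tr S R N).ncard ≤ U1.ncard + (BB.ncard + U3.ncard) := by
    calc (Tr S R N).ncard ≤ (U1 ∪ (BB ∪ U3)).ncard :=
          Set.ncard_le_ncard_of_injOn f hmaps hinj (hU1fin.union (hBBfin.union hU3fin))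
      _ ≤ U1.ncard + (BB ∪ U3).ncard := Set.ncard_union_le _ _
      _ ≤ U1.ncard + (BB.ncard + U3.ncard) := Nat.add_le_add_left (Set.ncard_union_le _ _) _
  have hX : (0 : ℝ) ≤ (N : ℝ) ^ ε := by positivity
  have hc1 : (U1.ncard : ℝ) ≤ (P * P : ℝ) * (K2 * (N : ℝ) ^ ε) := by
    calc (U1.ncard : ℝ) ≤ ((∑ t ∈ D, (PQ S t.1 t.2 R N).ncard : ℕ) : ℝ) := by
          exact_mod_cast Finset.set_ncard_biUnion_le _ _
      _ = ∑ t ∈ D, ((PQ S t.1 t.2 R N).ncard : ℝ) := by push_cast; rfl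
      _ ≤ ∑ t ∈ D, K2 * (N : ℝ) ^ ε := by
          apply Finset.sum_le_sum
          intro t ht
          rw [hD, Finset.mem_filter, Finset.mem_product, Finset.mem_range, Finset.mem_range] at ht
          exact hpq R (by omega) t.1 t.2 ht.2.1 ht.1.1 ht.2.2 ht.1.2 N hN S hS hSN
      _ = (D.card : ℝ) * (K2 * (N : ℝ) ^ ε) := by rw [Finset.sum_const, nsmul_eq_mul]
      _ ≤ (P * P : ℝ) * (K2 * (N : ℝ) ^ ε) := by
          apply mul_le_mul_of_nonneg_right _ (by positivity)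
          have : D.card ≤ P * P := by
            calc D.card ≤ (Finset.range P ×ˢ Finset.range P).card := Finset.card_filter_le _ _
              _ = P * P := by rw [Finset.card_product, Finset.card_range]
          exact_mod_cast this
  have hc2 : (BB.ncard : ℝ) ≤ K1 * K1 * (N : ℝ) ^ ε := by
    have h1 : BB.ncard = (Bset S P N).ncard * (Bset S P N).ncard := by
      rw [hBB, Set.ncard_prod]
    have h2 := hB
    calc (BB.ncard : ℝ) = ((Bset S P N).ncard : ℝ) * ((Bset S P N).ncard : ℝ) := by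
          rw [h1]; push_cast; ring
      _ ≤ (K1 * (N : ℝ) ^ (ε / 2)) * (K1 * (N : ℝ) ^ (ε / 2)) := by gcongr
      _ = K1 * K1 * (N : ℝ) ^ ε := by
          have : (N : ℝ) ^ ε = (N : ℝ) ^ (ε / 2) * (N : ℝ) ^ (ε / 2) := by
            rw [← Real.rpow_add (by positivity)]
            congr 1
            ring
          rw [this]
          ring
  have hc3 : (U3.ncard : ℝ) ≤ K1 * K1 * (N : ℝ) ^ ε := by
    refine le_trans ?_ hc2
    exact_mod_cast Set.ncard_image_le hBBfin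
  calc ((Tr S R N).ncard : ℝ) ≤ ((U1.ncard + (BB.ncard + U3.ncard) : ℕ) : ℝ) := by
        exact_mod_cast hcard
    _ = (U1.ncard : ℝ) + ((BB.ncard : ℝ) + (U3.ncard : ℝ)) := by push_cast; ring
    _ ≤ (P * P : ℝ) * (K2 * (N : ℝ) ^ ε) + (K1 * K1 * (N : ℝ) ^ ε + K1 * K1 * (N : ℝ) ^ ε) := by
        gcongr
    _ = _ := by ring

end Pool.Agent.FCat
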