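import Mathlib
import Pool.Agent.FCat.RadD
import Pool.Agent.FCat.CntE

/-!
Theorem A of MP_be1fae_nt in the form uniform in the coefficients.
-/

set_option autoImplicit false

namespace Pool.Agent.FCat

open Finset

theorem trMax_card_W (ε : ℝ) (hε : 0 < ε) :
    ∃ R : ℕ, ∃ K : ℝ, 1 ≤ R ∧ 0 < K ∧ ∀ R' : ℕ, R ≤ R' → ∀ N : ℕ, 1 ≤ N → ∀ S : Finset ℕ,
      (∀ l ∈ S, l.Prime) → (∏ l ∈ S, l) ^ R' ≤ N → ((TrMax S R' N).ncard : ℝ) ≤ K * (N : ℝ) ^ ε := by
  classical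
  obtain ⟨R, K, hR, hK, hT⟩ := tr_card_W ε hε
  refine ⟨R, 3 * K, hR, by positivity, fun R' hRR' N hN S hS hSN => ?_⟩
  have hfin := tr_finite S R N
  set V : Set (ℤ × ℤ × ℤ) := Tr S R N with hV
  set V1 : Set (ℤ × ℤ × ℤ) := (fun t : ℤ × ℤ × ℤ => (t.2.2, -t.2.1, t.1)) '' V with hV1
  set V2 : Set (ℤ × ℤ × ℤ) := (fun t : ℤ × ℤ × ℤ => (-t.2.1, t.2.2, t.1)) '' V with hV2
  have hV1f : V1.Finite := hfin.image _
  have hV2f : V2.Finite := hfin.image _
  have hsub : TrMax S R' N ⊆ V ∪ (V1 ∪ V2) := by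
    rintro t ⟨hA, hB, hE, a, b, c, x, y, z, p, q, r, ha, hb, hc, hx, hy, hz, hp, hq, hr, hmax', heq,
      rfl⟩
    have hmax : R ≤ max p (max q r) := hRR'.trans hmax'
    simp only at hA hB hE
    rcases le_max_iff.mp hmax with h | h
    · right; left
      refine ⟨(c * z ^ r, -(b * y ^ q), a * x ^ p), ⟨hE, by simpa using hB, hA, ?_, c, -b, a, z, y, x,
        r, q, p, hc, hb.neg, ha, hz, hy, hx, hr, hq, h, rfl, ?_, rfl⟩, ?_⟩
      · simp only
        linarith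
      · simp only
        ring
      · simp
    · rcases le_max_iff.mp h with h | h
      · right; right
        refine ⟨(c * z ^ r, -(a * x ^ p), b * y ^ q), ⟨hE, by simpa using hA, hB, ?_, c, -a, b, z, x,
          y, r, p, q, hc, ha.neg, hb, hz, hx, hy, hr, hp, h, rfl, ?_, rfl⟩, ?_⟩
        · simp only
          linarith
        · simp only
          ring
        · simp
      · left
        exact ⟨hA, hB, hE, heq, a, b, c, x, y, z, p, q, r, ha, hb, hc, hx, hy, hz, hp, hq, h,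
          rfl, rfl, rfl⟩
  have hcard : (TrMax S R' N).ncard ≤ V.ncard + (V.ncard + V.ncard) := by
    calc (TrMax S R' N).ncard ≤ (V ∪ (V1 ∪ V2)).ncard :=
          Set.ncard_le_ncard hsub (hfin.union (hV1f.union hV2f))
      _ ≤ V.ncard + (V1 ∪ V2).ncard := Set.ncard_union_le _ _
      _ ≤ V.ncard + (V1.ncard + V2.ncard) := Nat.add_le_add_left (Set.ncard_union_le _ _) _
      _ ≤ V.ncard + (V.ncard + V.ncard) := by
          have h1 : V1.ncard ≤ V.ncard := Set.ncard_image_le hfin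
          have h2 : V2.ncard ≤ V.ncard := Set.ncard_image_le hfin
          omega
  have h := hT N hN S hS (pow_le_of_le_exp (one_le_prod S hS) hRR' hSN)
  calc ((TrMax S R' N).ncard : ℝ) ≤ ((V.ncard + (V.ncard + V.ncard) : ℕ) : ℝ) := by
        exact_mod_cast hcard
    _ = 3 * (V.ncard : ℝ) := by push_cast; ring
    _ ≤ 3 * (K * (N : ℝ) ^ ε) := by gcongr
    _ = _ := by ring

/-- The radical of an integer: the product of its prime divisors. -/
def rad (n : ℤ) : ℕ := ∏ l ∈ n.natAbs.primeFactors, l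

/-- The triples `(A, B, E)`, all three at most `N` in absolute value, with `A + B = E` and
`A = a x^p`, `B = b y^q`, `E = c z^r`, all of `a, b, c, x, y, z` nonzero integers, `p, q, r ≥ 2`, one
of `p, q, r` at least `R`, and `rad (abc) ≤ N^{1/R}`. -/
def TrRad (R N : ℕ) : Set (ℤ × ℤ × ℤ) :=
  {t | |t.1| ≤ N ∧ |t.2.1| ≤ N ∧ |t.2.2| ≤ N ∧
    ∃ a b c x y z : ℤ, ∃ p q r : ℕ, a ≠ 0 ∧ b ≠ 0 ∧ c ≠ 0 ∧ x ≠ 0 ∧ y ≠ 0 ∧ z ≠ 0 ∧
      2 ≤ p ∧ 2 ≤ q ∧ 2 ≤ r ∧ R ≤ max p (max q r) ∧ rad (a * b * c) ^ R ≤ N ∧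
      a * x ^ p + b * y ^ q = c * z ^ r ∧ t = (a * x ^ p, b * y ^ q, c * z ^ r)}

lemma trMax_finite (S : Finset ℕ) (R N : ℕ) : (TrMax S R N).Finite := by
  refine Set.Finite.subset ((Set.finite_Icc (-(N : ℤ)) N).prod
    ((Set.finite_Icc (-(N : ℤ)) N).prod (Set.finite_Icc (-(N : ℤ)) N))) ?_
  rintro ⟨A, B, E⟩ ⟨h1, h2, h3, -⟩
  exact ⟨abs_le.mp h1, abs_le.mp h2, abs_le.mp h3⟩

theorem trRad_card (ε : ℝ) (hε : 0 < ε) :
    ∃ R : ℕ, ∃ K : ℝ, 0 < K ∧ ∀ N : ℕ, 1 ≤ N → ((TrRad R N).ncard : ℝ) ≤ K * (N : ℝ) ^ ε := by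
  classical
  obtain ⟨R0, K, hR0, hK, hT⟩ := trMax_card_W (ε / 2) (by positivity)
  obtain ⟨R1, hR1⟩ := exists_nat_ge (((1 : ℕ) : ℝ) / (ε / 2))
  set R : ℕ := R0 + R1 with hR
  refine ⟨R, K, hK, fun N hN => ?_⟩
  have hN1 : (1 : ℝ) ≤ N := by exact_mod_cast hN
  have hRR : ((1 : ℕ) : ℝ) / (ε / 2) ≤ (R : ℝ) := by
    rw [hR]
    push_cast at hR1 ⊢
    have : (0 : ℝ) ≤ (R0 : ℝ) := by positivity
    linarith
  set I : Finset ℕ := (Finset.Icc 1 N).filter (fun w => w ^ R ≤ N) with hI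
  have hIcard : (I.card : ℝ) ≤ (N : ℝ) ^ (ε / 2) := by
    have hsub : I ⊆ Finset.Icc 1 ⌊(N : ℝ) ^ (ε / 2)⌋₊ := by
      intro w hw
      rw [hI, Finset.mem_filter, Finset.mem_Icc] at hw
      rw [Finset.mem_Icc]
      refine ⟨hw.1.1, Nat.le_floor ?_⟩
      have := pow_le_rpow_of w N 1 R (ε / 2) (by positivity) hw.1.1 hN (by omega) hRR hw.2
      simpa using this
    calc (I.card : ℝ) ≤ ((Finset.Icc 1 ⌊(N : ℝ) ^ (ε / 2)⌋₊).card : ℝ) := by
          exact_mod_cast Finset.card_le_card hsub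
      _ = (⌊(N : ℝ) ^ (ε / 2)⌋₊ : ℝ) := by rw [Nat.card_Icc]; push_cast; simp
      _ ≤ _ := Nat.floor_le (by positivity)
  have hsub : TrRad R N ⊆ ⋃ w ∈ I, TrMax w.primeFactors R N := by
    rintro t ⟨hA, hB, hE, a, b, c, x, y, z, p, q, r, ha, hb, hc, hx, hy, hz, hp, hq, hr, hmax, hrad,
      heq, rfl⟩
    rw [Set.mem_iUnion₂]
    set S : Finset ℕ := (a * b * c).natAbs.primeFactors with hS
    have habc : a * b * c ≠ 0 := mul_ne_zero (mul_ne_zero ha hb) hc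
    have hSp : ∀ l ∈ S, l.Prime := fun l hl => Nat.prime_of_mem_primeFactors hl
    have hw1 : 1 ≤ rad (a * b * c) := one_le_prod S hSp
    have hpf : (rad (a * b * c)).primeFactors = S := by
      show (∏ l ∈ S, l).primeFactors = S
      exact Nat.primeFactors_prod hSp
    have hmem : ∀ l : ℕ, l.Prime → (l : ℤ) ∣ a * b * c → l ∈ S := fun l hl h =>
      Nat.mem_primeFactors.mpr ⟨hl, Int.natCast_dvd.mp h, Int.natAbs_ne_zero.mpr habc⟩
    refine ⟨rad (a * b * c), ?_, ?_⟩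
    · rw [hI, Finset.mem_filter, Finset.mem_Icc]
      refine ⟨⟨hw1, ?_⟩, hrad⟩
      have := pow_le_of_le_exp hw1 (by omega : 1 ≤ R) hrad
      simpa using this
    · rw [hpf]
      refine ⟨hA, hB, hE, a, b, c, x, y, z, p, q, r, ⟨ha, fun l hl h => hmem l hl ?_⟩,
        ⟨hb, fun l hl h => hmem l hl ?_⟩, ⟨hc, fun l hl h => hmem l hl ?_⟩, hx, hy, hz, hp, hq, hr,
        hmax, heq, rfl⟩
      · exact (h.mul_right b).mul_right c
      · exact (h.mul_left a).mul_right c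
      · exact h.mul_left (a * b)
  have hfin : (⋃ w ∈ I, TrMax w.primeFactors R N).Finite :=
    Set.Finite.biUnion (Finset.finite_toSet I) (fun w _ => trMax_finite _ _ _)
  calc ((TrRad R N).ncard : ℝ) ≤ ((⋃ w ∈ I, TrMax w.primeFactors R N).ncard : ℝ) := by
        exact_mod_cast Set.ncard_le_ncard hsub hfin
    _ ≤ ((∑ w ∈ I, (TrMax w.primeFactors R N).ncard : ℕ) : ℝ) := by
        exact_mod_cast Finset.set_ncard_biUnion_le _ _
    _ = ∑ w ∈ I, ((TrMax w.primeFactors R N).ncard : ℝ) := by push_cast; rfl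
    _ ≤ ∑ w ∈ I, K * (N : ℝ) ^ (ε / 2) := by
        apply Finset.sum_le_sum
        intro w hw
        rw [hI, Finset.mem_filter, Finset.mem_Icc] at hw
        refine hT R (by omega) N hN w.primeFactors (fun l hl => Nat.prime_of_mem_primeFactors hl) ?_
        have h1 : ∏ l ∈ w.primeFactors, l ≤ w :=
          Nat.le_of_dvd (by omega) (Nat.prod_primeFactors_dvd w)
        exact (Nat.pow_le_pow_left h1 R).trans hw.2
    _ = (I.card : ℝ) * (K * (N : ℝ) ^ (ε / 2)) := by rw [Finset.sum_const, nsmul_eq_mul]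
    _ ≤ (N : ℝ) ^ (ε / 2) * (K * (N : ℝ) ^ (ε / 2)) := by gcongr
    _ = K * (N : ℝ) ^ ε := by
        have : (N : ℝ) ^ ε = (N : ℝ) ^ (ε / 2) * (N : ℝ) ^ (ε / 2) := by
          rw [← Real.rpow_add (by positivity)]
          congr 1
          ring
        rw [this]
        ring

end Pool.Agent.FCat
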